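import Mathlib

/-!
# Product measures: resampling, independence, and the local lemma
-/

open MeasureTheory ProbabilityTheory
open scoped ENNReal

namespace Pool.Agent.Helper62.Disc

section comb

variable {ι : Type*} [Fintype ι] [DecidableEq ι] (ν : ι → Measure ℝ)
  [∀ i, IsProbabilityMeasure (ν i)]

omit [Fintype ι] in
lemma measurable_comb (S : Finset ι) :
    Measurable (fun p : (ι → ℝ) × (ι → ℝ) => S.piecewise p.1 p.2) := by
  refine measurable_pi_lambda _ fun i => ?_
  by_cases hi : i ∈ S
  · simp only [Finset.piecewise, hi, if_true]; fun_prop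
  · simp only [Finset.piecewise, hi, if_false]; fun_prop

/-- Resampling the coordinates outside `S` preserves a product measure. -/
lemma map_comb (S : Finset ι) :
    ((Measure.pi ν).prod (Measure.pi ν)).map (fun p => S.piecewise p.1 p.2) = Measure.pi ν := by
  symm
  apply Measure.pi_eq
  intro s hs
  rw [Measure.map_apply (measurable_comb S) (MeasurableSet.univ_pi hs)]
  have hset : (fun p : (ι → ℝ) × (ι → ℝ) => S.piecewise p.1 p.2) ⁻¹' (Set.univ.pi s) =
      (Set.univ.pi (fun i => if i ∈ S then s i else Set.univ)) ×ˢ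
        (Set.univ.pi (fun i => if i ∈ S then Set.univ else s i)) := by
    ext p
    simp only [Set.mem_preimage, Set.mem_pi, Set.mem_univ, forall_const, Set.mem_prod,
      Finset.piecewise]
    constructor
    · intro h
      refine ⟨fun i => ?_, fun i => ?_⟩
      · have := h i
        by_cases hi : i ∈ S
        · simpa [hi] using this
        · simp [hi]
      · have := h i
        by_cases hi : i ∈ S
        · simp [hi]
        · simpa [hi] using this
    · rintro ⟨h1, h2⟩ i
      have h1 := h1 i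
      have h2 := h2 i
      by_cases hi : i ∈ S
      · simpa [hi] using h1
      · simpa [hi] using h2
  rw [hset, Measure.prod_prod, Measure.pi_pi, Measure.pi_pi, ← Finset.prod_mul_distrib]
  refine Finset.prod_congr rfl fun i _ => ?_
  by_cases hi : i ∈ S <;> simp [hi]

/-- Events depending on disjoint sets of coordinates are independent. -/
lemma indep_of_disjoint {S T : Finset ι} (hST : Disjoint S T) {E F : Set (ι → ℝ)}
    (hE : MeasurableSet E) (hF : MeasurableSet F)
    (hES : ∀ g g' : ι → ℝ, (∀ i ∈ S, g i = g' i) → (g ∈ E ↔ g' ∈ E))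
    (hFT : ∀ g g' : ι → ℝ, (∀ i ∈ T, g i = g' i) → (g ∈ F ↔ g' ∈ F)) :
    (Measure.pi ν).real (E ∩ F) = (Measure.pi ν).real E * (Measure.pi ν).real F := by
  have h1 : (Measure.pi ν) (E ∩ F) = (Measure.pi ν) E * (Measure.pi ν) F := by
    conv_lhs => rw [← map_comb ν S]
    rw [Measure.map_apply (measurable_comb S) (hE.inter hF)]
    have hset : (fun p : (ι → ℝ) × (ι → ℝ) => S.piecewise p.1 p.2) ⁻¹' (E ∩ F) = E ×ˢ F := by
      ext p
      simp only [Set.mem_preimage, Set.mem_inter_iff, Set.mem_prod]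
      rw [hES (S.piecewise p.1 p.2) p.1 (fun i hi => by simp [hi]),
        hFT (S.piecewise p.1 p.2) p.2 (fun i hi => by
          have : i ∉ S := fun h => Finset.disjoint_left.1 hST h hi
          simp [this])]
    rw [hset, Measure.prod_prod]
  simp only [measureReal_def, h1, ENNReal.toReal_mul]

end comb

section LLL

variable {Ω : Type*} [MeasurableSpace Ω] (μ : Measure Ω) [IsProbabilityMeasure μ]
  {κ : Type*} [Fintype κ] [DecidableEq κ]

/-- Abstract symmetric local lemma. `Γ j` is the set of indices on which `E j` may depend. -/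
theorem local_lemma (E : κ → Set Ω) (hE : ∀ j, MeasurableSet (E j)) (Γ : κ → Finset κ)
    (p : ℝ) (D : ℝ) (hp : ∀ j, μ.real (E j) ≤ p) (hp0 : 0 ≤ p) (hD1 : 1 ≤ D)
    (hD : ∀ j, ((Γ j).card : ℝ) ≤ D) (hpD : 4 * p * D ≤ 1)
    (hind : ∀ j (T : Finset κ), Disjoint T (Γ j) →
      μ.real (E j ∩ ⋂ k ∈ T, (E k)ᶜ) = μ.real (E j) * μ.real (⋂ k ∈ T, (E k)ᶜ)) :
    ∃ w, ∀ j, w ∉ E j := by
  have hmeas : ∀ T : Finset κ, MeasurableSet (⋂ k ∈ T, (E k)ᶜ) := fun T =>
    Finset.measurableSet_biInter T fun k _ => (hE k).compl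
  -- main claim
  have key : ∀ n : ℕ, ∀ T : Finset κ, T.card = n → ∀ j,
      μ.real (E j ∩ ⋂ k ∈ T, (E k)ᶜ) ≤ 2 * p * μ.real (⋂ k ∈ T, (E k)ᶜ) := by
    intro n
    induction n using Nat.strong_induction_on with
    | _ n ih =>
      intro T hT j
      set T2 := T \ Γ j with hT2
      set T1 := T ∩ Γ j with hT1
      have hsub : (⋂ k ∈ T, (E k)ᶜ) ⊆ ⋂ k ∈ T2, (E k)ᶜ := by
        intro w hw
        simp only [Set.mem_iInter] at hw ⊢
        exact fun k hk => hw k (Finset.mem_sdiff.1 hk).1
      have h1 : μ.real (E j ∩ ⋂ k ∈ T, (E k)ᶜ) ≤ p * μ.real (⋂ k ∈ T2, (E k)ᶜ) := by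
        calc μ.real (E j ∩ ⋂ k ∈ T, (E k)ᶜ) ≤ μ.real (E j ∩ ⋂ k ∈ T2, (E k)ᶜ) :=
              measureReal_mono (Set.inter_subset_inter_right _ hsub)
          _ = μ.real (E j) * μ.real (⋂ k ∈ T2, (E k)ᶜ) :=
              hind j T2 (Finset.sdiff_disjoint)
          _ ≤ _ := by
              have := hp j
              have h0 : 0 ≤ μ.real (⋂ k ∈ T2, (E k)ᶜ) := measureReal_nonneg
              gcongr
      have h2 : μ.real (⋂ k ∈ T2, (E k)ᶜ) ≤ 2 * μ.real (⋂ k ∈ T, (E k)ᶜ) := by
        have h0 : 0 ≤ μ.real (⋂ k ∈ T2, (E k)ᶜ) := measureReal_nonneg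
        rcases Finset.eq_empty_or_nonempty T1 with he | hne
        · have : T2 = T := by
            rw [hT2]
            ext k
            simp only [Finset.mem_sdiff]
            constructor
            · exact fun h => h.1
            · intro hk
              refine ⟨hk, fun hk2 => ?_⟩
              have : k ∈ T1 := Finset.mem_inter.2 ⟨hk, hk2⟩
              rw [he] at this
              simp at this
          rw [this] at h0 ⊢
          linarith
        · have hlt : T2.card < n := by
            rw [← hT]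
            apply Finset.card_lt_card
            rw [Finset.ssubset_iff_of_subset Finset.sdiff_subset]
            obtain ⟨k, hk⟩ := hne
            exact ⟨k, (Finset.mem_inter.1 hk).1, fun h =>
              (Finset.mem_sdiff.1 h).2 (Finset.mem_inter.1 hk).2⟩
          have h3 : (⋂ k ∈ T2, (E k)ᶜ) ⊆
              (⋂ k ∈ T, (E k)ᶜ) ∪ ⋃ i ∈ T1, (E i ∩ ⋂ k ∈ T2, (E k)ᶜ) := by
            intro w hw
            by_cases hw1 : ∃ i ∈ T1, w ∈ E i
            · obtain ⟨i, hi, hwi⟩ := hw1
              right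
              simp only [Set.mem_iUnion]
              exact ⟨i, hi, hwi, hw⟩
            · left
              push Not at hw1
              simp only [Set.mem_iInter] at hw ⊢
              intro k hk
              by_cases hk2 : k ∈ Γ j
              · exact hw1 k (Finset.mem_inter.2 ⟨hk, hk2⟩)
              · exact hw k (Finset.mem_sdiff.2 ⟨hk, hk2⟩)
          have h4 : μ.real (⋂ k ∈ T2, (E k)ᶜ) ≤ μ.real (⋂ k ∈ T, (E k)ᶜ) +
              ∑ i ∈ T1, μ.real (E i ∩ ⋂ k ∈ T2, (E k)ᶜ) := by
            refine (measureReal_mono h3).trans ((measureReal_union_le _ _).trans ?_)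
            gcongr
            exact measureReal_biUnion_finset_le _ _
          have h5 : ∑ i ∈ T1, μ.real (E i ∩ ⋂ k ∈ T2, (E k)ᶜ) ≤
              D * (2 * p * μ.real (⋂ k ∈ T2, (E k)ᶜ)) := by
            calc ∑ i ∈ T1, μ.real (E i ∩ ⋂ k ∈ T2, (E k)ᶜ)
                ≤ ∑ _i ∈ T1, 2 * p * μ.real (⋂ k ∈ T2, (E k)ᶜ) :=
                  Finset.sum_le_sum fun i _ => ih _ hlt T2 rfl i
              _ = (T1.card : ℝ) * (2 * p * μ.real (⋂ k ∈ T2, (E k)ᶜ)) := by
                  rw [Finset.sum_const, nsmul_eq_mul]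
              _ ≤ _ := by
                  have h6 : (T1.card : ℝ) ≤ D := by
                    refine le_trans ?_ (hD j)
                    exact_mod_cast Finset.card_le_card Finset.inter_subset_right
                  have h7 : 0 ≤ 2 * p * μ.real (⋂ k ∈ T2, (E k)ᶜ) := by positivity
                  gcongr
          have h6 : D * (2 * p * μ.real (⋂ k ∈ T2, (E k)ᶜ)) ≤
              μ.real (⋂ k ∈ T2, (E k)ᶜ) / 2 := by
            have : (4 * p * D) * μ.real (⋂ k ∈ T2, (E k)ᶜ) ≤ 1 * μ.real (⋂ k ∈ T2, (E k)ᶜ) :=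
              mul_le_mul_of_nonneg_right hpD h0
            linarith
          linarith
      calc μ.real (E j ∩ ⋂ k ∈ T, (E k)ᶜ) ≤ p * μ.real (⋂ k ∈ T2, (E k)ᶜ) := h1
        _ ≤ p * (2 * μ.real (⋂ k ∈ T, (E k)ᶜ)) := by gcongr
        _ = _ := by ring
  -- positivity
  have hp4 : p ≤ 1 / 4 := by nlinarith
  have pos : ∀ T : Finset κ, 0 < μ.real (⋂ k ∈ T, (E k)ᶜ) := by
    intro T
    induction T using Finset.induction_on with
    | empty => simp
    | insert a T ha ih =>
      have h1 : (⋂ k ∈ T, (E k)ᶜ) ⊆ (⋂ k ∈ insert a T, (E k)ᶜ) ∪ (E a ∩ ⋂ k ∈ T, (E k)ᶜ) := by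
        intro w hw
        by_cases hwa : w ∈ E a
        · exact Or.inr ⟨hwa, hw⟩
        · left
          simp only [Set.mem_iInter] at hw ⊢
          intro k hk
          rcases Finset.mem_insert.1 hk with rfl | hk
          · exact hwa
          · exact hw k hk
      have h2 := (measureReal_mono h1 (μ := μ)).trans (measureReal_union_le _ _)
      have h3 := key T.card T rfl a
      nlinarith
  have := pos Finset.univ
  by_contra hcon
  push Not at hcon
  have hemp : (⋂ k ∈ (Finset.univ : Finset κ), (E k)ᶜ) = ∅ := by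
    ext w
    simp only [Finset.mem_univ, Set.iInter_true, Set.mem_iInter, Set.mem_compl_iff,
      Set.mem_empty_iff_false, iff_false, not_forall, not_not]
    exact hcon w
  rw [hemp] at this
  simp at this

end LLL

section LLLpi

variable {ι κ : Type*} [Fintype ι] [DecidableEq ι] [Fintype κ] [DecidableEq κ]
  (ν : ι → Measure ℝ) [∀ i, IsProbabilityMeasure (ν i)]

/-- Local lemma for a product measure and events depending on few coordinates. -/
theorem local_lemma_pi (E : κ → Set (ι → ℝ)) (hE : ∀ j, MeasurableSet (E j))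
    (W : κ → Finset ι)
    (hW : ∀ j, ∀ g g' : ι → ℝ, (∀ i ∈ W j, g i = g' i) → (g ∈ E j ↔ g' ∈ E j))
    (p : ℝ) (D : ℝ) (hp : ∀ j, (Measure.pi ν).real (E j) ≤ p) (hp0 : 0 ≤ p) (hD1 : 1 ≤ D)
    (hD : ∀ j, ((Finset.univ.filter (fun k => ¬ Disjoint (W k) (W j))).card : ℝ) ≤ D)
    (hpD : 4 * p * D ≤ 1) :
    ∃ w, ∀ j, w ∉ E j := by
  refine local_lemma (Measure.pi ν) E hE
    (fun j => Finset.univ.filter (fun k => ¬ Disjoint (W k) (W j))) p D hp hp0 hD1 hD hpD ?_
  intro j T hT
  refine indep_of_disjoint ν (S := W j) (T := T.biUnion W) ?_ (hE j)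
    (Finset.measurableSet_biInter T fun k _ => (hE k).compl) (hW j) ?_
  · rw [Finset.disjoint_biUnion_right]
    intro k hk
    by_contra hcon
    refine Finset.disjoint_left.1 hT hk ?_
    simp only [Finset.mem_filter, Finset.mem_univ, true_and]
    exact fun h => hcon h.symm
  · intro g g' hgg
    simp only [Set.mem_iInter, Set.mem_compl_iff]
    refine forall_congr' fun k => ?_
    refine forall_congr' fun hk => ?_
    rw [hW k g g' fun i hi => hgg i (Finset.mem_biUnion.2 ⟨k, hk, hi⟩)]

end LLLpi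

end Pool.Agent.Helper62.Disc
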