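import Pool.Agent.Helper62.Disc.Hi

/-!
# Balls in the row graph, counting, and exponential locality
-/

open Finset MeasureTheory ProbabilityTheory

namespace Pool.Agent.Helper62.Disc

section ball

variable {ι κ : Type*} [Fintype ι] [DecidableEq ι] [Fintype κ] [DecidableEq κ]
  (A : κ → Finset ι)

/-- closed neighbourhood -/
def nb (k : ι) : Finset ι := insert k ((Finset.univ.filter fun j => k ∈ A j).biUnion A)

/-- balls -/
def ball (i : ι) : ℕ → Finset ι
  | 0 => {i}
  | s + 1 => (ball i s).biUnion (nb A)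

omit [Fintype ι] [DecidableEq κ] in
lemma mem_nb {k l : ι} : l ∈ nb A k ↔ l = k ∨ ∃ j, k ∈ A j ∧ l ∈ A j := by
  unfold nb
  simp

omit [Fintype ι] [DecidableEq κ] in
lemma nb_symm {k l : ι} (h : l ∈ nb A k) : k ∈ nb A l := by
  rw [mem_nb] at h ⊢
  rcases h with h | ⟨j, h1, h2⟩
  · exact Or.inl h.symm
  · exact Or.inr ⟨j, h2, h1⟩

omit [Fintype ι] [DecidableEq κ] in
lemma mem_ball_succ {i k : ι} {s : ℕ} :
    k ∈ ball A i (s + 1) ↔ ∃ l ∈ ball A i s, k ∈ nb A l := by
  simp [ball]

omit [Fintype ι] [DecidableEq κ] in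
lemma ball_sub_succ (i : ι) (s : ℕ) : ball A i s ⊆ ball A i (s + 1) := by
  intro k hk
  rw [mem_ball_succ]
  exact ⟨k, hk, by rw [mem_nb]; exact Or.inl rfl⟩

omit [Fintype ι] [DecidableEq κ] in
lemma ball_mono (i : ι) {s r : ℕ} (h : s ≤ r) : ball A i s ⊆ ball A i r := by
  induction r, h using Nat.le_induction with
  | base => exact Finset.Subset.refl _
  | succ r _ ih => exact ih.trans (ball_sub_succ A i r)

omit [Fintype ι] [DecidableEq κ] in
lemma self_mem_ball (i : ι) (s : ℕ) : i ∈ ball A i s :=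
  ball_mono A i (Nat.zero_le s) (by simp [ball])

omit [Fintype ι] [DecidableEq κ] in
lemma ball_concat {i k l : ι} {r s : ℕ} (h1 : l ∈ ball A i r) (h2 : k ∈ ball A l s) :
    k ∈ ball A i (r + s) := by
  induction s generalizing k with
  | zero =>
    simp only [ball, Finset.mem_singleton] at h2
    subst h2
    simpa using h1
  | succ s ih =>
    rw [mem_ball_succ] at h2
    obtain ⟨m, hm, hk⟩ := h2
    rw [← Nat.add_assoc, mem_ball_succ]
    exact ⟨m, ih hm, hk⟩

omit [Fintype ι] [DecidableEq κ] in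
lemma ball_symm {i k : ι} {s : ℕ} (h : k ∈ ball A i s) : i ∈ ball A k s := by
  induction s generalizing k with
  | zero =>
    simp only [ball, Finset.mem_singleton] at h
    subst h
    simp [ball]
  | succ s ih =>
    rw [mem_ball_succ] at h
    obtain ⟨l, hl, hk⟩ := h
    have h1 : l ∈ ball A k 1 := by
      rw [mem_ball_succ]
      exact ⟨k, by simp [ball], nb_symm A hk⟩
    have := ball_concat A h1 (ih hl)
    rwa [Nat.add_comm] at this

variable {t : ℕ} (ht : 1 ≤ t) (hcard : ∀ j, (A j).card ≤ t)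
  (hdeg : ∀ i, (Finset.univ.filter fun j => i ∈ A j).card ≤ t)

include ht hcard hdeg

omit [Fintype ι] [DecidableEq κ] in
lemma nb_card (k : ι) : (nb A k).card ≤ t ^ 2 := by
  unfold nb
  by_cases h : ∃ j, k ∈ A j
  · obtain ⟨j, hj⟩ := h
    have hk : k ∈ (Finset.univ.filter fun j => k ∈ A j).biUnion A := by
      simp only [Finset.mem_biUnion, Finset.mem_filter, Finset.mem_univ, true_and]
      exact ⟨j, hj, hj⟩
    rw [Finset.insert_eq_of_mem hk]
    calc _ ≤ (Finset.univ.filter fun j => k ∈ A j).card * t :=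
          Finset.card_biUnion_le_card_mul _ _ _ fun j _ => hcard j
      _ ≤ t * t := Nat.mul_le_mul_right _ (hdeg k)
      _ = t ^ 2 := by ring
  · have : (Finset.univ.filter fun j => k ∈ A j) = ∅ := by
      ext j
      simp only [Finset.mem_filter, Finset.mem_univ, true_and, Finset.notMem_empty, iff_false]
      exact fun hj => h ⟨j, hj⟩
    rw [this]
    simp only [Finset.biUnion_empty, insert_empty_eq, Finset.card_singleton]
    exact Nat.one_le_pow _ _ ht

omit [Fintype ι] [DecidableEq κ] in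
lemma ball_card (i : ι) (s : ℕ) : (ball A i s).card ≤ t ^ (2 * s) := by
  induction s with
  | zero => simp [ball]
  | succ s ih =>
    calc (ball A i (s + 1)).card ≤ (ball A i s).card * t ^ 2 :=
          Finset.card_biUnion_le_card_mul _ _ _ fun k _ => nb_card A ht hcard hdeg k
      _ ≤ t ^ (2 * s) * t ^ 2 := Nat.mul_le_mul_right _ ih
      _ = t ^ (2 * (s + 1)) := by ring

/-- The region of a row. -/
def reg (A : κ → Finset ι) (r : ℕ) (j : κ) : Finset ι := (A j).biUnion fun i => ball A i r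

omit [Fintype ι] in
lemma reg_count (r : ℕ) (j : κ) :
    (Finset.univ.filter (fun k => ¬ Disjoint (reg A r k) (reg A r j))).card ≤
      t ^ (4 * r + 2) := by
  have hsub : (Finset.univ.filter (fun k => ¬ Disjoint (reg A r k) (reg A r j))) ⊆
      (A j).biUnion fun i => (ball A i (2 * r)).biUnion fun i' =>
        Finset.univ.filter fun k => i' ∈ A k := by
    intro k hk
    simp only [Finset.mem_filter, Finset.mem_univ, true_and] at hk
    rw [Finset.not_disjoint_iff] at hk
    obtain ⟨l, hl1, hl2⟩ := hk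
    unfold reg at hl1 hl2
    rw [Finset.mem_biUnion] at hl1 hl2
    obtain ⟨i', hi', hli'⟩ := hl1
    obtain ⟨i, hi, hli⟩ := hl2
    simp only [Finset.mem_biUnion, Finset.mem_filter, Finset.mem_univ, true_and]
    refine ⟨i, hi, i', ?_, hi'⟩
    have := ball_concat A hli (ball_symm A hli')
    rwa [← two_mul] at this
  refine (Finset.card_le_card hsub).trans ?_
  calc _ ≤ (A j).card * (t ^ (2 * (2 * r)) * t) := by
        refine Finset.card_biUnion_le_card_mul _ _ _ fun i _ => ?_
        calc _ ≤ (ball A i (2 * r)).card * t :=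
              Finset.card_biUnion_le_card_mul _ _ _ fun i' _ => hdeg i'
          _ ≤ _ := Nat.mul_le_mul_right _ (ball_card A ht hcard hdeg i _)
    _ ≤ t * (t ^ (2 * (2 * r)) * t) := Nat.mul_le_mul_right _ (hcard j)
    _ = t ^ (4 * r + 2) := by ring

end ball

section locality

variable {ι κ : Type*} [Fintype ι] [DecidableEq ι] [Fintype κ] [DecidableEq κ] (S : Sys ι κ)

/-- truncated distance -/
def phi (A : κ → Finset ι) (i : ι) (r : ℕ) (k : ι) : ℕ :=
  ((Finset.range r).filter fun s => k ∉ ball A i s).card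

omit [Fintype ι] [DecidableEq κ] in
lemma phi_self (A : κ → Finset ι) (i : ι) (r : ℕ) : phi A i r i = 0 := by
  unfold phi
  rw [Finset.card_eq_zero, Finset.filter_eq_empty_iff]
  intro s _
  simpa using self_mem_ball A i s

omit [Fintype ι] [DecidableEq κ] in
lemma phi_out (A : κ → Finset ι) (i : ι) (r : ℕ) {k : ι} (hk : k ∉ ball A i r) :
    phi A i r k = r := by
  unfold phi
  rw [Finset.filter_true_of_mem, Finset.card_range]
  intro s hs hc
  exact hk (ball_mono A i (Finset.mem_range.1 hs).le hc)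

omit [Fintype ι] [DecidableEq κ] in
lemma phi_row (A : κ → Finset ι) (i : ι) (r : ℕ) {j : κ} {k l : ι} (hk : k ∈ A j)
    (hl : l ∈ A j) : phi A i r l ≤ phi A i r k + 1 := by
  unfold phi
  have hsub : ((Finset.range r).filter fun s => l ∉ ball A i s) ⊆
      insert 0 (((Finset.range r).filter fun s => k ∉ ball A i s).image (· + 1)) := by
    intro s hs
    rw [Finset.mem_filter, Finset.mem_range] at hs
    rcases Nat.eq_zero_or_pos s with h0 | h0
    · simp [h0]
    · rw [Finset.mem_insert]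
      right
      rw [Finset.mem_image]
      refine ⟨s - 1, ?_, by omega⟩
      rw [Finset.mem_filter, Finset.mem_range]
      refine ⟨by omega, fun hc => hs.2 ?_⟩
      have : s = (s - 1) + 1 := by omega
      rw [this, mem_ball_succ]
      refine ⟨k, hc, ?_⟩
      rw [mem_nb]
      exact Or.inr ⟨j, hk, hl⟩
  refine (Finset.card_le_card hsub).trans ((Finset.card_insert_le _ _).trans ?_)
  exact Nat.add_le_add_right Finset.card_image_le 1

/-- Exponential locality of the proximal map. -/
theorem Sys.local_lip (ε t : ℝ) (hε : 0 ≤ ε) (hn : ∀ j, S.n j ≤ S.B ^ 2)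
    (hdeg : ∀ i, ((Finset.univ.filter fun j => i ∈ S.A j).card : ℝ) ≤ t)
    (hQ : S.p.Q * ε ^ 2 * t ≤ 2) (i : ι) (r : ℕ) (g g' : ι → ℝ)
    (hg : ∀ k ∈ ball S.A i r, g k = g' k) :
    S.a i * (S.yy g i - S.yy g' i) ^ 2 ≤ 4 / (1 + ε) ^ r * ∑ k, (g k - g' k) ^ 2 := by
  have h1e : 0 < 1 + ε := by linarith
  set q : ℝ := 1 / (1 + ε) with hq
  have hq0 : 0 < q := by positivity
  have hq1 : q ≤ 1 := by rw [hq, div_le_one h1e]; linarith
  set w : ι → ℝ := fun k => q ^ phi S.A i r k with hw
  have hw0 : ∀ k, 0 < w k := fun k => pow_pos hq0 _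
  classical
  set m : κ → ℝ := fun j => if h : (S.A j).Nonempty then (S.A j).inf' h w else 0 with hm
  have hmw : ∀ j, ∀ k ∈ S.A j, m j ≤ w k := by
    intro j k hk
    simp only [hm]
    rw [dif_pos ⟨k, hk⟩]
    exact Finset.inf'_le _ hk
  have hm0 : ∀ j, 0 ≤ m j := by
    intro j
    simp only [hm]
    split_ifs with h
    · obtain ⟨l, _, hl⟩ := Finset.exists_mem_eq_inf' h w
      rw [hl]
      exact (hw0 l).le
    · exact le_rfl
  have hwm : ∀ j, ∀ k ∈ S.A j, w k ≤ (1 + ε) * m j := by
    intro j k hk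
    simp only [hm]
    have hne : (S.A j).Nonempty := ⟨k, hk⟩
    rw [dif_pos hne]
    obtain ⟨l, hl, hle⟩ := Finset.exists_mem_eq_inf' hne w
    rw [hle]
    have h1 := phi_row S.A i r hk hl
    simp only [hw]
    have h2 : q ^ (phi S.A i r k + 1) ≤ q ^ phi S.A i r l :=
      pow_le_pow_of_le_one hq0.le hq1 h1
    have h3 : q ^ phi S.A i r k = (1 + ε) * q ^ (phi S.A i r k + 1) := by
      rw [pow_succ, hq]
      field_simp
    rw [h3]
    gcongr
  have hct := (S.yy_opt g).combes_thomas (S.yy_opt g') w m ε t hε hm0 (fun k => (hw0 k).le)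
    hmw hwm hn hdeg hQ
  have h4 : S.a i * (S.yy g i - S.yy g' i) ^ 2 ≤
      ∑ k, w k * (S.a k * (S.yy g k - S.yy g' k) ^ 2) := by
    have h5 : w i = 1 := by simp only [hw]; rw [phi_self, pow_zero]
    calc S.a i * (S.yy g i - S.yy g' i) ^ 2 = w i * (S.a i * (S.yy g i - S.yy g' i) ^ 2) := by
          rw [h5, one_mul]
      _ ≤ _ := Finset.single_le_sum (f := fun k => w k * (S.a k * (S.yy g k - S.yy g' k) ^ 2))
          (fun k _ => mul_nonneg (hw0 k).le (mul_nonneg (S.a_pos k).le (sq_nonneg _)))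
          (Finset.mem_univ i)
  refine h4.trans (hct.trans ?_)
  rw [div_mul_eq_mul_div, mul_div_assoc]
  refine mul_le_mul_of_nonneg_left ?_ (by norm_num)
  rw [Finset.sum_div]
  refine Finset.sum_le_sum fun k _ => ?_
  by_cases hk : k ∈ ball S.A i r
  · rw [hg k hk]
    simp
  · simp only [hw]
    rw [phi_out S.A i r hk, hq, one_div, inv_pow, div_eq_inv_mul]
    have := S.a_le k
    have := (S.a_pos k).le
    have h6 : S.a k * (g k - g' k) ^ 2 ≤ (g k - g' k) ^ 2 :=
      mul_le_of_le_one_left (sq_nonneg _) (S.a_le k)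
    gcongr

end locality

end Pool.Agent.Helper62.Disc
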