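import Pool.Agent.Helper62.Disc.GaussV

/-!
# Gaussian concentration on a product space
-/

open MeasureTheory ProbabilityTheory Module Filter
open scoped RealInnerProductSpace ENNReal Topology NNReal

namespace Pool.Agent.Helper62.Disc

variable {ι : Type*} [Fintype ι]

/-- The standard Gaussian measure on `ι → ℝ`. -/
noncomputable def gam (ι : Type*) [Fintype ι] : Measure (ι → ℝ) :=
  Measure.pi (fun _ => gaussianReal 0 1)

instance : IsProbabilityMeasure (gam ι) := by unfold gam; infer_instance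

/-- `F` is Lipschitz for the Euclidean norm with squared constant `L`, on the set `S`. -/
def LipOn (L : ℝ) (F : (ι → ℝ) → ℝ) (S : Set (ι → ℝ)) : Prop :=
  ∀ g ∈ S, ∀ g' ∈ S, (F g - F g') ^ 2 ≤ L * ∑ i, (g i - g' i) ^ 2

lemma map_gam : (gam ι).map (WithLp.toLp 2) = stdGaussian (EuclideanSpace ℝ ι) :=
  map_pi_eq_stdGaussian

lemma map_gam_ofLp :
    (stdGaussian (EuclideanSpace ℝ ι)).map (fun v : EuclideanSpace ℝ ι => v.ofLp) = gam ι := by
  rw [← map_gam, Measure.map_map (by fun_prop) (by fun_prop)]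
  have : (fun v : EuclideanSpace ℝ ι => v.ofLp) ∘ (WithLp.toLp 2 : (ι → ℝ) → _) = id := by
    ext; simp
  rw [this, Measure.map_id]

lemma lip_toV {L : ℝ} (hL : 0 ≤ L) {F : (ι → ℝ) → ℝ} (hF : LipOn L F Set.univ) :
    LipschitzWith (Real.toNNReal (Real.sqrt L)) (fun v : EuclideanSpace ℝ ι => F v.ofLp) := by
  refine LipschitzWith.of_dist_le_mul fun v w => ?_
  rw [Real.coe_toNNReal _ (Real.sqrt_nonneg _), Real.dist_eq, EuclideanSpace.dist_eq,
    ← Real.sqrt_mul hL]
  apply Real.abs_le_sqrt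
  refine (hF _ (Set.mem_univ _) _ (Set.mem_univ _)).trans (le_of_eq ?_)
  congr 1
  refine Finset.sum_congr rfl fun i _ => ?_
  rw [Real.dist_eq, sq_abs]

lemma LipOn.continuous {L : ℝ} (hL : 0 ≤ L) {F : (ι → ℝ) → ℝ} (hF : LipOn L F Set.univ) :
    Continuous F := by
  have h := (lip_toV hL hF).continuous
  have h2 : F = (fun v : EuclideanSpace ℝ ι => F v.ofLp) ∘ (WithLp.toLp 2 : (ι → ℝ) → _) := by
    ext; simp
  rw [h2]
  exact h.comp (PiLp.continuous_toLp 2 _)

lemma LipOn.neg {L : ℝ} {F : (ι → ℝ) → ℝ} {S : Set (ι → ℝ)} (hF : LipOn L F S) :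
    LipOn L (fun g => - F g) S := by
  intro g hg g' hg'
  have := hF g hg g' hg'
  calc (- F g - - F g') ^ 2 = (F g - F g') ^ 2 := by ring
    _ ≤ _ := this

lemma LipOn.mono {L L' : ℝ} (h : L ≤ L') {F : (ι → ℝ) → ℝ} {S : Set (ι → ℝ)}
    (hF : LipOn L F S) : LipOn L' F S := by
  intro g hg g' hg'
  refine (hF g hg g' hg').trans ?_
  have : 0 ≤ ∑ i, (g i - g' i) ^ 2 := Finset.sum_nonneg fun i _ => sq_nonneg _
  gcongr

lemma integrable_exp_lip {L : ℝ} (hL : 0 ≤ L) {F : (ι → ℝ) → ℝ} (hF : LipOn L F Set.univ)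
    (lam : ℝ) : Integrable (fun g => Real.exp (lam * F g)) (gam ι) := by
  rw [← map_gam_ofLp]
  have hc := hF.continuous hL
  rw [integrable_map_measure (by fun_prop) (by fun_prop)]
  have hl := lip_toV hL hF
  refine ((integrable_exp_norm (V := EuclideanSpace ℝ ι)
    (|lam| * Real.sqrt L)).const_mul (Real.exp (|lam| * |F 0|))).mono' ?_ ?_
  · have h2 : Continuous (fun v : EuclideanSpace ℝ ι => F v.ofLp) := hl.continuous
    have : Continuous (fun v : EuclideanSpace ℝ ι => Real.exp (lam * F v.ofLp)) := by fun_prop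
    exact this.aestronglyMeasurable
  · refine Filter.Eventually.of_forall fun v => ?_
    simp only [Function.comp_apply]
    rw [Real.norm_eq_abs, abs_of_pos (Real.exp_pos _), ← Real.exp_add]
    apply Real.exp_le_exp.2
    have h1 := hl.dist_le_mul v 0
    rw [Real.dist_eq, dist_zero_right, Real.coe_toNNReal _ (Real.sqrt_nonneg _)] at h1
    simp only [WithLp.ofLp_zero] at h1
    have h2 : |F v.ofLp| ≤ |F 0| + Real.sqrt L * ‖v‖ := by
      have : F v.ofLp = F 0 + (F v.ofLp - F 0) := by ring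
      rw [this]
      exact (abs_add_le _ _).trans (by linarith)
    calc lam * F v.ofLp ≤ |lam * F v.ofLp| := le_abs_self _
      _ = |lam| * |F v.ofLp| := abs_mul _ _
      _ ≤ |lam| * (|F 0| + Real.sqrt L * ‖v‖) := by gcongr
      _ = _ := by ring

lemma integrable_lip {L : ℝ} (hL : 0 ≤ L) {F : (ι → ℝ) → ℝ} (hF : LipOn L F Set.univ) :
    Integrable F (gam ι) := by
  have h1 := integrable_exp_lip hL hF 1
  have h2 := integrable_exp_lip hL hF (-1)
  refine (h1.add h2).mono' (hF.continuous hL).aestronglyMeasurable ?_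
  refine Filter.Eventually.of_forall fun g => ?_
  simp only [Pi.add_apply, one_mul, neg_mul]
  rw [Real.norm_eq_abs, abs_le]
  have e1 := Real.add_one_le_exp (F g)
  have e2 := Real.add_one_le_exp (-F g)
  have e3 := Real.exp_pos (F g)
  have e4 := Real.exp_pos (-F g)
  constructor <;> linarith

/-- Maurey-Pisier on the product space. -/
theorem gauss_conc {L : ℝ} (hL : 0 ≤ L) {F : (ι → ℝ) → ℝ} (hF : LipOn L F Set.univ) (lam : ℝ) :
    (∫ g, Real.exp (lam * F g) ∂(gam ι)) * (∫ g, Real.exp (-lam * F g) ∂(gam ι)) ≤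
      Real.exp (5 / 4 * lam ^ 2 * L) := by
  have h := gauss_conc_V (lip_toV hL hF) lam
  have hc : Continuous (fun v : EuclideanSpace ℝ ι => F v.ofLp) := (lip_toV hL hF).continuous
  have e1 : ∀ c : ℝ, ∫ v, Real.exp (c * F v.ofLp) ∂(stdGaussian (EuclideanSpace ℝ ι)) =
      ∫ g, Real.exp (c * F g) ∂(gam ι) := by
    intro c
    rw [← map_gam_ofLp, integral_map (by fun_prop)]
    have := hF.continuous hL
    fun_prop
  have e2 : ∫ p, Real.exp (lam * (F p.2.ofLp - F p.1.ofLp))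
      ∂((stdGaussian (EuclideanSpace ℝ ι)).prod (stdGaussian (EuclideanSpace ℝ ι))) =
      (∫ v, Real.exp (-lam * F v.ofLp) ∂(stdGaussian (EuclideanSpace ℝ ι))) *
      ∫ v, Real.exp (lam * F v.ofLp) ∂(stdGaussian (EuclideanSpace ℝ ι)) := by
    rw [← integral_prod_mul]
    refine integral_congr_ae (Filter.Eventually.of_forall fun p => ?_)
    simp only
    rw [← Real.exp_add]
    congr 1
    ring
  rw [e2, e1, e1] at h
  rw [mul_comm]
  refine h.trans (Real.exp_le_exp.2 ?_)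
  rw [Real.coe_toNNReal _ (Real.sqrt_nonneg _), Real.sq_sqrt hL]
  have hpi : Real.pi ^ 2 ≤ 10 := by
    have := Real.pi_lt_d2
    have := Real.pi_pos
    nlinarith
  have : 0 ≤ lam ^ 2 * L := by positivity
  nlinarith

lemma exp_neg_mean_le {L : ℝ} (hL : 0 ≤ L) {F : (ι → ℝ) → ℝ} (hF : LipOn L F Set.univ)
    (c : ℝ) : Real.exp (c * ∫ g, F g ∂(gam ι)) ≤ ∫ g, Real.exp (c * F g) ∂(gam ι) := by
  set m := ∫ g, F g ∂(gam ι) with hm
  have hint := integrable_lip hL hF
  have h1 : ∀ g, Real.exp (c * m) * (1 + c * (F g - m)) ≤ Real.exp (c * F g) := by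
    intro g
    have e : Real.exp (c * F g) = Real.exp (c * m) * Real.exp (c * (F g - m)) := by
      rw [← Real.exp_add]; congr 1; ring
    rw [e]
    have := Real.add_one_le_exp (c * (F g - m))
    have h0 := Real.exp_pos (c * m)
    gcongr
    linarith
  have h2 : ∫ g, Real.exp (c * m) * (1 + c * (F g - m)) ∂(gam ι) = Real.exp (c * m) := by
    have i1 : Integrable (fun g => c * (F g - m)) (gam ι) :=
      (hint.sub (integrable_const m)).const_mul c
    rw [integral_const_mul, integral_add (integrable_const _) i1, integral_const_mul,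
      integral_sub hint (integrable_const _), ← hm]
    simp
  rw [← h2]
  refine integral_mono ?_ (integrable_exp_lip hL hF c) h1
  have i1 : Integrable (fun g => c * (F g - m)) (gam ι) :=
    (hint.sub (integrable_const m)).const_mul c
  exact ((integrable_const (1 : ℝ)).add i1).const_mul _

/-- Exponential moments around the mean. -/
theorem mgf_le {L : ℝ} (hL : 0 ≤ L) {F : (ι → ℝ) → ℝ} (hF : LipOn L F Set.univ) (lam : ℝ) :
    ∫ g, Real.exp (lam * (F g - ∫ g', F g' ∂(gam ι))) ∂(gam ι) ≤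
      Real.exp (5 / 4 * lam ^ 2 * L) := by
  set m := ∫ g', F g' ∂(gam ι) with hm
  have h1 := gauss_conc hL hF lam
  have h2 := exp_neg_mean_le hL hF (-lam)
  rw [← hm] at h2
  have h3 : ∫ g, Real.exp (lam * (F g - m)) ∂(gam ι) =
      (∫ g, Real.exp (lam * F g) ∂(gam ι)) * Real.exp (-lam * m) := by
    rw [← integral_mul_const]
    refine integral_congr_ae (Filter.Eventually.of_forall fun g => ?_)
    simp only
    rw [← Real.exp_add]
    congr 1
    ring
  rw [h3]
  refine le_trans ?_ h1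
  have h0 : 0 ≤ ∫ g, Real.exp (lam * F g) ∂(gam ι) :=
    integral_nonneg fun g => (Real.exp_pos _).le
  gcongr

/-- Gaussian concentration. -/
theorem tail {L : ℝ} (hL : 0 < L) {F : (ι → ℝ) → ℝ} (hF : LipOn L F Set.univ) {u : ℝ}
    (hu : 0 ≤ u) :
    (gam ι).real {g | u ≤ F g - ∫ g', F g' ∂(gam ι)} ≤ Real.exp (-u ^ 2 / (5 * L)) := by
  set m := ∫ g', F g' ∂(gam ι) with hm
  set lam := 2 * u / (5 * L) with hlam
  have hlam0 : 0 ≤ lam := by positivity
  have hint : Integrable (fun g => Real.exp (lam * (F g - m))) (gam ι) := by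
    have h := (integrable_exp_lip hL.le hF lam).mul_const (Real.exp (-lam * m))
    refine h.congr (Filter.Eventually.of_forall fun g => ?_)
    simp only
    rw [← Real.exp_add]
    congr 1
    ring
  have h1 := measure_ge_le_exp_mul_mgf (μ := gam ι) (X := fun g => F g - m) u hlam0 hint
  have h2 : mgf (fun g => F g - m) (gam ι) lam ≤ Real.exp (5 / 4 * lam ^ 2 * L) :=
    mgf_le hL.le hF lam
  refine h1.trans ?_
  calc Real.exp (-lam * u) * mgf (fun g => F g - m) (gam ι) lam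
      ≤ Real.exp (-lam * u) * Real.exp (5 / 4 * lam ^ 2 * L) := by gcongr
    _ = Real.exp (-u ^ 2 / (5 * L)) := by
        rw [← Real.exp_add]
        congr 1
        rw [hlam]
        field_simp
        ring

/-- Reflection invariance. -/
lemma map_neg_gam : (gam ι).map (fun g => -g) = gam ι := by
  unfold gam
  symm
  apply Measure.pi_eq
  intro s hs
  rw [Measure.map_apply (by fun_prop) (MeasurableSet.univ_pi hs)]
  have hset : (fun g : ι → ℝ => -g) ⁻¹' (Set.univ.pi s) =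
      Set.univ.pi (fun i => (fun x : ℝ => -x) ⁻¹' (s i)) := by
    ext g
    simp
  rw [hset, Measure.pi_pi]
  refine Finset.prod_congr rfl fun i _ => ?_
  have h := gaussianReal_map_neg (μ := 0) (v := 1)
  rw [neg_zero] at h
  conv_rhs => rw [← h]
  rw [Measure.map_apply (by fun_prop) (hs i)]

lemma integral_neg_gam {F : (ι → ℝ) → ℝ} (hF : Continuous F) :
    ∫ g, F (-g) ∂(gam ι) = ∫ g, F g ∂(gam ι) := by
  conv_rhs => rw [← map_neg_gam]
  rw [integral_map (by fun_prop) hF.aestronglyMeasurable]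

lemma integral_odd {F : (ι → ℝ) → ℝ} (hF : Continuous F) (hodd : ∀ g, F (-g) = - F g) :
    ∫ g, F g ∂(gam ι) = 0 := by
  have h := integral_neg_gam hF
  simp_rw [hodd] at h
  rw [integral_neg] at h
  linarith

theorem tail_odd {L : ℝ} (hL : 0 < L) {F : (ι → ℝ) → ℝ} (hF : LipOn L F Set.univ)
    (hodd : ∀ g, F (-g) = - F g) {u : ℝ} (hu : 0 ≤ u) :
    (gam ι).real {g | u ≤ F g} ≤ Real.exp (-u ^ 2 / (5 * L)) := by
  have h := tail hL hF hu
  rw [integral_odd (hF.continuous hL.le) hodd] at h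
  simpa using h

theorem tail_odd_abs {L : ℝ} (hL : 0 < L) {F : (ι → ℝ) → ℝ} (hF : LipOn L F Set.univ)
    (hodd : ∀ g, F (-g) = - F g) {u : ℝ} (hu : 0 ≤ u) :
    (gam ι).real {g | u ≤ |F g|} ≤ 2 * Real.exp (-u ^ 2 / (5 * L)) := by
  have h1 := tail_odd hL hF hodd hu
  have h2 := tail_odd hL hF.neg (fun g => by simp [hodd]) hu
  have hsub : {g : ι → ℝ | u ≤ |F g|} ⊆ {g | u ≤ F g} ∪ {g | u ≤ - F g} := by
    intro g hg
    simp only [Set.mem_ofPred_eq] at hg
    rcases le_abs.1 hg with h | h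
    · exact Or.inl h
    · exact Or.inr h
  have h3 := (measureReal_mono hsub (μ := gam ι)).trans (measureReal_union_le _ _)
  linarith

/-- McShane extension, keeping oddness. -/
lemma exists_odd_extension {L : ℝ} (hL : 0 ≤ L) {F : (ι → ℝ) → ℝ} {S : Set (ι → ℝ)}
    (hF : LipOn L F S) (hodd : ∀ g, F (-g) = - F g) (hS : ∀ g ∈ S, -g ∈ S) :
    ∃ G : (ι → ℝ) → ℝ, LipOn L G Set.univ ∧ (∀ g, G (-g) = - G g) ∧ ∀ g ∈ S, G g = F g := by
  have h1 : LipschitzOnWith (Real.toNNReal (Real.sqrt L))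
      (fun v : EuclideanSpace ℝ ι => F v.ofLp) {v | v.ofLp ∈ S} := by
    refine LipschitzOnWith.of_dist_le_mul fun v hv w hw => ?_
    rw [Real.coe_toNNReal _ (Real.sqrt_nonneg _), Real.dist_eq, EuclideanSpace.dist_eq,
      ← Real.sqrt_mul hL]
    apply Real.abs_le_sqrt
    refine (hF _ hv _ hw).trans (le_of_eq ?_)
    congr 1
    refine Finset.sum_congr rfl fun i _ => ?_
    rw [Real.dist_eq, sq_abs]
  obtain ⟨G, hG, hGe⟩ := h1.extend_real
  have hG' : ∀ g g' : ι → ℝ, |G (WithLp.toLp 2 g) - G (WithLp.toLp 2 g')| ≤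
      Real.sqrt L * Real.sqrt (∑ i, (g i - g' i) ^ 2) := by
    intro g g'
    have := hG.dist_le_mul (WithLp.toLp 2 g) (WithLp.toLp 2 g')
    rw [Real.coe_toNNReal _ (Real.sqrt_nonneg _), Real.dist_eq, EuclideanSpace.dist_eq] at this
    refine this.trans (le_of_eq ?_)
    congr 2
    refine Finset.sum_congr rfl fun i _ => ?_
    rw [Real.dist_eq, sq_abs]
  refine ⟨fun g => (G (WithLp.toLp 2 g) - G (WithLp.toLp 2 (-g))) / 2, ?_, ?_, ?_⟩
  · intro g _ g' _
    have a1 := hG' g g'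
    have a2 := hG' (-g) (-g')
    have e : ∑ i, ((-g) i - (-g') i) ^ 2 = ∑ i, (g i - g' i) ^ 2 := by
      refine Finset.sum_congr rfl fun i _ => ?_
      simp only [Pi.neg_apply]
      ring
    rw [e] at a2
    have a3 : |(G (WithLp.toLp 2 g) - G (WithLp.toLp 2 (-g))) / 2 -
        (G (WithLp.toLp 2 g') - G (WithLp.toLp 2 (-g'))) / 2| ≤
        Real.sqrt L * Real.sqrt (∑ i, (g i - g' i) ^ 2) := by
      rw [abs_le] at *
      constructor <;> linarith [a1.1, a1.2, a2.1, a2.2]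
    have hs : 0 ≤ ∑ i, (g i - g' i) ^ 2 := Finset.sum_nonneg fun i _ => sq_nonneg _
    have a4 := pow_le_pow_left₀ (abs_nonneg _) a3 2
    rw [sq_abs, mul_pow, Real.sq_sqrt hL, Real.sq_sqrt hs] at a4
    exact a4
  · intro g
    simp only [neg_neg]
    ring
  · intro g hg
    have e1 : G (WithLp.toLp 2 g) = F g := by
      have := hGe (x := WithLp.toLp 2 g) (by simpa using hg)
      simpa using this.symm
    have e2 : G (WithLp.toLp 2 (-g)) = F (-g) := by
      have := hGe (x := WithLp.toLp 2 (-g)) (by simpa using hS g hg)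
      simpa using this.symm
    simp only [e1, e2, hodd]
    ring

/-- Concentration for an odd function that is Lipschitz on a symmetric set. -/
theorem tail_odd_on {L : ℝ} (hL : 0 < L) {F : (ι → ℝ) → ℝ} {S : Set (ι → ℝ)}
    (hF : LipOn L F S) (hodd : ∀ g, F (-g) = - F g) (hS : ∀ g ∈ S, -g ∈ S) {u : ℝ}
    (hu : 0 ≤ u) :
    (gam ι).real {g | g ∈ S ∧ u ≤ F g} ≤ Real.exp (-u ^ 2 / (5 * L)) := by
  obtain ⟨G, hG, hGodd, hGe⟩ := exists_odd_extension hL.le hF hodd hS
  refine (measureReal_mono ?_).trans (tail_odd hL hG hGodd hu)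
  rintro g ⟨hg, hgu⟩
  simp only [Set.mem_ofPred_eq]
  rw [hGe g hg]
  exact hgu

theorem tail_odd_on_abs {L : ℝ} (hL : 0 < L) {F : (ι → ℝ) → ℝ} {S : Set (ι → ℝ)}
    (hF : LipOn L F S) (hodd : ∀ g, F (-g) = - F g) (hS : ∀ g ∈ S, -g ∈ S) {u : ℝ}
    (hu : 0 ≤ u) :
    (gam ι).real {g | g ∈ S ∧ u ≤ |F g|} ≤ 2 * Real.exp (-u ^ 2 / (5 * L)) := by
  obtain ⟨G, hG, hGodd, hGe⟩ := exists_odd_extension hL.le hF hodd hS
  refine (measureReal_mono ?_).trans (tail_odd_abs hL hG hGodd hu)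
  rintro g ⟨hg, hgu⟩
  simp only [Set.mem_ofPred_eq]
  rw [hGe g hg]
  exact hgu

end Pool.Agent.Helper62.Disc
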