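import Mathlib

/-!
# Gaussian concentration for Lipschitz functions on a Euclidean space (Maurey-Pisier)
-/

open MeasureTheory ProbabilityTheory Module Filter
open scoped RealInnerProductSpace ENNReal Topology NNReal

namespace Pool.Agent.Helper62.Disc

section density

variable {V : Type*} [NormedAddCommGroup V] [InnerProductSpace ℝ V] [FiniteDimensional ℝ V]
  [MeasurableSpace V] [BorelSpace V]

/-- Gaussian density -/
noncomputable def gden (x : V) : ℝ :=
  (2 * Real.pi) ^ (-(finrank ℝ V : ℝ) / 2) * Real.exp (-‖x‖ ^ 2 / 2)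

omit [FiniteDimensional ℝ V] [MeasurableSpace V] [BorelSpace V] in
lemma gden_pos (x : V) : 0 < gden x := by
  unfold gden
  have := Real.pi_pos
  positivity

omit [FiniteDimensional ℝ V] in
lemma measurable_gden : Measurable (gden : V → ℝ) := by
  unfold gden
  fun_prop

lemma integrable_gden : Integrable (gden : V → ℝ) := by
  unfold gden
  apply Integrable.const_mul
  have h := GaussianFourier.integrable_cexp_neg_mul_sq_norm_add (V := V) (b := 1 / 2) (by norm_num) 0 0
  have h2 := h.re
  refine h2.congr (Filter.Eventually.of_forall fun x => ?_)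
  simp only [zero_mul, add_zero]
  have : Complex.exp (-(1 / 2) * (‖x‖ : ℂ) ^ 2) = ((Real.exp (-‖x‖ ^ 2 / 2) : ℝ) : ℂ) := by
    rw [Complex.ofReal_exp]
    congr 1
    push_cast
    ring
  rw [this, RCLike.re_to_complex, Complex.ofReal_re]

lemma charFun_gden (t : V) :
    charFun ((volume : Measure V).withDensity (fun x => ENNReal.ofReal (gden x))) t
      = Complex.exp (-‖t‖ ^ 2 / 2) := by
  rw [charFun_apply, integral_withDensity_eq_integral_toReal_smul
    (measurable_gden.ennreal_ofReal) (Filter.Eventually.of_forall fun _ => ENNReal.ofReal_lt_top)]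
  have h1 : ∀ x : V, (ENNReal.ofReal (gden x)).toReal • Complex.exp ((⟪x, t⟫ : ℝ) * Complex.I)
      = (((2 * Real.pi) ^ (-(finrank ℝ V : ℝ) / 2) : ℝ) : ℂ) *
        Complex.exp (-(1 / 2) * (‖x‖ : ℂ) ^ 2 + Complex.I * (⟪t, x⟫ : ℝ)) := by
    intro x
    rw [ENNReal.toReal_ofReal (gden_pos x).le, gden, Complex.real_smul, Complex.exp_add]
    push_cast
    rw [real_inner_comm]
    have : (-(‖x‖ : ℂ) ^ 2 / 2) = -(1 / 2) * (‖x‖ : ℂ) ^ 2 := by ring
    rw [this, mul_comm Complex.I]
    ring
  simp_rw [h1]
  rw [integral_const_mul, GaussianFourier.integral_cexp_neg_mul_sq_norm_add (by norm_num)]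
  have h2 : ((Real.pi : ℂ) / (1 / 2)) ^ ((finrank ℝ V : ℂ) / 2)
      = (((2 * Real.pi) ^ ((finrank ℝ V : ℝ) / 2) : ℝ) : ℂ) := by
    rw [Complex.ofReal_cpow (by positivity)]
    push_cast
    congr 1
    ring
  rw [h2, ← mul_assoc, ← Complex.ofReal_mul, ← Real.rpow_add (by positivity)]
  have h3 : -(finrank ℝ V : ℝ) / 2 + (finrank ℝ V : ℝ) / 2 = 0 := by ring
  rw [h3, Real.rpow_zero]
  simp only [Complex.ofReal_one, one_mul, Complex.I_sq]
  congr 1
  ring

lemma stdGaussian_eq_withDensity :
    stdGaussian V = (volume : Measure V).withDensity (fun x => ENNReal.ofReal (gden x)) := by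
  have : IsFiniteMeasure ((volume : Measure V).withDensity (fun x => ENNReal.ofReal (gden x))) :=
    isFiniteMeasure_withDensity_ofReal integrable_gden.2
  apply Measure.ext_of_charFun
  ext t
  rw [charFun_gden, charFun_stdGaussian]

lemma stdGaussian_ac : stdGaussian V ≪ (volume : Measure V) := by
  rw [stdGaussian_eq_withDensity]
  exact withDensity_absolutelyContinuous _ _

/-- exponential moment of a continuous linear functional -/
lemma integral_exp_dual (l : StrongDual ℝ V) :
    ∫ y, Real.exp (l y) ∂(stdGaussian V) = Real.exp (‖l‖ ^ 2 / 2) := by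
  have h1 : (stdGaussian V).map l = gaussianReal 0 (‖l‖ ^ 2).toNNReal := by
    have := IsGaussian.map_eq_gaussianReal (μ := stdGaussian V) l
    rw [variance_dual_stdGaussian, integral_strongDual_stdGaussian] at this
    exact this
  have h2 := mgf_gaussianReal h1 1
  rw [mgf] at h2
  simp only [one_mul, zero_mul, zero_add] at h2
  rw [h2]
  congr 1
  rw [Real.coe_toNNReal _ (by positivity)]
  ring

lemma integrable_exp_norm (c : ℝ) :
    Integrable (fun x : V => Real.exp (c * ‖x‖)) (stdGaussian V) := by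
  obtain ⟨C, hC, hint⟩ := IsGaussian.exists_integrable_exp_sq (stdGaussian V)
  refine (hint.const_mul (Real.exp (c ^ 2 / (4 * C)))).mono' (by fun_prop) ?_
  refine Filter.Eventually.of_forall fun x => ?_
  rw [Real.norm_eq_abs, abs_of_pos (Real.exp_pos _), ← Real.exp_add]
  apply Real.exp_le_exp.2
  have h : c ^ 2 / (4 * C) + C * ‖x‖ ^ 2 - c * ‖x‖ = (c - 2 * C * ‖x‖) ^ 2 / (4 * C) := by
    field_simp
    ring
  have h2 : 0 ≤ (c - 2 * C * ‖x‖) ^ 2 / (4 * C) := by positivity
  linarith

/-- the dominating function -/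
lemma integrable_dom (c : ℝ) :
    Integrable (fun p : V × V => Real.exp (c * (‖p.1‖ + ‖p.2‖)))
      ((stdGaussian V).prod (stdGaussian V)) := by
  have h := (integrable_exp_norm (V := V) c).mul_prod (integrable_exp_norm (V := V) c)
  refine h.congr (Filter.Eventually.of_forall fun p => ?_)
  simp only
  rw [← Real.exp_add]
  congr 1
  ring

/-- The increment of `F` over one rotation step, scaled. -/
noncomputable def stp (F : V → ℝ) (K : ℕ) (p : V × V) : ℝ :=
  (K : ℝ) * (F (Real.cos (Real.pi / (2 * K)) • p.1 + Real.sin (Real.pi / (2 * K)) • p.2) - F p.1)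

omit [FiniteDimensional ℝ V] [MeasurableSpace V] [BorelSpace V] in
lemma stp_bound {F : V → ℝ} {L : ℝ≥0} (hF : LipschitzWith L F) {K : ℕ} (hK : 1 ≤ K)
    (p : V × V) : |stp F K p| ≤ (L : ℝ) * (Real.pi / 2) * (‖p.1‖ + ‖p.2‖) := by
  unfold stp
  have hK' : (1 : ℝ) ≤ K := by exact_mod_cast hK
  set h := Real.pi / (2 * K) with hh
  have hh0 : 0 ≤ h := by have := Real.pi_pos; positivity
  have hKh : (K : ℝ) * h = Real.pi / 2 := by rw [hh]; field_simp
  rw [abs_mul, abs_of_nonneg (by positivity : (0 : ℝ) ≤ K)]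
  have h1 : |F (Real.cos h • p.1 + Real.sin h • p.2) - F p.1| ≤
      L * ‖(Real.cos h - 1) • p.1 + Real.sin h • p.2‖ := by
    have := hF.dist_le_mul (Real.cos h • p.1 + Real.sin h • p.2) p.1
    rw [Real.dist_eq, dist_eq_norm] at this
    have e : Real.cos h • p.1 + Real.sin h • p.2 - p.1 = (Real.cos h - 1) • p.1 + Real.sin h • p.2 := by
      rw [sub_smul, one_smul]; abel
    rwa [e] at this
  have h2 : ‖(Real.cos h - 1) • p.1 + Real.sin h • p.2‖ ≤ h * (‖p.1‖ + ‖p.2‖) := by
    refine (norm_add_le _ _).trans ?_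
    rw [norm_smul, norm_smul, Real.norm_eq_abs, Real.norm_eq_abs]
    have c1 : |Real.cos h - 1| ≤ h := by
      have h5 : h ≤ 2 := by
        rw [hh, div_le_iff₀ (by positivity)]
        nlinarith [Real.pi_lt_four]
      have h6 := Real.one_sub_sq_div_two_le_cos (x := h)
      have h7 := Real.cos_le_one h
      rw [abs_le]
      constructor <;> nlinarith
    have c2 : |Real.sin h| ≤ h := by
      rw [abs_le]
      constructor
      · have := Real.sin_nonneg_of_nonneg_of_le_pi hh0 (by
          rw [hh, div_le_iff₀ (by positivity)]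
          nlinarith [Real.pi_pos])
        linarith
      · exact Real.sin_le hh0
    have n1 := norm_nonneg p.1
    have n2 := norm_nonneg p.2
    nlinarith [mul_le_mul_of_nonneg_right c1 n1, mul_le_mul_of_nonneg_right c2 n2]
  calc (K : ℝ) * |F (Real.cos h • p.1 + Real.sin h • p.2) - F p.1|
      ≤ K * (L * (h * (‖p.1‖ + ‖p.2‖))) := by gcongr; exact h1.trans (by gcongr)
    _ = L * (K * h) * (‖p.1‖ + ‖p.2‖) := by ring
    _ = _ := by rw [hKh]

omit [FiniteDimensional ℝ V] [MeasurableSpace V] [BorelSpace V] in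
lemma continuous_stp {F : V → ℝ} {L : ℝ≥0} (hF : LipschitzWith L F) (K : ℕ) :
    Continuous (stp F K) := by
  unfold stp
  have := hF.continuous
  fun_prop

lemma integrable_exp_stp {F : V → ℝ} {L : ℝ≥0} (hF : LipschitzWith L F) {K : ℕ} (hK : 1 ≤ K)
    (lam : ℝ) : Integrable (fun p => Real.exp (lam * stp F K p))
      ((stdGaussian V).prod (stdGaussian V)) := by
  refine (integrable_dom (V := V) (|lam| * (L * (Real.pi / 2)))).mono' ?_ ?_
  · have := continuous_stp hF K
    fun_prop
  · refine Filter.Eventually.of_forall fun p => ?_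
    rw [Real.norm_eq_abs, abs_of_pos (Real.exp_pos _)]
    apply Real.exp_le_exp.2
    calc lam * stp F K p ≤ |lam * stp F K p| := le_abs_self _
      _ = |lam| * |stp F K p| := abs_mul _ _
      _ ≤ |lam| * ((L : ℝ) * (Real.pi / 2) * (‖p.1‖ + ‖p.2‖)) := by
          gcongr; exact stp_bound hF hK p
      _ = _ := by ring

/-- One step bound: the exponential moment of `F y - F x` is at most that of one scaled step. -/
lemma exp_diff_le_step {F : V → ℝ} {L : ℝ≥0} (hF : LipschitzWith L F) {K : ℕ} (hK : 1 ≤ K)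
    (lam : ℝ) :
    ∫ p, Real.exp (lam * (F p.2 - F p.1)) ∂((stdGaussian V).prod (stdGaussian V)) ≤
      ∫ p, Real.exp (lam * stp F K p) ∂((stdGaussian V).prod (stdGaussian V)) := by
  set h := Real.pi / (2 * K) with hh
  have hK' : (1 : ℝ) ≤ K := by exact_mod_cast hK
  have hKh : (K : ℝ) * h = Real.pi / 2 := by rw [hh]; field_simp
  set μ2 := (stdGaussian V).prod (stdGaussian V) with hμ2
  have hrot : ∀ θ : ℝ, μ2.map (ContinuousLinearMap.rotation θ) = μ2 := by
    intro θ
    exact IsGaussian.map_rotation_eq_self (by simp) θ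
  have hpt : ∀ p : V × V, Real.exp (lam * (F p.2 - F p.1)) ≤
      ∑ k ∈ Finset.range K, (1 / (K : ℝ)) *
        Real.exp (lam * stp F K (ContinuousLinearMap.rotation (k * h) p)) := by
    intro p
    have htel : lam * (F p.2 - F p.1) = ∑ k ∈ Finset.range K, (1 / (K : ℝ)) *
        (lam * stp F K (ContinuousLinearMap.rotation (k * h) p)) := by
      have h1 : ∀ k : ℕ, (1 / (K : ℝ)) * (lam * stp F K (ContinuousLinearMap.rotation (k * h) p))
          = lam * (F ((ContinuousLinearMap.rotation (((k + 1 : ℕ) : ℝ) * h) p).1) -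
            F ((ContinuousLinearMap.rotation ((k : ℝ) * h) p).1)) := by
        intro k
        unfold stp
        have h2 : Real.cos h • (ContinuousLinearMap.rotation ((k : ℝ) * h) p).1 +
            Real.sin h • (ContinuousLinearMap.rotation ((k : ℝ) * h) p).2 =
            (ContinuousLinearMap.rotation (((k + 1 : ℕ) : ℝ) * h) p).1 := by
          simp only [ContinuousLinearMap.rotation_apply]
          have e : ((k + 1 : ℕ) : ℝ) * h = k * h + h := by push_cast; ring
          rw [e, Real.cos_add, Real.sin_add]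
          module
        rw [← hh, h2]
        field_simp
      rw [Finset.sum_congr rfl fun k _ => h1 k, ← Finset.mul_sum,
        Finset.sum_range_sub (fun k : ℕ => F ((ContinuousLinearMap.rotation ((k : ℝ) * h) p).1))]
      congr 2
      · rw [hKh]
        simp [ContinuousLinearMap.rotation_apply]
      · simp [ContinuousLinearMap.rotation_apply]
    rw [htel]
    refine convexOn_exp.map_sum_le (fun k _ => by positivity) ?_ (fun k _ => Set.mem_univ _)
    rw [Finset.sum_const, Finset.card_range, nsmul_eq_mul]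
    field_simp
  have hint : ∀ k : ℕ, Integrable (fun p : V × V => Real.exp (lam *
      stp F K (ContinuousLinearMap.rotation ((k : ℝ) * h) p))) μ2 := by
    intro k
    have h1 := integrable_exp_stp hF hK lam
    rw [← hμ2, ← hrot (k * h)] at h1
    exact h1.comp_measurable (ContinuousLinearMap.measurable _)
  have hval : ∀ k : ℕ, ∫ p, Real.exp (lam *
      stp F K (ContinuousLinearMap.rotation ((k : ℝ) * h) p)) ∂μ2 =
      ∫ p, Real.exp (lam * stp F K p) ∂μ2 := by
    intro k
    have h1 := integral_map (μ := μ2) (φ := ContinuousLinearMap.rotation (k * h))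
      (f := fun p => Real.exp (lam * stp F K p))
      (ContinuousLinearMap.measurable _).aemeasurable
      (by have := continuous_stp hF K; fun_prop)
    rw [hrot] at h1
    exact h1.symm
  calc ∫ p, Real.exp (lam * (F p.2 - F p.1)) ∂μ2
      ≤ ∫ p, ∑ k ∈ Finset.range K, (1 / (K : ℝ)) *
        Real.exp (lam * stp F K (ContinuousLinearMap.rotation (k * h) p)) ∂μ2 := by
        apply integral_mono_of_nonneg
        · exact Filter.Eventually.of_forall fun p => (Real.exp_pos _).le
        · exact integrable_finsetSum _ fun k _ => (hint k).const_mul _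
        · exact Filter.Eventually.of_forall hpt
    _ = ∑ k ∈ Finset.range K, (1 / (K : ℝ)) * ∫ p, Real.exp (lam * stp F K p) ∂μ2 := by
        rw [integral_finsetSum _ fun k _ => (hint k).const_mul _]
        refine Finset.sum_congr rfl fun k _ => ?_
        rw [integral_const_mul, hval k]
    _ = _ := by
        rw [Finset.sum_const, Finset.card_range, nsmul_eq_mul]
        field_simp

/-- **Maurey-Pisier**: exponential moments of the difference of a Lipschitz function at two
independent Gaussian points. -/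
theorem gauss_conc_V {F : V → ℝ} {L : ℝ≥0} (hF : LipschitzWith L F) (lam : ℝ) :
    ∫ p, Real.exp (lam * (F p.2 - F p.1)) ∂((stdGaussian V).prod (stdGaussian V)) ≤
      Real.exp (Real.pi ^ 2 * lam ^ 2 * (L : ℝ) ^ 2 / 8) := by
  set μ2 := (stdGaussian V).prod (stdGaussian V) with hμ2
  -- the limit function
  let G : V × V → ℝ := fun p => Real.exp (lam * (fderiv ℝ F p.1 ((Real.pi / 2) • p.2)))
  have hdiff : ∀ᵐ p ∂μ2, DifferentiableAt ℝ F p.1 := by
    have h1 : ∀ᵐ x ∂(stdGaussian V), DifferentiableAt ℝ F x :=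
      stdGaussian_ac.ae_le hF.ae_differentiableAt
    exact (Measure.quasiMeasurePreserving_fst (μ := stdGaussian V) (ν := stdGaussian V)).ae h1
  have htend : ∀ᵐ p ∂μ2, Tendsto (fun K : ℕ => Real.exp (lam * stp F (K + 1) p)) atTop
      (𝓝 (G p)) := by
    filter_upwards [hdiff] with p hp
    have hd := hp.hasFDerivAt.hasFDerivWithinAt (s := Set.univ)
    have hx : Tendsto (fun K : ℕ => Real.pi / (2 * ((K + 1 : ℕ) : ℝ))) atTop (𝓝 0) := by
      have h1 : Tendsto (fun K : ℕ => (Real.pi / 2) * (1 / ((K : ℝ) + 1))) atTop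
          (𝓝 ((Real.pi / 2) * 0)) :=
        (tendsto_one_div_add_atTop_nhds_zero_nat (𝕜 := ℝ)).const_mul _
      rw [mul_zero] at h1
      refine h1.congr fun K => ?_
      push_cast
      field_simp
    have hcos : Tendsto (fun K : ℕ => ((K + 1 : ℕ) : ℝ) *
        (Real.cos (Real.pi / (2 * ((K + 1 : ℕ) : ℝ))) - 1)) atTop (𝓝 0) := by
      rw [tendsto_zero_iff_abs_tendsto_zero]
      have h2 : Tendsto (fun K : ℕ => (Real.pi / 2) *
          ((Real.pi / (2 * ((K + 1 : ℕ) : ℝ))) / 2)) atTop (𝓝 0) := by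
        have := (hx.div_const 2).const_mul (Real.pi / 2)
        simpa using this
      refine squeeze_zero (fun K => abs_nonneg _) (fun K => ?_) h2
      simp only [Function.comp_apply]
      have hK : (0 : ℝ) < ((K + 1 : ℕ) : ℝ) := by positivity
      set h := Real.pi / (2 * ((K + 1 : ℕ) : ℝ)) with hh
      have hKh : ((K + 1 : ℕ) : ℝ) * h = Real.pi / 2 := by rw [hh]; field_simp
      have h6 := Real.one_sub_sq_div_two_le_cos (x := h)
      have h7 := Real.cos_le_one h
      rw [abs_mul, abs_of_pos hK, abs_of_nonpos (by linarith)]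
      calc ((K + 1 : ℕ) : ℝ) * -(Real.cos h - 1) ≤ ((K + 1 : ℕ) : ℝ) * (h ^ 2 / 2) := by
            gcongr; linarith
        _ = (((K + 1 : ℕ) : ℝ) * h) * (h / 2) := by ring
        _ = _ := by rw [hKh]
    have hsin : Tendsto (fun K : ℕ => ((K + 1 : ℕ) : ℝ) *
        (Real.sin (Real.pi / (2 * ((K + 1 : ℕ) : ℝ))))) atTop (𝓝 (Real.pi / 2)) := by
      have hs : HasDerivAt Real.sin 1 0 := by
        have := Real.hasDerivAt_sin 0
        rwa [Real.cos_zero] at this
      have h1 := hs.hasFDerivAt.hasFDerivWithinAt (s := Set.univ)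
      have h2 := h1.lim (l := atTop) (c := fun K : ℕ => ((K + 1 : ℕ) : ℝ))
        (d := fun K : ℕ => Real.pi / (2 * ((K + 1 : ℕ) : ℝ))) (v := Real.pi / 2) hx
        (by simp) (by
          refine tendsto_const_nhds.congr fun K => ?_
          rw [smul_eq_mul]
          have hK : (0 : ℝ) < ((K + 1 : ℕ) : ℝ) := by positivity
          field_simp)
      simpa using h2
    have hlim := hd.lim (l := atTop) (c := fun K : ℕ => ((K + 1 : ℕ) : ℝ))
      (d := fun K : ℕ => (Real.cos (Real.pi / (2 * ((K + 1 : ℕ) : ℝ))) - 1) • p.1 +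
        Real.sin (Real.pi / (2 * ((K + 1 : ℕ) : ℝ))) • p.2) (v := (Real.pi / 2) • p.2)
      (by
        have c1 : Tendsto (fun K : ℕ => Real.cos (Real.pi / (2 * ((K + 1 : ℕ) : ℝ))) - 1) atTop
            (𝓝 0) := by
          have := (Real.continuous_cos.tendsto 0).comp hx
          rw [Real.cos_zero] at this
          have := this.sub_const 1
          simpa using this
        have c2 : Tendsto (fun K : ℕ => Real.sin (Real.pi / (2 * ((K + 1 : ℕ) : ℝ)))) atTop
            (𝓝 0) := by
          have := (Real.continuous_sin.tendsto 0).comp hx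
          rwa [Real.sin_zero] at this
        have := (c1.smul_const p.1).add (c2.smul_const p.2)
        simpa using this)
      (by simp)
      (by
        have := (hcos.smul_const p.1).add (hsin.smul_const p.2)
        rw [zero_smul, zero_add] at this
        refine this.congr fun K => ?_
        rw [smul_add, smul_smul, smul_smul])
    have hstp : ∀ K : ℕ, stp F (K + 1) p = ((K + 1 : ℕ) : ℝ) •
        (F (p.1 + ((Real.cos (Real.pi / (2 * ((K + 1 : ℕ) : ℝ))) - 1) • p.1 +
        Real.sin (Real.pi / (2 * ((K + 1 : ℕ) : ℝ))) • p.2)) - F p.1) := by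
      intro K
      unfold stp
      rw [smul_eq_mul]
      congr 3
      module
    have h3 : Tendsto (fun K : ℕ => lam * stp F (K + 1) p) atTop
        (𝓝 (lam * (fderiv ℝ F p.1 ((Real.pi / 2) • p.2)))) := by
      simp_rw [hstp]
      exact hlim.const_mul lam
    exact (Real.continuous_exp.tendsto _).comp h3
  have hdom := integrable_dom (V := V) (|lam| * (L * (Real.pi / 2)))
  have hb : ∀ K : ℕ, ∀ᵐ p ∂μ2, ‖Real.exp (lam * stp F (K + 1) p)‖ ≤
      Real.exp (|lam| * (L * (Real.pi / 2)) * (‖p.1‖ + ‖p.2‖)) := by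
    intro K
    refine Filter.Eventually.of_forall fun p => ?_
    rw [Real.norm_eq_abs, abs_of_pos (Real.exp_pos _)]
    apply Real.exp_le_exp.2
    calc lam * stp F (K + 1) p ≤ |lam * stp F (K + 1) p| := le_abs_self _
      _ = |lam| * |stp F (K + 1) p| := abs_mul _ _
      _ ≤ |lam| * ((L : ℝ) * (Real.pi / 2) * (‖p.1‖ + ‖p.2‖)) := by
          gcongr; exact stp_bound hF (by omega) p
      _ = _ := by ring
  have hmeas : ∀ K : ℕ, AEStronglyMeasurable (fun p => Real.exp (lam * stp F (K + 1) p)) μ2 := by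
    intro K
    have := continuous_stp hF (K + 1)
    fun_prop
  have hGm : AEStronglyMeasurable G μ2 := aestronglyMeasurable_of_tendsto_ae atTop hmeas htend
  have hlimint := tendsto_integral_of_dominated_convergence _ hmeas hdom hb htend
  have hle : ∫ p, Real.exp (lam * (F p.2 - F p.1)) ∂μ2 ≤ ∫ p, G p ∂μ2 :=
    ge_of_tendsto' hlimint fun K => exp_diff_le_step hF (by omega) lam
  have hGint : Integrable G μ2 := by
    refine hdom.mono' hGm ?_
    have hall : ∀ᵐ p ∂μ2, ∀ K : ℕ, ‖Real.exp (lam * stp F (K + 1) p)‖ ≤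
      Real.exp (|lam| * (L * (Real.pi / 2)) * (‖p.1‖ + ‖p.2‖)) := ae_all_iff.2 hb
    filter_upwards [htend, hall] with p h1 h2
    exact le_of_tendsto' h1.norm h2
  refine hle.trans ?_
  rw [hμ2, integral_prod _ hGint]
  have hinner : ∀ x : V, ∫ y, G (x, y) ∂(stdGaussian V) ≤
      Real.exp (Real.pi ^ 2 * lam ^ 2 * (L : ℝ) ^ 2 / 8) := by
    intro x
    have h1 : ∀ y, G (x, y) = Real.exp (((lam * (Real.pi / 2)) • fderiv ℝ F x) y) := by
      intro y
      simp only [G]
      congr 1
      rw [map_smul, smul_apply, smul_eq_mul, smul_eq_mul]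
      ring
    simp_rw [h1]
    rw [integral_exp_dual]
    apply Real.exp_le_exp.2
    rw [norm_smul, Real.norm_eq_abs, mul_pow, sq_abs]
    have h2 : ‖fderiv ℝ F x‖ ≤ L := norm_fderiv_le_of_lipschitz ℝ hF
    have h3 : ‖fderiv ℝ F x‖ ^ 2 ≤ (L : ℝ) ^ 2 := by gcongr
    have h4 : 0 ≤ (lam * (Real.pi / 2)) ^ 2 := sq_nonneg _
    have := mul_le_mul_of_nonneg_left h3 h4
    nlinarith
  calc ∫ x, ∫ y, G (x, y) ∂(stdGaussian V) ∂(stdGaussian V)
      ≤ ∫ _x : V, Real.exp (Real.pi ^ 2 * lam ^ 2 * (L : ℝ) ^ 2 / 8) ∂(stdGaussian V) := by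
        apply integral_mono_of_nonneg
        · exact Filter.Eventually.of_forall fun x =>
            integral_nonneg fun y => (Real.exp_pos _).le
        · exact integrable_const _
        · exact Filter.Eventually.of_forall hinner
    _ = _ := by simp

end density

end Pool.Agent.Helper62.Disc
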