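import Pool.Agent.Helper62.Disc.Mom

/-!
# The drift at an element is small with high probability, and the proximal point is not small
-/

open Finset MeasureTheory ProbabilityTheory

namespace Pool.Agent.Helper62.Disc

lemma gaussian_small : (gaussianReal 0 1).real {x : ℝ | |x| < 3 / 8} ≤ 3 / 10 := by
  have hm : MeasurableSet {x : ℝ | |x| < 3 / 8} := measurableSet_lt (by fun_prop) (by fun_prop)
  have h1 : gaussianReal 0 1 {x : ℝ | |x| < 3 / 8} ≤ ENNReal.ofReal (3 / 10) := by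
    rw [gaussianReal_apply 0 (by norm_num) _]
    have hpdf : ∀ x, gaussianPDF 0 1 x ≤ ENNReal.ofReal (2 / 5) := by
      intro x
      unfold gaussianPDF
      apply ENNReal.ofReal_le_ofReal
      unfold gaussianPDFReal
      have h2 : (5 : ℝ) / 2 ≤ Real.sqrt (2 * Real.pi * ((1 : NNReal) : ℝ)) := by
        apply Real.le_sqrt_of_sq_le
        have := Real.pi_gt_d2
        push_cast
        linarith
      have h3 : (Real.sqrt (2 * Real.pi * ((1 : NNReal) : ℝ)))⁻¹ ≤ 2 / 5 := by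
        have := inv_anti₀ (by norm_num) h2
        refine this.trans (by norm_num)
      have h4 : Real.exp (-(x - 0) ^ 2 / (2 * ((1 : NNReal) : ℝ))) ≤ 1 := by
        apply Real.exp_le_one_iff.2
        apply div_nonpos_of_nonpos_of_nonneg
        · nlinarith [sq_nonneg (x - 0)]
        · positivity
      calc (Real.sqrt (2 * Real.pi * ((1 : NNReal) : ℝ)))⁻¹ *
            Real.exp (-(x - 0) ^ 2 / (2 * ((1 : NNReal) : ℝ))) ≤ (2 / 5) * 1 := by
            gcongr
        _ = _ := by norm_num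
    calc ∫⁻ x in {x : ℝ | |x| < 3 / 8}, gaussianPDF 0 1 x
        ≤ ∫⁻ _x in {x : ℝ | |x| < 3 / 8}, ENNReal.ofReal (2 / 5) := by
          apply lintegral_mono
          intro x
          exact hpdf x
      _ = ENNReal.ofReal (2 / 5) * volume {x : ℝ | |x| < 3 / 8} := by
          rw [setLIntegral_const]
      _ = ENNReal.ofReal (2 / 5) * ENNReal.ofReal (3 / 4) := by
          have : {x : ℝ | |x| < 3 / 8} = Set.Ioo (-(3 / 8)) (3 / 8) := by
            ext x
            simp [abs_lt]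
          rw [this, Real.volume_Ioo]
          norm_num
      _ = ENNReal.ofReal (3 / 10) := by
          rw [← ENNReal.ofReal_mul (by norm_num)]
          norm_num
  rw [measureReal_def]
  calc (gaussianReal 0 1 {x : ℝ | |x| < 3 / 8}).toReal ≤ (ENNReal.ofReal (3 / 10)).toReal :=
        ENNReal.toReal_mono ENNReal.ofReal_ne_top h1
    _ = 3 / 10 := ENNReal.toReal_ofReal (by norm_num)

lemma gam_small {ι : Type*} [Fintype ι] (i : ι) :
    (gam ι).real {g | |g i| < 3 / 8} ≤ 3 / 10 := by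
  have hm : MeasurableSet {x : ℝ | |x| < 3 / 8} := measurableSet_lt (by fun_prop) (by fun_prop)
  have h := measurePreserving_eval (fun _ : ι => gaussianReal 0 1) i
  have h2 := h.measureReal_preimage hm.nullMeasurableSet
  have h3 : (gam ι).real {g | |g i| < 3 / 8} = (gaussianReal 0 1).real {x : ℝ | |x| < 3 / 8} := h2
  rw [h3]
  exact gaussian_small

namespace Sys

variable {ι κ : Type*} [Fintype ι] [DecidableEq ι] [Fintype κ] [DecidableEq κ] (S : Sys ι κ)

/-- coefficients of `Y i` -/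
noncomputable def cY (i : ι) (j : κ) : ℝ := if i ∈ S.A j then 1 / S.B else 0

/-- the energy at an element -/
noncomputable def hh (i : ι) (g : ι → ℝ) : ℝ := ∑ j, S.cY i j ^ 2 * S.kap (S.yy g) j

lemma Y_eq (y : ι → ℝ) (i : ι) : S.Y y i = ∑ j, S.cY i j * S.p.Phi (S.xi y j) := by
  unfold Y cY
  rw [Finset.sum_div]
  refine Finset.sum_congr rfl fun j _ => ?_
  split_ifs
  · ring
  · simp

lemma Y_lip_on (i : ι) {δ : ℝ} :
    LipOn (δ / 2) (fun g => S.Y (S.yy g) i) {g | S.hh i g ≤ δ} := by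
  intro g hg g' hg'
  have h := S.lin_Phi_lip (S.cY i) g g'
  have e : S.Y (S.yy g) i - S.Y (S.yy g') i =
      ∑ j, S.cY i j * (S.p.Phi (S.xi (S.yy g) j) - S.p.Phi (S.xi (S.yy g') j)) := by
    rw [Y_eq, Y_eq, ← Finset.sum_sub_distrib]
    exact Finset.sum_congr rfl fun j _ => by ring
  simp only
  rw [e]
  refine h.trans ?_
  have h1 : S.hh i g ≤ δ := hg
  have h2 : S.hh i g' ≤ δ := hg'
  unfold hh at h1 h2
  have h3 : 0 ≤ 1 / 4 * ∑ k, (g k - g' k) ^ 2 :=
    mul_nonneg (by norm_num) (Finset.sum_nonneg fun k _ => sq_nonneg _)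
  calc _ ≤ (δ + δ) * (1 / 4 * ∑ k, (g k - g' k) ^ 2) := by gcongr
    _ = _ := by ring

lemma hh_neg (i : ι) (g : ι → ℝ) : S.hh i (-g) = S.hh i g := by
  unfold hh
  exact Finset.sum_congr rfl fun j _ => by rw [kap_neg]

lemma continuous_hh (i : ι) : Continuous (S.hh i) := by
  unfold hh
  refine continuous_finsetSum _ fun j _ => ?_
  exact (S.continuous_kap j).const_mul _

lemma hh_nonneg (i : ι) (g : ι → ℝ) : 0 ≤ S.hh i g :=
  Finset.sum_nonneg fun j _ => mul_nonneg (sq_nonneg _) (S.kap_nonneg _ j)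

variable {M t : ℝ} (hM : 0 < M) (hn : ∀ j, S.n j ≤ M)
  (hdeg : ∀ i, ((Finset.univ.filter fun j => i ∈ S.A j).card : ℝ) ≤ t)

include hM hn

lemma kap_int (j : κ) : Integrable (fun g => S.kap (S.yy g) j) (gam ι) ∧
    ∫ g, S.kap (S.yy g) j ∂(gam ι) ≤ S.p.k1 * e3 S.B M + S.p.k0 := by
  obtain ⟨i3, h3⟩ := S.G_third hM hn j
  unfold kap
  refine ⟨(i3.const_mul _).add (integrable_const _), ?_⟩
  rw [integral_add (i3.const_mul _) (integrable_const _), integral_const_mul]
  have := S.p.k1_nonneg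
  simp only [integral_const, probReal_univ, smul_eq_mul, one_mul]
  gcongr

include hdeg

lemma hh_int (i : ι) : Integrable (S.hh i) (gam ι) ∧
    ∫ g, S.hh i g ∂(gam ι) ≤ t * (S.p.k1 * e3 S.B M + S.p.k0) / S.B ^ 2 := by
  have hi : ∀ j ∈ (Finset.univ : Finset κ),
      Integrable (fun g => S.cY i j ^ 2 * S.kap (S.yy g) j) (gam ι) :=
    fun j _ => (S.kap_int hM hn j).1.const_mul _
  refine ⟨integrable_finsetSum _ hi, ?_⟩
  unfold hh
  rw [integral_finsetSum _ hi]
  have hK : 0 ≤ S.p.k1 * e3 S.B M + S.p.k0 := by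
    have := S.p.k1_nonneg
    have := S.p.k0_nonneg
    unfold e3
    positivity
  have h1 : ∀ j ∈ (Finset.univ : Finset κ), ∫ g, S.cY i j ^ 2 * S.kap (S.yy g) j ∂(gam ι) ≤
      if i ∈ S.A j then (S.p.k1 * e3 S.B M + S.p.k0) / S.B ^ 2 else 0 := by
    intro j _
    rw [integral_const_mul]
    have h2 := (S.kap_int hM hn j).2
    unfold cY
    split_ifs
    · calc (1 / S.B) ^ 2 * ∫ g, S.kap (S.yy g) j ∂(gam ι)
          ≤ (1 / S.B) ^ 2 * (S.p.k1 * e3 S.B M + S.p.k0) := by gcongr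
        _ = _ := by ring
    · simp
  refine (Finset.sum_le_sum h1).trans ?_
  rw [← Finset.sum_filter, Finset.sum_const, nsmul_eq_mul]
  have hB := S.B_pos
  calc _ ≤ t * ((S.p.k1 * e3 S.B M + S.p.k0) / S.B ^ 2) := by
        have := hdeg i
        gcongr
    _ = _ := by ring

/-- the drift is small -/
lemma Y_tail (hpar : t * (S.p.k1 * e3 S.B M + S.p.k0) / S.B ^ 2 ≤ 1 / 160000) (i : ι) :
    (gam ι).real {g | 1 / 8 ≤ |S.Y (S.yy g) i|} ≤ 1 / 50 := by
  obtain ⟨hi, hb⟩ := S.hh_int hM hn hdeg i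
  have h1 : (1 / 1600) * (gam ι).real {g | 1 / 1600 ≤ S.hh i g} ≤ ∫ g, S.hh i g ∂(gam ι) :=
    mul_meas_ge_le_integral_of_nonneg (Filter.Eventually.of_forall fun g => S.hh_nonneg i g) hi _
  have h2 : (gam ι).real {g | 1 / 1600 ≤ S.hh i g} ≤ 1 / 100 := by
    have := h1.trans (hb.trans hpar)
    linarith
  have h3 := tail_odd_on_abs (L := (1 / 1600) / 2) (by norm_num) (S.Y_lip_on i (δ := 1 / 1600))
    (fun g => S.Y_yy_neg g i) (fun g hg => by
      simp only [Set.mem_ofPred_eq] at hg ⊢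
      rwa [hh_neg]) (u := 1 / 8) (by norm_num)
  have h4 : (2 : ℝ) * Real.exp (-(1 / 8) ^ 2 / (5 * ((1 / 1600) / 2))) ≤ 1 / 100 := by
    have e : (-(1 / 8) ^ 2 / (5 * ((1 / 1600) / 2)) : ℝ) = -10 := by norm_num
    rw [e, Real.exp_neg]
    have h5 : (200 : ℝ) ≤ Real.exp 10 := by
      have h6 := Real.pow_div_factorial_le_exp (10 : ℝ) (by norm_num) 4
      refine le_trans ?_ h6
      norm_num [Nat.factorial]
    have : (Real.exp 10)⁻¹ ≤ 200⁻¹ := inv_anti₀ (by norm_num) h5
    linarith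
  have hsub : {g : ι → ℝ | 1 / 8 ≤ |S.Y (S.yy g) i|} ⊆ {g | 1 / 1600 ≤ S.hh i g} ∪
      {g | g ∈ {g | S.hh i g ≤ 1 / 1600} ∧ 1 / 8 ≤ |S.Y (S.yy g) i|} := by
    intro g hg
    by_cases hc : S.hh i g ≤ 1 / 1600
    · exact Or.inr ⟨hc, hg⟩
    · exact Or.inl (le_of_lt (not_le.1 hc))
  have h7 := (measureReal_mono hsub (μ := gam ι)).trans (measureReal_union_le _ _)
  linarith

omit hM hn hdeg in
lemma y_large {g y : ι → ℝ} (h : S.IsOpt g y) (i : ι) {c : ℝ} (hc : 0 ≤ c) (hc1 : c ≤ 1)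
    (hg : c ≤ |g i - S.Y y i|) : c ≤ |y i| := by
  have hb := abs_le.1 (h.1 i)
  rcases le_abs.1 hg with h1 | h1
  · -- g - Y ≥ c
    rcases eq_or_lt_of_le hb.2 with h2 | h2
    · rw [h2]; simpa using hc1
    · have h3 := h.2 i 1 (by simp)
      have h4 : 0 ≤ y i - g i + S.Y y i := nonneg_of_mul_nonneg_right h3 (by linarith)
      exact le_trans (by linarith) (le_abs_self _)
  · rcases eq_or_lt_of_le hb.1 with h2 | h2
    · rw [← h2]; simpa using hc1
    · have h3 := h.2 i (-1) (by simp)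
      have h4 : y i - g i + S.Y y i ≤ 0 := by
        by_contra hcon
        push Not at hcon
        have : (-1 - y i) * (y i - g i + S.Y y i) < 0 := mul_neg_of_neg_of_pos (by linarith) hcon
        linarith
      exact le_trans (by linarith) (neg_le_abs _)

/-- The proximal point has second moment bounded below. -/
lemma y_second (hpar : t * (S.p.k1 * e3 S.B M + S.p.k0) / S.B ^ 2 ≤ 1 / 160000) (i : ι) :
    1 / 32 ≤ ∫ g, S.yy g i ^ 2 ∂(gam ι) := by
  have hyc : Continuous (fun g => S.yy g i) := (continuous_apply i).comp S.yy_continuous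
  have h1 := S.Y_tail hM hn hdeg hpar i
  have h2 := gam_small i
  have hsub : (Set.univ : Set (ι → ℝ)) ⊆ {g | 1 / 16 ≤ S.yy g i ^ 2} ∪
      ({g | 1 / 8 ≤ |S.Y (S.yy g) i|} ∪ {g | |g i| < 3 / 8}) := by
    intro g _
    by_cases c1 : |g i| < 3 / 8
    · exact Or.inr (Or.inr c1)
    by_cases c2 : 1 / 8 ≤ |S.Y (S.yy g) i|
    · exact Or.inr (Or.inl c2)
    · left
      push Not at c1 c2
      have h3 : (1 : ℝ) / 4 ≤ |g i - S.Y (S.yy g) i| := by
        have := abs_sub_abs_le_abs_sub (g i) (S.Y (S.yy g) i)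
        linarith
      have h4 := S.y_large (S.yy_opt g) i (by norm_num) (by norm_num) h3
      simp only [Set.mem_ofPred_eq]
      rw [← sq_abs]
      calc (1 : ℝ) / 16 = (1 / 4) ^ 2 := by norm_num
        _ ≤ _ := by gcongr
  have h3 := (measureReal_mono hsub (μ := gam ι)).trans
    ((measureReal_union_le _ _).trans (add_le_add_right (measureReal_union_le _ _) _))
  rw [probReal_univ] at h3
  have h4 : 1 / 2 ≤ (gam ι).real {g | 1 / 16 ≤ S.yy g i ^ 2} := by linarith
  have hint : Integrable (fun g => S.yy g i ^ 2) (gam ι) := by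
    refine (integrable_const (1 : ℝ)).mono' (hyc.pow 2).aestronglyMeasurable ?_
    refine Filter.Eventually.of_forall fun g => ?_
    rw [Real.norm_eq_abs, abs_of_nonneg (sq_nonneg _), ← sq_abs]
    exact pow_le_one₀ (abs_nonneg _) (S.yy_abs_le g i)
  have h5 : (1 / 16) * (gam ι).real {g | 1 / 16 ≤ S.yy g i ^ 2} ≤ ∫ g, S.yy g i ^ 2 ∂(gam ι) :=
    mul_meas_ge_le_integral_of_nonneg (Filter.Eventually.of_forall fun g => sq_nonneg _) hint _
  linarith

end Sys

end Pool.Agent.Helper62.Disc
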