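import Pool.Agent.Helper62.Disc.LLL

/-!
# The final rounding
-/

open Finset MeasureTheory ProbabilityTheory
open scoped ENNReal

namespace Pool.Agent.Helper62.Disc

/-- two-point measure with mean `x` -/
noncomputable def tp (x : ℝ) : Measure ℝ :=
  ENNReal.ofReal ((1 + x) / 2) • Measure.dirac 1 + ENNReal.ofReal ((1 - x) / 2) • Measure.dirac (-1)

lemma tp_prob {x : ℝ} (hx : |x| ≤ 1) : IsProbabilityMeasure (tp x) := by
  have h := abs_le.1 hx
  constructor
  unfold tp
  simp only [Measure.coe_add, Measure.coe_smul, Pi.add_apply, Pi.smul_apply, measure_univ,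
    smul_eq_mul, mul_one]
  rw [← ENNReal.ofReal_add (by linarith) (by linarith)]
  rw [show (1 + x) / 2 + (1 - x) / 2 = 1 by ring]
  simp

/-- sign function -/
noncomputable def sgn (w : ℝ) : ℝ := if 0 < w then 1 else -1

lemma sgn_meas : Measurable sgn := by
  unfold sgn
  exact Measurable.ite measurableSet_Ioi measurable_const measurable_const

lemma sgn_abs (w : ℝ) : |sgn w| ≤ 1 := by unfold sgn; split_ifs <;> simp

lemma tp_int {x : ℝ} (hx : |x| ≤ 1) (f : ℝ → ℝ) (hf : StronglyMeasurable f) :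
    ∫ w, f w ∂(tp x) = (1 + x) / 2 * f 1 + (1 - x) / 2 * f (-1) := by
  have h := abs_le.1 hx
  unfold tp
  have i1 : Integrable f (ENNReal.ofReal ((1 + x) / 2) • Measure.dirac (1 : ℝ)) :=
    (integrable_dirac' hf enorm_lt_top).smul_measure ENNReal.ofReal_ne_top
  have i2 : Integrable f (ENNReal.ofReal ((1 - x) / 2) • Measure.dirac (-1 : ℝ)) :=
    (integrable_dirac' hf enorm_lt_top).smul_measure ENNReal.ofReal_ne_top
  rw [integral_add_measure i1 i2, integral_smul_measure, integral_smul_measure,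
    integral_dirac' _ _ hf, integral_dirac' _ _ hf, ENNReal.toReal_ofReal (by linarith),
    ENNReal.toReal_ofReal (by linarith)]
  simp

lemma tp_mgf {x lam : ℝ} (hx : |x| ≤ 1) (hl : |lam| ≤ 1 / 2) :
    ∫ w, Real.exp (lam * (sgn w - x)) ∂(tp x) ≤ Real.exp (lam ^ 2 * (1 - x ^ 2)) := by
  have h := abs_le.1 hx
  have hm : Measurable (fun w => Real.exp (lam * (sgn w - x))) := by
    have := sgn_meas
    fun_prop
  rw [tp_int hx _ hm.stronglyMeasurable]
  have e1 : sgn 1 = 1 := by simp [sgn]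
  have e2 : sgn (-1) = -1 := by unfold sgn; norm_num
  rw [e1, e2]
  have b1 : |lam * (1 - x)| ≤ 1 := by
    rw [abs_mul]
    calc |lam| * |1 - x| ≤ 1 / 2 * 2 := by
          gcongr
          rw [abs_le]; constructor <;> linarith
      _ = 1 := by norm_num
  have b2 : |lam * (-1 - x)| ≤ 1 := by
    rw [abs_mul]
    calc |lam| * |-1 - x| ≤ 1 / 2 * 2 := by
          gcongr
          rw [abs_le]; constructor <;> linarith
      _ = 1 := by norm_num
  have c1 := (abs_le.1 (Real.abs_exp_sub_one_sub_id_le b1)).2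
  have c2 := (abs_le.1 (Real.abs_exp_sub_one_sub_id_le b2)).2
  have d1 : (1 + x) / 2 * Real.exp (lam * (1 - x)) ≤
      (1 + x) / 2 * (1 + lam * (1 - x) + (lam * (1 - x)) ^ 2) := by
    apply mul_le_mul_of_nonneg_left _ (by linarith)
    linarith
  have d2 : (1 - x) / 2 * Real.exp (lam * (-1 - x)) ≤
      (1 - x) / 2 * (1 + lam * (-1 - x) + (lam * (-1 - x)) ^ 2) := by
    apply mul_le_mul_of_nonneg_left _ (by linarith)
    linarith
  have d3 := Real.add_one_le_exp (lam ^ 2 * (1 - x ^ 2))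
  have e : (1 + x) / 2 * (1 + lam * (1 - x) + (lam * (1 - x)) ^ 2) +
      (1 - x) / 2 * (1 + lam * (-1 - x) + (lam * (-1 - x)) ^ 2) = 1 + lam ^ 2 * (1 - x ^ 2) := by
    ring
  linarith

section

variable {ι κ : Type*} [Fintype ι] [DecidableEq ι] [Fintype κ] [DecidableEq κ]

lemma round_chernoff {x : ι → ℝ} (hx : ∀ i, |x i| ≤ 1) (T : Finset ι) {M lam R : ℝ}
    (hM : ∑ i ∈ T, (1 - x i ^ 2) ≤ M) (hl : |lam| ≤ 1 / 2) :
    haveI : ∀ i, IsProbabilityMeasure (tp (x i)) := fun i => tp_prob (hx i)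
    (Measure.pi fun i => tp (x i)).real {w | R ≤ lam * ∑ i ∈ T, (sgn (w i) - x i)} ≤
      Real.exp (-R + lam ^ 2 * M) := by
  have : ∀ i, IsProbabilityMeasure (tp (x i)) := fun i => tp_prob (hx i)
  set μ := Measure.pi fun i => tp (x i) with hμ
  set X : (ι → ℝ) → ℝ := fun w => lam * ∑ i ∈ T, (sgn (w i) - x i) with hX
  have hXm : Measurable X := by
    have := sgn_meas
    simp only [hX]
    fun_prop
  have hXb : ∀ w, |X w| ≤ |lam| * (2 * T.card) := by
    intro w
    simp only [hX]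
    rw [abs_mul]
    refine mul_le_mul_of_nonneg_left ?_ (abs_nonneg _)
    refine (Finset.abs_sum_le_sum_abs _ _).trans ?_
    calc ∑ i ∈ T, |sgn (w i) - x i| ≤ ∑ _i ∈ T, (2 : ℝ) := by
          refine Finset.sum_le_sum fun i _ => ?_
          refine (abs_sub _ _).trans ?_
          linarith [sgn_abs (w i), hx i]
      _ = 2 * T.card := by rw [Finset.sum_const, nsmul_eq_mul]; ring
  have hint : Integrable (fun w => Real.exp (1 * X w)) μ := by
    refine (integrable_const (Real.exp (|lam| * (2 * T.card)))).mono' (by fun_prop) ?_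
    refine Filter.Eventually.of_forall fun w => ?_
    rw [Real.norm_eq_abs, abs_of_pos (Real.exp_pos _), one_mul]
    exact Real.exp_le_exp.2 ((le_abs_self _).trans (hXb w))
  have h1 := measure_ge_le_exp_mul_mgf (μ := μ) (X := X) R zero_le_one hint
  refine h1.trans ?_
  rw [Real.exp_add, neg_one_mul]
  refine mul_le_mul_of_nonneg_left ?_ (Real.exp_pos _).le
  rw [mgf]
  have h2 : ∀ w : ι → ℝ, Real.exp (1 * X w) =
      ∏ i, (if i ∈ T then Real.exp (lam * (sgn (w i) - x i)) else 1) := by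
    intro w
    rw [Finset.prod_ite_mem, Finset.univ_inter, ← Real.exp_sum, one_mul]
    simp only [hX]
    rw [Finset.mul_sum]
  simp_rw [h2]
  rw [integral_fintype_prod_eq_prod
    (f := fun i w => if i ∈ T then Real.exp (lam * (sgn w - x i)) else 1)]
  have h3 : ∀ i ∈ (Finset.univ : Finset ι),
      ∫ w, (if i ∈ T then Real.exp (lam * (sgn w - x i)) else 1) ∂(tp (x i)) ≤
        if i ∈ T then Real.exp (lam ^ 2 * (1 - x i ^ 2)) else 1 := by
    intro i _
    split_ifs
    · exact tp_mgf (hx i) hl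
    · simp
  refine (Finset.prod_le_prod (fun i _ => ?_) h3).trans ?_
  · apply integral_nonneg
    intro w
    simp only
    split_ifs
    · exact (Real.exp_pos _).le
    · exact zero_le_one
  · rw [Finset.prod_ite_mem, Finset.univ_inter, ← Real.exp_sum, ← Finset.mul_sum]
    apply Real.exp_le_exp.2
    gcongr

variable (A : κ → Finset ι)

theorem round {x : ι → ℝ} (hx : ∀ i, |x i| ≤ 1) {t : ℕ} (ht : 1 ≤ t)
    (hcard : ∀ j, (A j).card ≤ t)
    (hdeg : ∀ i, (Finset.univ.filter fun j => i ∈ A j).card ≤ t) {M lam R : ℝ}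
    (hM : ∀ j, ∑ i ∈ A j, (1 - x i ^ 2) ≤ M) (hl0 : 0 ≤ lam) (hl : lam ≤ 1 / 2)
    (hL : 4 * (2 * Real.exp (-(lam * R) + lam ^ 2 * M)) * (t : ℝ) ^ 2 ≤ 1) :
    ∃ σ : ι → ℝ, (∀ i, σ i = 1 ∨ σ i = -1) ∧ ∀ j, |∑ i ∈ A j, (σ i - x i)| ≤ R := by
  have : ∀ i, IsProbabilityMeasure (tp (x i)) := fun i => tp_prob (hx i)
  have ht1 : (1 : ℝ) ≤ t := by exact_mod_cast ht
  let E : κ → Set (ι → ℝ) := fun j => {w | R < |∑ i ∈ A j, (sgn (w i) - x i)|}
  have hmeas : ∀ j, MeasurableSet (E j) := by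
    intro j
    have hm : Measurable (fun w : ι → ℝ => |∑ i ∈ A j, (sgn (w i) - x i)|) := by
      have := sgn_meas
      have h2 : Measurable (fun w : ι → ℝ => ∑ i ∈ A j, (sgn (w i) - x i)) := by fun_prop
      exact h2.abs
    exact measurableSet_lt measurable_const hm
  have hlabs : |lam| ≤ 1 / 2 := by rwa [abs_of_nonneg hl0]
  have hprob : ∀ j, (Measure.pi fun i => tp (x i)).real (E j) ≤
      2 * Real.exp (-(lam * R) + lam ^ 2 * M) := by
    intro j
    have h1 := round_chernoff hx (A j) (R := lam * R) (hM j) hlabs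
    have h2 := round_chernoff hx (A j) (lam := -lam) (R := lam * R) (hM j) (by rwa [abs_neg])
    have hsub : E j ⊆ {w | lam * R ≤ lam * ∑ i ∈ A j, (sgn (w i) - x i)} ∪
        {w | lam * R ≤ -lam * ∑ i ∈ A j, (sgn (w i) - x i)} := by
      intro w hw
      have hw' : R < |∑ i ∈ A j, (sgn (w i) - x i)| := hw
      rcases lt_abs.1 hw' with h | h
      · left
        exact mul_le_mul_of_nonneg_left h.le hl0
      · right
        simp only [Set.mem_ofPred_eq]
        have := mul_le_mul_of_nonneg_left h.le hl0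
        linarith
    have h3 := (measureReal_mono hsub (μ := Measure.pi fun i => tp (x i))).trans
      (measureReal_union_le _ _)
    rw [neg_sq] at h2
    linarith
  have hdep : ∀ j, ∀ g g' : ι → ℝ, (∀ i ∈ A j, g i = g' i) → (g ∈ E j ↔ g' ∈ E j) := by
    intro j g g' hgg
    have : ∑ i ∈ A j, (sgn (g i) - x i) = ∑ i ∈ A j, (sgn (g' i) - x i) :=
      Finset.sum_congr rfl fun i hi => by rw [hgg i hi]
    simp only [E, Set.mem_ofPred_eq, this]
  have hcount : ∀ j, (Finset.univ.filter (fun k => ¬ Disjoint (A k) (A j))).card ≤ t ^ 2 := by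
    intro j
    have hsub : (Finset.univ.filter (fun k => ¬ Disjoint (A k) (A j))) ⊆
        (A j).biUnion fun i => Finset.univ.filter fun k => i ∈ A k := by
      intro k hk
      simp only [Finset.mem_filter, Finset.mem_univ, true_and] at hk
      rw [Finset.not_disjoint_iff] at hk
      obtain ⟨i, h1, h2⟩ := hk
      simp only [Finset.mem_biUnion, Finset.mem_filter, Finset.mem_univ, true_and]
      exact ⟨i, h2, h1⟩
    calc _ ≤ _ := Finset.card_le_card hsub
      _ ≤ (A j).card * t := Finset.card_biUnion_le_card_mul _ _ _ fun i _ => hdeg i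
      _ ≤ t * t := Nat.mul_le_mul_right _ (hcard j)
      _ = t ^ 2 := by ring
  obtain ⟨w, hw⟩ := local_lemma_pi (fun i => tp (x i)) E hmeas A hdep
    (2 * Real.exp (-(lam * R) + lam ^ 2 * M)) ((t : ℝ) ^ 2) hprob (by positivity)
    (one_le_pow₀ ht1) (by intro j; exact_mod_cast hcount j) hL
  refine ⟨fun i => sgn (w i), fun i => ?_, fun j => not_lt.1 (hw j)⟩
  simp only [sgn]
  split_ifs
  · exact Or.inl rfl
  · exact Or.inr rfl

end

end Pool.Agent.Helper62.Disc
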