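import Pool.Agent.Helper62.Disc.Param
import Pool.Agent.Helper62.Disc.Round

/-!
# Iterating the stage and rounding
-/

open Finset MeasureTheory ProbabilityTheory

namespace Pool.Agent.Helper62.Disc

/-- contraction factor of the mass -/
noncomputable def lamc : ℝ := 1 - 1 / 4096

/-- contraction factor of the errors -/
noncomputable def muc : ℝ := Real.sqrt (Real.sqrt lamc)

lemma lamc_pos : 0 < lamc := by unfold lamc; norm_num
lemma lamc_lt : lamc < 1 := by unfold lamc; norm_num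

lemma muc_nonneg : 0 ≤ muc := Real.sqrt_nonneg _

lemma muc_lt : muc < 1 := by
  unfold muc
  rw [Real.sqrt_lt' zero_lt_one, one_pow, Real.sqrt_lt' zero_lt_one, one_pow]
  exact lamc_lt

lemma muc_pow (t : ℝ) (ht : 0 ≤ t) (k : ℕ) :
    Real.sqrt (Real.sqrt (t * (t * lamc ^ k))) = Real.sqrt t * muc ^ k := by
  have h0 := lamc_pos.le
  have e : t * (t * lamc ^ k) = (Real.sqrt t * muc ^ k) ^ 4 := by
    have h1 : muc ^ 4 = lamc := by
      unfold muc
      calc Real.sqrt (Real.sqrt lamc) ^ 4 = (Real.sqrt (Real.sqrt lamc) ^ 2) ^ 2 := by ring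
        _ = lamc := by rw [Real.sq_sqrt (Real.sqrt_nonneg _), Real.sq_sqrt h0]
    have h2 : Real.sqrt t ^ 4 = t ^ 2 := by
      calc Real.sqrt t ^ 4 = (Real.sqrt t ^ 2) ^ 2 := by ring
        _ = _ := by rw [Real.sq_sqrt ht]
    rw [mul_pow, h2, ← pow_mul, mul_comm k 4, pow_mul, h1]
    ring
  have hnn : 0 ≤ Real.sqrt t * muc ^ k :=
    mul_nonneg (Real.sqrt_nonneg _) (pow_nonneg muc_nonneg _)
  have e2 : (Real.sqrt t * muc ^ k) ^ 4 = ((Real.sqrt t * muc ^ k) ^ 2) ^ 2 := by ring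
  rw [e, e2, Real.sqrt_sq (by positivity), Real.sqrt_sq hnn]

section main

variable {ι κ : Type*} [Fintype ι] [DecidableEq ι] [Fintype κ] [DecidableEq κ]
  (A : κ → Finset ι)

theorem iter {t : ℕ} {s : ℝ} (hs : 10 ^ 16 ≤ s) (hst : s ^ 200 = t)
    (hcard : ∀ j, (A j).card ≤ t)
    (hdeg : ∀ i, (Finset.univ.filter fun j => i ∈ A j).card ≤ t)
    (hlin : ∀ j j', j ≠ j' → (A j ∩ A j').card ≤ 1) (k : ℕ) :
    ∃ x : ι → ℝ, (∀ i, |x i| < 1) ∧
      (∀ j, ∑ i ∈ A j, uf (x i) ≤ max (t * lamc ^ k) (s ^ 198)) ∧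
      (∀ j, |∑ i ∈ A j, x i| ≤ 10 ^ 4 * Real.sqrt t * ∑ l ∈ Finset.range k, muc ^ l) := by
  have ht0 : (0 : ℝ) ≤ t := Nat.cast_nonneg t
  induction k with
  | zero =>
    refine ⟨fun _ => 0, fun i => by simp, fun j => ?_, fun j => by simp⟩
    refine le_trans ?_ (le_max_left _ _)
    rw [pow_zero, mul_one]
    calc ∑ i ∈ A j, uf 0 ≤ ∑ _i ∈ A j, (1 : ℝ) := Finset.sum_le_sum fun i _ => uf_le_one _
      _ = ((A j).card : ℝ) := by simp
      _ ≤ t := by exact_mod_cast hcard j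
  | succ k ih =>
    obtain ⟨x, hx1, hx2, hx3⟩ := ih
    by_cases hcase : t * lamc ^ k ≤ s ^ 198
    · -- already small
      refine ⟨x, hx1, fun j => ?_, fun j => ?_⟩
      · refine (hx2 j).trans ?_
        rw [max_eq_right hcase]
        exact le_max_right _ _
      · refine (hx3 j).trans ?_
        rw [Finset.sum_range_succ]
        have h1 : 0 ≤ muc ^ k := pow_nonneg muc_nonneg _
        have h2 := Real.sqrt_nonneg (t : ℝ)
        gcongr
        linarith
    · push Not at hcase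
      have hM2 : t * lamc ^ k ≤ t := by
        have : lamc ^ k ≤ 1 := pow_le_one₀ lamc_pos.le lamc_lt.le
        nlinarith
      obtain ⟨x', h1, h2, h3⟩ := stage_concrete A hs hst hcase.le hM2 hcard hdeg hlin x hx1
        (fun j => by
          have := hx2 j
          rwa [max_eq_left hcase.le] at this)
      refine ⟨x', h1, fun j => ?_, fun j => ?_⟩
      · refine (h2 j).trans (le_trans (le_of_eq ?_) (le_max_left _ _))
        rw [pow_succ]
        unfold lamc
        ring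
      · have e : ∑ i ∈ A j, x' i = ∑ i ∈ A j, (x' i - x i) + ∑ i ∈ A j, x i := by
          rw [← Finset.sum_add_distrib]
          exact Finset.sum_congr rfl fun i _ => by ring
        rw [e, Finset.sum_range_succ]
        refine (abs_add_le _ _).trans ?_
        have h4 := h3 j
        rw [muc_pow _ ht0] at h4
        have h5 := hx3 j
        calc _ ≤ 10 ^ 4 * (Real.sqrt t * muc ^ k) +
              10 ^ 4 * Real.sqrt t * ∑ l ∈ Finset.range k, muc ^ l := add_le_add h4 h5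
          _ = _ := by ring

lemma final_num {s : ℝ} (hs : 10 ^ 16 ≤ s) :
    4 * (2 * Real.exp (-(1 / s ^ 99 * s ^ 100) + (1 / s ^ 99) ^ 2 * s ^ 198)) *
      (s ^ 200) ^ 2 ≤ 1 := by
  have hs1 : 1 ≤ s := le_trans (by norm_num) hs
  have hs0 : 0 < s := by linarith
  have e1 : -(1 / s ^ 99 * s ^ 100) + (1 / s ^ 99) ^ 2 * s ^ 198 = 1 + -s := by
    field_simp
    ring
  rw [e1, Real.exp_add]
  have h1 : Real.exp 1 ≤ 3 := Real.exp_one_lt_three.le
  -- exp(-s) ≤ 1/(24 s^400)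
  have h2 : 24 * s ^ 400 ≤ Real.exp s := by
    have h3 : s / 800 ≤ Real.exp (s / 800) := by linarith [Real.add_one_le_exp (s / 800)]
    have h4 : Real.exp s = Real.exp (s / 800) ^ 800 := by
      rw [← Real.exp_nat_mul]
      congr 1
      push_cast
      ring
    have h5 : 24 * s ≤ (s / 800) ^ 2 := by
      have : (10 : ℝ) ^ 16 ≤ s := hs
      have h6 : (24 * 640000 : ℝ) ≤ s := le_trans (by norm_num) this
      nlinarith
    calc 24 * s ^ 400 ≤ 24 ^ 400 * s ^ 400 := by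
          gcongr
          exact le_self_pow₀ (by norm_num) (by norm_num)
      _ = (24 * s) ^ 400 := by rw [mul_pow]
      _ ≤ ((s / 800) ^ 2) ^ 400 := by gcongr
      _ = (s / 800) ^ 800 := by rw [← pow_mul]
      _ ≤ Real.exp (s / 800) ^ 800 := by gcongr
      _ = Real.exp s := h4.symm
  rw [Real.exp_neg]
  have h7 := Real.exp_pos s
  have e2 : (s ^ 200) ^ 2 = s ^ 400 := by rw [← pow_mul]
  rw [e2]
  calc 4 * (2 * (Real.exp 1 * (Real.exp s)⁻¹)) * s ^ 400
      = (8 * Real.exp 1 * s ^ 400) / Real.exp s := by field_simp; ring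
    _ ≤ (24 * s ^ 400) / Real.exp s := by
        have : 8 * Real.exp 1 * s ^ 400 ≤ 24 * s ^ 400 := by
          gcongr
          linarith
        gcongr
    _ ≤ 1 := by
        rw [div_le_one h7]
        exact h2

theorem main_large {t : ℕ} {s : ℝ} (hs : 10 ^ 16 ≤ s) (hst : s ^ 200 = t)
    (hcard : ∀ j, (A j).card ≤ t)
    (hdeg : ∀ i, (Finset.univ.filter fun j => i ∈ A j).card ≤ t)
    (hlin : ∀ j j', j ≠ j' → (A j ∩ A j').card ≤ 1) :
    ∃ σ : ι → ℝ, (∀ i, σ i = 1 ∨ σ i = -1) ∧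
      ∀ j, |∑ i ∈ A j, σ i| ≤ (10 ^ 4 / (1 - muc) + 1) * Real.sqrt t := by
  have hs1 : 1 ≤ s := le_trans (by norm_num) hs
  have hs0 : 0 < s := by linarith
  have ht0 : (0 : ℝ) < t := by rw [← hst]; positivity
  -- choose the number of stages
  obtain ⟨k, hk⟩ : ∃ k : ℕ, (t : ℝ) * lamc ^ k ≤ s ^ 198 := by
    obtain ⟨k, hk⟩ := exists_pow_lt_of_lt_one (show (0 : ℝ) < s ^ 198 / t by positivity) lamc_lt
    refine ⟨k, ?_⟩
    rw [lt_div_iff₀ ht0] at hk
    linarith
  obtain ⟨x, hx1, hx2, hx3⟩ := iter A hs hst hcard hdeg hlin k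
  have hmass : ∀ j, ∑ i ∈ A j, (1 - x i ^ 2) ≤ s ^ 198 := by
    intro j
    have h1 := hx2 j
    rw [max_eq_right hk] at h1
    refine le_trans (Finset.sum_le_sum fun i _ => ?_) h1
    have h2 := (sq_lt_one_iff_abs_lt_one (x i)).2 (hx1 i)
    unfold uf
    apply Real.le_sqrt_of_sq_le
    have h3 := sq_nonneg (x i)
    nlinarith
  have ht1 : 1 ≤ t := by exact_mod_cast ht0
  have hR : Real.sqrt t = s ^ 100 := by
    rw [← hst]
    have : s ^ 200 = (s ^ 100) ^ 2 := by rw [← pow_mul]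
    rw [this, Real.sqrt_sq (by positivity)]
  have hl : 1 / s ^ 99 ≤ 1 / 2 := by
    apply one_div_le_one_div_of_le (by norm_num)
    have := cmp_pow hs (K := 2) (by norm_num) (a := 0) (b := 99) (by norm_num)
    simpa using this
  obtain ⟨σ, hσ1, hσ2⟩ := round A (fun i => (hx1 i).le) ht1 hcard hdeg hmass
    (lam := 1 / s ^ 99) (R := s ^ 100) (by positivity) hl (by
      rw [← hst]
      exact final_num hs)
  refine ⟨σ, hσ1, fun j => ?_⟩
  have e : ∑ i ∈ A j, σ i = ∑ i ∈ A j, (σ i - x i) + ∑ i ∈ A j, x i := by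
    rw [← Finset.sum_add_distrib]
    exact Finset.sum_congr rfl fun i _ => by ring
  rw [e]
  refine (abs_add_le _ _).trans ?_
  have h1 := hσ2 j
  rw [← hR] at h1
  have h2 := hx3 j
  have h3 : ∑ l ∈ Finset.range k, muc ^ l ≤ 1 / (1 - muc) := by
    have h4 : 0 < 1 - muc := by linarith [muc_lt]
    rw [le_div_iff₀ h4]
    have h5 : (∑ l ∈ Finset.range k, muc ^ l) * (1 - muc) = 1 - muc ^ k := by
      have := geom_sum_mul muc k
      linarith
    rw [h5]
    linarith [pow_nonneg muc_nonneg k]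
  calc _ ≤ Real.sqrt t + 10 ^ 4 * Real.sqrt t * ∑ l ∈ Finset.range k, muc ^ l := add_le_add h1 h2
    _ ≤ Real.sqrt t + 10 ^ 4 * Real.sqrt t * (1 / (1 - muc)) := by gcongr
    _ = _ := by ring

end main

/-- The main theorem, real-valued form. -/
theorem disc_main : ∃ C : ℝ, ∀ (t m n : ℕ) (S : Fin m → Finset (Fin n)),
      (∀ i, (S i).card ≤ t) →
      (∀ j : Fin n, (Finset.univ.filter (fun i : Fin m => j ∈ S i)).card ≤ t) →
      (∀ i i' : Fin m, i ≠ i' → (S i ∩ S i').card ≤ 1) →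
      ∃ x : Fin n → ℤ, (∀ j, x j = 1 ∨ x j = -1) ∧
        ∀ i : Fin m, |∑ j ∈ S i, (x j : ℝ)| ≤ C * Real.sqrt t := by
  obtain ⟨D, hD⟩ : ∃ D : ℝ, D = (10 : ℝ) ^ 16 := ⟨_, rfl⟩
  have hD0 : 0 < D := by rw [hD]; norm_num
  refine ⟨(10 ^ 4 / (1 - muc) + 1) + D ^ 100, ?_⟩
  intro t m n S hcard hdeg hlin
  have hmu : 0 < 1 - muc := by linarith [muc_lt]
  have hC0 : 0 ≤ 10 ^ 4 / (1 - muc) + 1 := by positivity
  have hsq := Real.sqrt_nonneg (t : ℝ)
  set s : ℝ := (t : ℝ) ^ ((1 : ℝ) / 200) with hs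
  have hs0 : 0 ≤ s := Real.rpow_nonneg (Nat.cast_nonneg t) _
  have hst : s ^ 200 = t := by
    rw [hs, ← Real.rpow_natCast, ← Real.rpow_mul (Nat.cast_nonneg t)]
    norm_num
  by_cases hcase : (10 : ℝ) ^ 16 ≤ s
  · obtain ⟨σ, hσ1, hσ2⟩ := main_large S hcase hst hcard hdeg hlin
    refine ⟨fun j => if σ j = 1 then 1 else -1, fun j => ?_, fun i => ?_⟩
    · dsimp only
      split_ifs
      · exact Or.inl rfl
      · exact Or.inr rfl
    · have e : ∀ j, (((if σ j = 1 then 1 else -1 : ℤ)) : ℝ) = σ j := by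
        intro j
        rcases hσ1 j with h | h
        · rw [h]; simp
        · rw [h]; norm_num
      simp only [e]
      refine (hσ2 i).trans ?_
      have h0 : 0 ≤ D ^ 100 := pow_nonneg hD0.le _
      refine mul_le_mul_of_nonneg_right ?_ hsq
      linarith
  · push Not at hcase
    refine ⟨fun _ => 1, fun j => Or.inl rfl, fun i => ?_⟩
    have h1 : |∑ j ∈ S i, (((1 : ℤ)) : ℝ)| ≤ t := by
      simp only [Int.cast_one, Finset.sum_const, nsmul_eq_mul, mul_one, Nat.abs_cast]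
      exact_mod_cast hcard i
    refine h1.trans ?_
    have h2 : Real.sqrt t ≤ D ^ 100 := by
      rw [← hst]
      have e : s ^ 200 = (s ^ 100) ^ 2 := by rw [← pow_mul]
      rw [e, Real.sqrt_sq (pow_nonneg hs0 _)]
      rw [← hD] at hcase
      exact pow_le_pow_left₀ hs0 hcase.le _
    calc (t : ℝ) = Real.sqrt t * Real.sqrt t := (Real.mul_self_sqrt (Nat.cast_nonneg t)).symm
      _ ≤ D ^ 100 * Real.sqrt t := mul_le_mul_of_nonneg_right h2 hsq
      _ ≤ _ := by
        refine mul_le_mul_of_nonneg_right ?_ hsq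
        linarith

end Pool.Agent.Helper62.Disc
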