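import Pool.Agent.Helper62.Disc.Hi

/-!
# The mass decreases
-/

open Finset MeasureTheory ProbabilityTheory

namespace Pool.Agent.Helper62.Disc

/-- `u(x) = √(1 - x²)` -/
noncomputable def uf (x : ℝ) : ℝ := Real.sqrt (1 - x ^ 2)

lemma uf_nonneg (x : ℝ) : 0 ≤ uf x := Real.sqrt_nonneg _

lemma uf_le_one (x : ℝ) : uf x ≤ 1 := by
  unfold uf
  exact Real.sqrt_le_iff.2 ⟨zero_le_one, by nlinarith [sq_nonneg x]⟩

lemma uf_continuous : Continuous uf := by unfold uf; fun_prop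

lemma sqrt_one_sub_le {z : ℝ} (h1 : -1 ≤ z) (h2 : z ≤ 1) :
    Real.sqrt (1 - z) ≤ 1 - z / 2 - z ^ 2 / 16 := by
  have h0 : 0 ≤ 1 - z / 2 - z ^ 2 / 16 := by nlinarith
  apply Real.sqrt_le_iff.2
  refine ⟨h0, ?_⟩
  have e : (1 - z / 2 - z ^ 2 / 16) ^ 2 - (1 - z) = z ^ 2 * (1 / 8 + z / 16 + z ^ 2 / 256) := by
    ring
  have : 0 ≤ z ^ 2 * (1 / 8 + z / 16 + z ^ 2 / 256) := by
    apply mul_nonneg (sq_nonneg _)
    nlinarith [sq_nonneg z]
  linarith

section pt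

variable {x a y : ℝ} (ha : a = 1 - x ^ 2) (ha0 : 0 < a) (hy : |y| ≤ 1)

include ha ha0 hy

lemma z_bound : -(9 / 16) ≤ x * y / 2 + a * y ^ 2 / 16 ∧ x * y / 2 + a * y ^ 2 / 16 ≤ 9 / 16 := by
  have hx2 : x ^ 2 < 1 := by linarith
  have hx : |x| < 1 := by
    rw [← sq_lt_one_iff_abs_lt_one]; exact hx2
  have h1 : |x * y| ≤ 1 := by
    rw [abs_mul]
    calc |x| * |y| ≤ 1 * 1 := by gcongr
      _ = 1 := by norm_num
  have h2 := abs_le.1 h1
  have h3 : y ^ 2 ≤ 1 := by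
    rw [← sq_abs]
    exact pow_le_one₀ (abs_nonneg _) hy
  have h4 : a ≤ 1 := by nlinarith [sq_nonneg x]
  have h5 : 0 ≤ a * y ^ 2 := by positivity
  have h6 : a * y ^ 2 ≤ 1 := by
    calc a * y ^ 2 ≤ 1 * 1 := by gcongr
      _ = 1 := by norm_num
  constructor <;> linarith [h2.1, h2.2]

lemma uf_shift_eq : uf (x + 1 / 4 * (a * y)) =
    Real.sqrt a * Real.sqrt (1 - (x * y / 2 + a * y ^ 2 / 16)) := by
  unfold uf
  rw [← Real.sqrt_mul ha0.le]
  congr 1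
  rw [ha]
  ring

lemma uf_avg : (uf (x + 1 / 4 * (a * y)) + uf (x + 1 / 4 * (a * (-y)))) / 2 ≤
    uf x * (1 - y ^ 2 / 64) := by
  have hux : uf x = Real.sqrt a := by unfold uf; rw [ha]
  rw [uf_shift_eq ha ha0 hy, uf_shift_eq ha ha0 (y := -y) (by rwa [abs_neg]), hux]
  have b1 := z_bound ha ha0 hy
  have b2 := z_bound ha ha0 (y := -y) (by rwa [abs_neg])
  have s1 := sqrt_one_sub_le (z := x * y / 2 + a * y ^ 2 / 16) (by linarith [b1.1])
    (by linarith [b1.2])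
  have s2 := sqrt_one_sub_le (z := x * -y / 2 + a * (-y) ^ 2 / 16) (by linarith [b2.1])
    (by linarith [b2.2])
  have hs := Real.sqrt_nonneg a
  have key : (Real.sqrt (1 - (x * y / 2 + a * y ^ 2 / 16)) +
      Real.sqrt (1 - (x * -y / 2 + a * (-y) ^ 2 / 16))) / 2 ≤ 1 - y ^ 2 / 64 := by
    have e : ((1 - (x * y / 2 + a * y ^ 2 / 16) / 2 - (x * y / 2 + a * y ^ 2 / 16) ^ 2 / 16) +
        (1 - (x * -y / 2 + a * (-y) ^ 2 / 16) / 2 - (x * -y / 2 + a * (-y) ^ 2 / 16) ^ 2 / 16)) / 2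
        = 1 - a * y ^ 2 / 32 - x ^ 2 * y ^ 2 / 64 - a ^ 2 * y ^ 4 / 4096 := by ring
    have e2 : x ^ 2 = 1 - a := by linarith
    have h1 : 0 ≤ a * y ^ 2 := by positivity
    have h2 : 0 ≤ a ^ 2 * y ^ 4 := by positivity
    rw [e2] at e
    nlinarith
  calc (Real.sqrt a * Real.sqrt (1 - (x * y / 2 + a * y ^ 2 / 16)) +
      Real.sqrt a * Real.sqrt (1 - (x * -y / 2 + a * (-y) ^ 2 / 16))) / 2
      = Real.sqrt a * ((Real.sqrt (1 - (x * y / 2 + a * y ^ 2 / 16)) +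
      Real.sqrt (1 - (x * -y / 2 + a * (-y) ^ 2 / 16))) / 2) := by ring
    _ ≤ _ := by gcongr

lemma uf_lower : 33 / 50 * Real.sqrt a ≤ uf (x + 1 / 4 * (a * y)) := by
  rw [uf_shift_eq ha ha0 hy]
  have b1 := z_bound ha ha0 hy
  have h1 : 33 / 50 ≤ Real.sqrt (1 - (x * y / 2 + a * y ^ 2 / 16)) := by
    apply Real.le_sqrt_of_sq_le
    norm_num
    linarith [b1.2]
  have := Real.sqrt_nonneg a
  nlinarith

lemma shift_abs_le : |x + 1 / 4 * (a * y)| ≤ 1 := by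
  have h1 : (x + 1 / 4 * (a * y)) ^ 2 ≤ 1 := by
    have b1 := z_bound ha ha0 hy
    have e : 1 - (x + 1 / 4 * (a * y)) ^ 2 = a * (1 - (x * y / 2 + a * y ^ 2 / 16)) := by
      rw [ha]; ring
    have : 0 ≤ a * (1 - (x * y / 2 + a * y ^ 2 / 16)) := mul_nonneg ha0.le (by linarith [b1.2])
    linarith
  rwa [sq_le_one_iff_abs_le_one] at h1

lemma shift_abs_lt : |x + 1 / 4 * (a * y)| < 1 := by
  have h1 : (x + 1 / 4 * (a * y)) ^ 2 < 1 := by
    have b1 := z_bound ha ha0 hy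
    have e : 1 - (x + 1 / 4 * (a * y)) ^ 2 = a * (1 - (x * y / 2 + a * y ^ 2 / 16)) := by
      rw [ha]; ring
    have : 0 < a * (1 - (x * y / 2 + a * y ^ 2 / 16)) := mul_pos ha0 (by linarith [b1.2])
    linarith
  rwa [sq_lt_one_iff_abs_lt_one] at h1

omit hy in
lemma uf_diff {y y' : ℝ} (hy : |y| ≤ 1) (hy' : |y'| ≤ 1) :
    |uf (x + 1 / 4 * (a * y)) - uf (x + 1 / 4 * (a * y'))| ≤
      2 / 5 * (Real.sqrt a * |y - y'|) := by
  set p := uf (x + 1 / 4 * (a * y)) with hp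
  set p' := uf (x + 1 / 4 * (a * y')) with hp'
  have l1 := uf_lower ha ha0 hy
  have l2 := uf_lower ha ha0 hy'
  have v1 := shift_abs_le ha ha0 hy
  have v2 := shift_abs_le ha ha0 hy'
  rw [← hp] at l1
  rw [← hp'] at l2
  have hsa : 0 < Real.sqrt a := Real.sqrt_pos.2 ha0
  have q1 : p ^ 2 = 1 - (x + 1 / 4 * (a * y)) ^ 2 := by
    rw [hp]; unfold uf
    rw [Real.sq_sqrt]
    have := (sq_le_one_iff_abs_le_one _).2 v1
    linarith
  have q2 : p' ^ 2 = 1 - (x + 1 / 4 * (a * y')) ^ 2 := by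
    rw [hp']; unfold uf
    rw [Real.sq_sqrt]
    have := (sq_le_one_iff_abs_le_one _).2 v2
    linarith
  have h1 : |p - p'| * (p + p') ≤ a / 2 * |y - y'| := by
    have e : (p - p') * (p + p') = -(1 / 4 * (a * (y - y'))) *
        ((x + 1 / 4 * (a * y)) + (x + 1 / 4 * (a * y'))) := by
      have : (p - p') * (p + p') = p ^ 2 - p' ^ 2 := by ring
      rw [this, q1, q2]; ring
    have hpp : 0 ≤ p + p' := by linarith [mul_nonneg (by norm_num : (0:ℝ) ≤ 33/50) hsa.le]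
    have h2 : |p - p'| * (p + p') = |(p - p') * (p + p')| := by
      rw [abs_mul, abs_of_nonneg hpp]
    rw [h2, e, abs_mul, abs_neg, abs_mul, abs_mul, abs_of_pos ha0]
    have h3 : |x + 1 / 4 * (a * y) + (x + 1 / 4 * (a * y'))| ≤ 2 :=
      (abs_add_le _ _).trans (by linarith)
    have h4 : |(1 : ℝ) / 4| = 1 / 4 := by norm_num
    rw [h4]
    calc 1 / 4 * (a * |y - y'|) * |x + 1 / 4 * (a * y) + (x + 1 / 4 * (a * y'))|
        ≤ 1 / 4 * (a * |y - y'|) * 2 := by gcongr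
      _ = _ := by ring
  have h2 : |p - p'| * (33 / 25 * Real.sqrt a) ≤ a / 2 * |y - y'| := by
    refine le_trans ?_ h1
    have := abs_nonneg (p - p')
    gcongr
    linarith
  have h3 : a = Real.sqrt a * Real.sqrt a := (Real.mul_self_sqrt ha0.le).symm
  have h4 : Real.sqrt a * (33 / 25 * |p - p'|) ≤ Real.sqrt a * (Real.sqrt a / 2 * |y - y'|) := by
    calc Real.sqrt a * (33 / 25 * |p - p'|) = |p - p'| * (33 / 25 * Real.sqrt a) := by ring
      _ ≤ a / 2 * |y - y'| := h2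
      _ = (Real.sqrt a * Real.sqrt a) / 2 * |y - y'| := by rw [← h3]
      _ = _ := by ring
  have h5 := le_of_mul_le_mul_left h4 hsa
  have h6 : 0 ≤ Real.sqrt a * |y - y'| := by positivity
  linarith

end pt

namespace Sys

variable {ι κ : Type*} [Fintype ι] [DecidableEq ι] [Fintype κ] [DecidableEq κ] (S : Sys ι κ)

/-- new mass of a row -/
noncomputable def ZZ (x : ι → ℝ) (j : κ) (y : ι → ℝ) : ℝ :=
  ∑ i ∈ S.A j, uf (x i + 1 / 4 * (S.a i * y i))

variable {x : ι → ℝ} (hx : ∀ i, S.a i = 1 - x i ^ 2)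

include hx

lemma ZZ_diff (j : κ) {y y' : ι → ℝ} (hy : ∀ i, |y i| ≤ 1) (hy' : ∀ i, |y' i| ≤ 1) :
    |S.ZZ x j y - S.ZZ x j y'| ≤ ∑ i ∈ S.A j, 2 / 5 * (Real.sqrt (S.a i) * |y i - y' i|) := by
  unfold ZZ
  rw [← Finset.sum_sub_distrib]
  refine (Finset.abs_sum_le_sum_abs _ _).trans (Finset.sum_le_sum fun i _ => ?_)
  exact uf_diff (hx i) (S.a_pos i) (hy i) (hy' i)

lemma ZZ_lip {t : ℕ} (hcard : ∀ j, (S.A j).card ≤ t) (j : κ) :
    LipOn (4 / 25 * t) (fun g => S.ZZ x j (S.yy g)) Set.univ := by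
  intro g _ g' _
  have h1 := S.ZZ_diff hx j (S.yy_abs_le g) (S.yy_abs_le g')
  have h2 : (∑ i ∈ S.A j, 2 / 5 * (Real.sqrt (S.a i) * |S.yy g i - S.yy g' i|)) ^ 2 ≤
      4 / 25 * t * ∑ i, (g i - g' i) ^ 2 := by
    have h3 := sq_sum_le_card_mul_sum_sq (s := S.A j)
      (f := fun i => 2 / 5 * (Real.sqrt (S.a i) * |S.yy g i - S.yy g' i|))
    have e : ∀ i, (2 / 5 * (Real.sqrt (S.a i) * |S.yy g i - S.yy g' i|)) ^ 2 =
        4 / 25 * (S.a i * (S.yy g i - S.yy g' i) ^ 2) := by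
      intro i
      rw [mul_pow, mul_pow, Real.sq_sqrt (S.a_pos i).le, sq_abs]
      norm_num
    have e2 : ∑ i ∈ S.A j, (2 / 5 * (Real.sqrt (S.a i) * |S.yy g i - S.yy g' i|)) ^ 2 =
        4 / 25 * ∑ i ∈ S.A j, S.a i * (S.yy g i - S.yy g' i) ^ 2 := by
      rw [Finset.mul_sum]
      exact Finset.sum_congr rfl fun i _ => e i
    rw [e2] at h3
    have h4 : ∑ i ∈ S.A j, S.a i * (S.yy g i - S.yy g' i) ^ 2 ≤ ∑ i, (g i - g' i) ^ 2 :=
      (Finset.sum_le_sum_of_subset_of_nonneg (Finset.subset_univ _)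
        fun i _ _ => mul_nonneg (S.a_pos i).le (sq_nonneg _)).trans
        ((S.yy_opt g).y_lip (S.yy_opt g'))
    have h5 : ((S.A j).card : ℝ) ≤ t := by exact_mod_cast hcard j
    have h6 : 0 ≤ ∑ i ∈ S.A j, S.a i * (S.yy g i - S.yy g' i) ^ 2 :=
      Finset.sum_nonneg fun i _ => mul_nonneg (S.a_pos i).le (sq_nonneg _)
    calc _ ≤ _ := h3
      _ ≤ (t : ℝ) * (4 / 25 * ∑ i, (g i - g' i) ^ 2) := by gcongr
      _ = _ := by ring
  refine le_trans ?_ h2
  rw [← sq_abs (S.ZZ x j (S.yy g) - S.ZZ x j (S.yy g'))]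
  gcongr

lemma ZZ_mean {M t : ℝ} (hM : 0 < M) (hn : ∀ j, S.n j ≤ M)
    (hdeg : ∀ i, ((Finset.univ.filter fun j => i ∈ S.A j).card : ℝ) ≤ t)
    (hpar : t * (S.p.k1 * e3 S.B M + S.p.k0) / S.B ^ 2 ≤ 1 / 160000) (j : κ) :
    ∫ g, S.ZZ x j (S.yy g) ∂(gam ι) ≤ (1 - 1 / 2048) * ∑ i ∈ S.A j, uf (x i) := by
  have hyc : ∀ i, Continuous (fun g => S.yy g i) := fun i =>
    (continuous_apply i).comp S.yy_continuous
  have hcont : ∀ i, Continuous (fun g => uf (x i + 1 / 4 * (S.a i * S.yy g i))) := fun i => by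
    have := hyc i
    exact uf_continuous.comp (by fun_prop)
  have hint : ∀ i, Integrable (fun g => uf (x i + 1 / 4 * (S.a i * S.yy g i))) (gam ι) := by
    intro i
    refine (integrable_const (1 : ℝ)).mono' (hcont i).aestronglyMeasurable ?_
    refine Filter.Eventually.of_forall fun g => ?_
    rw [Real.norm_eq_abs, abs_of_nonneg (uf_nonneg _)]
    exact uf_le_one _
  unfold ZZ
  rw [integral_finsetSum _ fun i _ => hint i, Finset.mul_sum]
  refine Finset.sum_le_sum fun i _ => ?_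
  have hneg := integral_neg_gam (hcont i)
  simp only [S.yy_neg, Pi.neg_apply] at hneg
  have hint2 : Integrable (fun g => uf (x i + 1 / 4 * (S.a i * -S.yy g i))) (gam ι) := by
    have hc : Continuous (fun g => uf (x i + 1 / 4 * (S.a i * -S.yy g i))) := by
      have := hyc i
      exact uf_continuous.comp (by fun_prop)
    refine (integrable_const (1 : ℝ)).mono' hc.aestronglyMeasurable ?_
    refine Filter.Eventually.of_forall fun g => ?_
    rw [Real.norm_eq_abs, abs_of_nonneg (uf_nonneg _)]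
    exact uf_le_one _
  have hy2 := S.y_second hM hn hdeg hpar i
  have hy2i : Integrable (fun g => S.yy g i ^ 2) (gam ι) := by
    refine (integrable_const (1 : ℝ)).mono' ((hyc i).pow 2).aestronglyMeasurable ?_
    refine Filter.Eventually.of_forall fun g => ?_
    rw [Real.norm_eq_abs, abs_of_nonneg (sq_nonneg _), ← sq_abs]
    exact pow_le_one₀ (abs_nonneg _) (S.yy_abs_le g i)
  have h1 : ∫ g, uf (x i + 1 / 4 * (S.a i * S.yy g i)) ∂(gam ι) =
      ∫ g, (uf (x i + 1 / 4 * (S.a i * S.yy g i)) +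
        uf (x i + 1 / 4 * (S.a i * -S.yy g i))) / 2 ∂(gam ι) := by
    rw [integral_div, integral_add (hint i) hint2, hneg]
    ring
  rw [h1]
  have i3 : Integrable (fun g => uf (x i) * (1 - S.yy g i ^ 2 / 64)) (gam ι) :=
    ((integrable_const (1 : ℝ)).sub (hy2i.div_const 64)).const_mul _
  calc _ ≤ ∫ g, uf (x i) * (1 - S.yy g i ^ 2 / 64) ∂(gam ι) := by
        refine integral_mono (((hint i).add hint2).div_const 2) i3 fun g => ?_
        exact uf_avg (hx i) (S.a_pos i) (S.yy_abs_le g i)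
    _ = uf (x i) * (1 - (∫ g, S.yy g i ^ 2 ∂(gam ι)) / 64) := by
        rw [integral_const_mul, integral_sub (integrable_const _) (hy2i.div_const 64),
          integral_div]
        simp
    _ ≤ (1 - 1 / 2048) * uf (x i) := by
        have := uf_nonneg (x i)
        nlinarith

/-- With very high probability the mass of a row decreases. -/
theorem mass_tail {M : ℝ} {t : ℕ} (ht : 0 < t) (hM : 0 < M) (hn : ∀ j, S.n j ≤ M)
    (hcard : ∀ j, (S.A j).card ≤ t)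
    (hdeg : ∀ i, ((Finset.univ.filter fun j => i ∈ S.A j).card : ℝ) ≤ t)
    (hpar : (t : ℝ) * (S.p.k1 * e3 S.B M + S.p.k0) / S.B ^ 2 ≤ 1 / 160000)
    (hmass : ∀ j, ∑ i ∈ S.A j, uf (x i) ≤ M) {η : ℝ} (hη : 0 ≤ η) (j : κ) :
    (gam ι).real {g | (1 - 1 / 2048) * M + η * M ≤ S.ZZ x j (S.yy g)} ≤
      Real.exp (-(η * M) ^ 2 / t) := by
  have ht' : (0 : ℝ) < t := by exact_mod_cast ht
  have h1 := tail (L := 4 / 25 * t) (by positivity) (S.ZZ_lip hx hcard j) (u := η * M)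
    (by positivity)
  have h2 := S.ZZ_mean hx hM hn hdeg hpar j
  have h3 := hmass j
  have hsub : {g : ι → ℝ | (1 - 1 / 2048) * M + η * M ≤ S.ZZ x j (S.yy g)} ⊆
      {g | η * M ≤ S.ZZ x j (S.yy g) - ∫ g', S.ZZ x j (S.yy g') ∂(gam ι)} := by
    intro g hg
    simp only [Set.mem_ofPred_eq] at hg ⊢
    have : (1 - 1 / 2048) * ∑ i ∈ S.A j, uf (x i) ≤ (1 - 1 / 2048) * M := by gcongr
    linarith
  refine (measureReal_mono hsub).trans (h1.trans ?_)
  apply Real.exp_le_exp.2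
  rw [div_le_div_iff₀ (by positivity) ht']
  have : 0 ≤ (η * M) ^ 2 * t := by positivity
  nlinarith

end Sys

end Pool.Agent.Helper62.Disc
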