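import Pool.Agent.Helper62.Disc.Prox
import Pool.Agent.Helper62.Disc.Gauss

/-!
# The random proximal point: Lipschitz properties and moments
-/

open Finset MeasureTheory ProbabilityTheory

namespace Pool.Agent.Helper62.Disc

namespace Sys

variable {ι κ : Type*} [Fintype ι] [DecidableEq ι] [Fintype κ] [DecidableEq κ] (S : Sys ι κ)

/-- the proximal point -/
noncomputable def yy (g : ι → ℝ) : ι → ℝ := Classical.choose (S.exists_opt g)

lemma yy_opt (g : ι → ℝ) : S.IsOpt g (S.yy g) := Classical.choose_spec (S.exists_opt g)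

lemma yy_neg (g : ι → ℝ) : S.yy (-g) = - S.yy g :=
  (S.yy_opt (-g)).unique (S.yy_opt g).neg

lemma yy_abs_le (g : ι → ℝ) (i : ι) : |S.yy g i| ≤ 1 := (S.yy_opt g).1 i

lemma yy_lip (i : ι) : LipOn (1 / S.a i) (fun g => S.yy g i) Set.univ := by
  intro g _ g' _
  have h := (S.yy_opt g).y_lip (S.yy_opt g')
  have h1 : S.a i * (S.yy g i - S.yy g' i) ^ 2 ≤ ∑ k, S.a k * (S.yy g k - S.yy g' k) ^ 2 :=
    Finset.single_le_sum (f := fun k => S.a k * (S.yy g k - S.yy g' k) ^ 2)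
      (fun k _ => mul_nonneg (S.a_pos k).le (sq_nonneg _)) (Finset.mem_univ i)
  have ha := S.a_pos i
  rw [div_mul_eq_mul_div, one_mul, le_div_iff₀ ha]
  linarith

lemma yy_continuous : Continuous S.yy :=
  continuous_pi fun i => (S.yy_lip i).continuous (by have := S.a_pos i; positivity)

lemma s_lip (j : κ) : LipOn (S.n j) (fun g => S.s (S.yy g) j) Set.univ :=
  fun g _ g' _ => (S.yy_opt g).s_lip (S.yy_opt g') j

lemma s_neg (y : ι → ℝ) (j : κ) : S.s (-y) j = - S.s y j := by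
  unfold Sys.s
  simp only [Pi.neg_apply, mul_neg, Finset.sum_neg_distrib]

lemma xi_neg (y : ι → ℝ) (j : κ) : S.xi (-y) j = - S.xi y j := by
  unfold xi
  rw [s_neg, neg_div]

lemma G_lip_sum (g g' : ι → ℝ) :
    ∑ j, (S.p.G (S.xi (S.yy g) j) - S.p.G (S.xi (S.yy g') j)) ^ 2 ≤
      1 / 4 * ∑ i, (g i - g' i) ^ 2 :=
  (S.yy_opt g).G_lip (S.yy_opt g')

lemma G_lip_one (j : κ) : LipOn (1 / 4) (fun g => S.p.G (S.xi (S.yy g) j)) Set.univ := by
  intro g _ g' _
  refine le_trans ?_ (S.G_lip_sum g g')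
  exact Finset.single_le_sum
    (f := fun j => (S.p.G (S.xi (S.yy g) j) - S.p.G (S.xi (S.yy g') j)) ^ 2)
    (fun k _ => sq_nonneg _) (Finset.mem_univ j)

lemma continuous_xi_yy (j : κ) : Continuous (fun g => S.xi (S.yy g) j) :=
  (S.continuous_xi j).comp S.yy_continuous

lemma continuous_G (j : κ) : Continuous (fun g => S.p.G (S.xi (S.yy g) j)) :=
  S.p.G_continuous.comp (S.continuous_xi_yy j)

lemma continuous_Phi (j : κ) : Continuous (fun g => S.p.Phi (S.xi (S.yy g) j)) :=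
  S.p.Phi_continuous.comp (S.continuous_xi_yy j)

lemma G_yy_neg (g : ι → ℝ) (j : κ) :
    S.p.G (S.xi (S.yy (-g)) j) = - S.p.G (S.xi (S.yy g) j) := by
  rw [yy_neg, xi_neg, S.p.G_odd]

lemma Phi_yy_neg (g : ι → ℝ) (j : κ) :
    S.p.Phi (S.xi (S.yy (-g)) j) = - S.p.Phi (S.xi (S.yy g) j) := by
  rw [yy_neg, xi_neg, S.p.Phi_odd]

lemma continuous_Y (i : ι) : Continuous (fun g => S.Y (S.yy g) i) := by
  unfold Y
  refine Continuous.div_const ?_ _
  refine continuous_finsetSum _ fun j _ => ?_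
  split_ifs
  · exact S.continuous_Phi j
  · exact continuous_const

lemma Y_yy_neg (g : ι → ℝ) (i : ι) : S.Y (S.yy (-g)) i = - S.Y (S.yy g) i := by
  unfold Y
  rw [← neg_div, ← Finset.sum_neg_distrib]
  congr 1
  refine Finset.sum_congr rfl fun j _ => ?_
  rw [Phi_yy_neg]
  split_ifs <;> simp

section moments

variable {M : ℝ} (hM : 0 < M) (hn : ∀ j, S.n j ≤ M)

include hM hn

lemma s_tail (j : κ) : (gam ι).real {g | S.B ≤ |S.s (S.yy g) j|} ≤
    2 * Real.exp (-S.B ^ 2 / (5 * M)) :=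
  tail_odd_abs hM ((S.s_lip j).mono (hn j)) (fun g => by rw [yy_neg, s_neg]) S.B_pos.le

omit hM hn in
lemma le_abs_s_of_G_ne (y : ι → ℝ) (j : κ) (h : S.p.G (S.xi y j) ≠ 0) : S.B ≤ |S.s y j| := by
  by_contra hc
  push Not at hc
  apply h
  apply S.p.G_zero
  unfold xi
  rw [abs_div, abs_of_pos S.B_pos, div_le_one S.B_pos]
  exact hc.le

omit hM hn in
lemma G_mgf (j : κ) : ∫ g, Real.exp (S.p.G (S.xi (S.yy g) j)) ∂(gam ι) ≤ 16 / 11 := by
  have h := mgf_le (by norm_num) (S.G_lip_one j) 1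
  rw [integral_odd (S.continuous_G j) (fun g => S.G_yy_neg g j)] at h
  simp only [sub_zero, one_mul, one_pow, mul_one] at h
  refine h.trans ?_
  have h2 := Real.exp_bound_div_one_sub_of_interval' (x := 5 / 16) (by norm_num) (by norm_num)
  have e : (5 : ℝ) / 4 * (1 / 4) = 5 / 16 := by norm_num
  rw [e]
  refine h2.le.trans (by norm_num)

omit hM hn in
lemma G_mgf_neg (j : κ) : ∫ g, Real.exp (-S.p.G (S.xi (S.yy g) j)) ∂(gam ι) ≤ 16 / 11 := by
  refine le_trans (le_of_eq ?_) (S.G_mgf j)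
  have hc : Continuous (fun g => Real.exp (S.p.G (S.xi (S.yy g) j))) :=
    Real.continuous_exp.comp (S.continuous_G j)
  have h := integral_neg_gam hc
  simp only [G_yy_neg] at h
  exact h

omit hM hn in
lemma G_sixth_int (j : κ) : Integrable (fun g => S.p.G (S.xi (S.yy g) j) ^ 6) (gam ι) ∧
    ∫ g, S.p.G (S.xi (S.yy g) j) ^ 6 ∂(gam ι) ≤ 2500 := by
  have i1 : Integrable (fun g => Real.exp (S.p.G (S.xi (S.yy g) j))) (gam ι) := by
    have := integrable_exp_lip (by norm_num) (S.G_lip_one j) 1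
    simpa using this
  have i2 : Integrable (fun g => Real.exp (-S.p.G (S.xi (S.yy g) j))) (gam ι) := by
    have := integrable_exp_lip (by norm_num) (S.G_lip_one j) (-1)
    simpa using this
  have hpt : ∀ z : ℝ, z ^ 6 ≤ 720 * (Real.exp z + Real.exp (-z)) := by
    intro z
    have h1 := Real.pow_div_factorial_le_exp |z| (abs_nonneg z) 6
    have h2 : |z| ^ 6 = z ^ 6 := by
      rw [show (6 : ℕ) = 2 * 3 by norm_num, pow_mul, pow_mul, sq_abs]
    rw [h2] at h1
    have h3 : Real.exp |z| ≤ Real.exp z + Real.exp (-z) := by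
      rcases abs_choice z with h | h <;> rw [h]
      · linarith [Real.exp_pos (-z)]
      · linarith [Real.exp_pos z]
    have h4 : ((Nat.factorial 6 : ℕ) : ℝ) = 720 := by norm_num [Nat.factorial]
    rw [h4, div_le_iff₀ (by norm_num)] at h1
    linarith
  have i3 : Integrable (fun g => 720 * (Real.exp (S.p.G (S.xi (S.yy g) j)) +
      Real.exp (-S.p.G (S.xi (S.yy g) j)))) (gam ι) := (i1.add i2).const_mul _
  have i4 : Integrable (fun g => S.p.G (S.xi (S.yy g) j) ^ 6) (gam ι) := by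
    refine i3.mono' ((S.continuous_G j).pow 6).aestronglyMeasurable ?_
    refine Filter.Eventually.of_forall fun g => ?_
    rw [Real.norm_eq_abs, abs_of_nonneg (by positivity)]
    exact hpt _
  refine ⟨i4, ?_⟩
  calc ∫ g, S.p.G (S.xi (S.yy g) j) ^ 6 ∂(gam ι)
      ≤ ∫ g, 720 * (Real.exp (S.p.G (S.xi (S.yy g) j)) +
      Real.exp (-S.p.G (S.xi (S.yy g) j))) ∂(gam ι) := integral_mono i4 i3 fun g => hpt _
    _ = 720 * ((∫ g, Real.exp (S.p.G (S.xi (S.yy g) j)) ∂(gam ι)) +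
        ∫ g, Real.exp (-S.p.G (S.xi (S.yy g) j)) ∂(gam ι)) := by
        rw [integral_const_mul, integral_add i1 i2]
    _ ≤ 720 * (16 / 11 + 16 / 11) := by
        have := S.G_mgf j
        have := S.G_mgf_neg j
        gcongr
    _ ≤ 2500 := by norm_num

/-- third moment bound -/
noncomputable def e3 (B M : ℝ) : ℝ := 75 * Real.exp (-B ^ 2 / (10 * M))

lemma G_third (j : κ) : Integrable (fun g => |S.p.G (S.xi (S.yy g) j)| ^ 3) (gam ι) ∧
    ∫ g, |S.p.G (S.xi (S.yy g) j)| ^ 3 ∂(gam ι) ≤ e3 S.B M := by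
  set E := Real.exp (-S.B ^ 2 / (10 * M)) with hE
  have hE0 : 0 < E := Real.exp_pos _
  have hE2 : Real.exp (-S.B ^ 2 / (5 * M)) = E ^ 2 := by
    rw [hE, ← Real.exp_nat_mul]
    congr 1
    field_simp
    ring
  obtain ⟨i6, h6⟩ := S.G_sixth_int j
  set T : Set (ι → ℝ) := {g | S.B ≤ |S.s (S.yy g) j|} with hT
  have hTm : MeasurableSet T := by
    have : Continuous (fun g => |S.s (S.yy g) j|) :=
      ((S.continuous_s j).comp S.yy_continuous).abs
    exact measurableSet_le measurable_const this.measurable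
  have hTp := S.s_tail hM hn j
  rw [hE2] at hTp
  set s := E / 50 with hs
  have hs0 : 0 < s := by positivity
  have hpt : ∀ g, |S.p.G (S.xi (S.yy g) j)| ^ 3 ≤ s * S.p.G (S.xi (S.yy g) j) ^ 6 +
      1 / (4 * s) * T.indicator (fun _ => (1 : ℝ)) g := by
    intro g
    set z := S.p.G (S.xi (S.yy g) j) with hz
    by_cases hg : g ∈ T
    · rw [Set.indicator_of_mem hg]
      have h2 : z ^ 6 = (|z| ^ 3) ^ 2 := by
        rw [← pow_mul]
        rw [show (3 * 2 : ℕ) = 2 * 3 by norm_num, pow_mul, sq_abs, ← pow_mul]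
      rw [h2]
      have h3 : s * (|z| ^ 3) ^ 2 + 1 / (4 * s) * 1 - |z| ^ 3 =
          (2 * s * |z| ^ 3 - 1) ^ 2 / (4 * s) := by
        field_simp
        ring
      have h4 : 0 ≤ (2 * s * |z| ^ 3 - 1) ^ 2 / (4 * s) := by positivity
      linarith
    · rw [Set.indicator_of_notMem hg]
      have : z = 0 := by
        by_contra hc
        exact hg (S.le_abs_s_of_G_ne _ j hc)
      rw [this]
      simp
  have iI : Integrable (fun g => T.indicator (fun _ => (1 : ℝ)) g) (gam ι) :=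
    (integrable_const (1 : ℝ)).indicator hTm
  have i7 : Integrable (fun g => s * S.p.G (S.xi (S.yy g) j) ^ 6 +
      1 / (4 * s) * T.indicator (fun _ => (1 : ℝ)) g) (gam ι) :=
    (i6.const_mul s).add (iI.const_mul _)
  have i3 : Integrable (fun g => |S.p.G (S.xi (S.yy g) j)| ^ 3) (gam ι) := by
    refine i7.mono' ((S.continuous_G j).abs.pow 3).aestronglyMeasurable ?_
    refine Filter.Eventually.of_forall fun g => ?_
    rw [Real.norm_eq_abs, abs_of_nonneg (by positivity)]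
    exact hpt g
  refine ⟨i3, ?_⟩
  calc ∫ g, |S.p.G (S.xi (S.yy g) j)| ^ 3 ∂(gam ι)
      ≤ ∫ g, (s * S.p.G (S.xi (S.yy g) j) ^ 6 +
      1 / (4 * s) * T.indicator (fun _ => (1 : ℝ)) g) ∂(gam ι) := integral_mono i3 i7 hpt
    _ = s * (∫ g, S.p.G (S.xi (S.yy g) j) ^ 6 ∂(gam ι)) + 1 / (4 * s) * (gam ι).real T := by
        rw [integral_add (i6.const_mul s) (iI.const_mul _), integral_const_mul,
          integral_const_mul, integral_indicator hTm]
        simp
    _ ≤ s * 2500 + 1 / (4 * s) * (2 * E ^ 2) := by gcongr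
    _ = e3 S.B M := by
        unfold e3
        rw [← hE, hs]
        field_simp
        norm_num

end moments

/-- the local energy -/
noncomputable def kap (y : ι → ℝ) (j : κ) : ℝ := S.p.k1 * |S.p.G (S.xi y j)| ^ 3 + S.p.k0

lemma kap_nonneg (y : ι → ℝ) (j : κ) : 0 ≤ S.kap y j := by
  unfold kap
  have := S.p.k1_nonneg
  have := S.p.k0_nonneg
  positivity

lemma continuous_kap (j : κ) : Continuous (fun g => S.kap (S.yy g) j) := by
  unfold kap
  have := S.continuous_G j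
  fun_prop

lemma kap_neg (g : ι → ℝ) (j : κ) : S.kap (S.yy (-g)) j = S.kap (S.yy g) j := by
  unfold kap
  rw [G_yy_neg, abs_neg]

lemma Phi_sub_sq (y y' : ι → ℝ) (j : κ) :
    (S.p.Phi (S.xi y j) - S.p.Phi (S.xi y' j)) ^ 2 ≤
      (S.kap y j + S.kap y' j) * (S.p.G (S.xi y j) - S.p.G (S.xi y' j)) ^ 2 :=
  S.p.Phi_sq _ _

/-- A general Lipschitz bound for weighted sums of the `Φ(ξ_j)`. -/
lemma lin_Phi_lip (c : κ → ℝ) (g g' : ι → ℝ) :
    (∑ j, c j * (S.p.Phi (S.xi (S.yy g) j) - S.p.Phi (S.xi (S.yy g') j))) ^ 2 ≤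
      ((∑ j, c j ^ 2 * S.kap (S.yy g) j) + (∑ j, c j ^ 2 * S.kap (S.yy g') j)) *
        (1 / 4 * ∑ i, (g i - g' i) ^ 2) := by
  set dP : κ → ℝ := fun j => S.p.Phi (S.xi (S.yy g) j) - S.p.Phi (S.xi (S.yy g') j) with hdP
  set dG : κ → ℝ := fun j => S.p.G (S.xi (S.yy g) j) - S.p.G (S.xi (S.yy g') j) with hdG
  set K : κ → ℝ := fun j => S.kap (S.yy g) j + S.kap (S.yy g') j with hK
  have hK0 : ∀ j, 0 ≤ K j := fun j => add_nonneg (S.kap_nonneg _ j) (S.kap_nonneg _ j)
  have h1 : |∑ j, c j * dP j| ≤ ∑ j, (|c j| * Real.sqrt (K j)) * |dG j| := by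
    refine (Finset.abs_sum_le_sum_abs _ _).trans ?_
    refine Finset.sum_le_sum fun j _ => ?_
    rw [abs_mul, mul_assoc]
    refine mul_le_mul_of_nonneg_left ?_ (abs_nonneg _)
    rw [← Real.sqrt_sq_eq_abs (dG j), ← Real.sqrt_mul (hK0 j)]
    exact Real.abs_le_sqrt (S.Phi_sub_sq _ _ j)
  have h2 := Finset.sum_mul_sq_le_sq_mul_sq Finset.univ (fun j => |c j| * Real.sqrt (K j))
    (fun j => |dG j|)
  have e1 : ∑ j, (|c j| * Real.sqrt (K j)) ^ 2 =
      (∑ j, c j ^ 2 * S.kap (S.yy g) j) + (∑ j, c j ^ 2 * S.kap (S.yy g') j) := by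
    rw [← Finset.sum_add_distrib]
    refine Finset.sum_congr rfl fun j _ => ?_
    rw [mul_pow, sq_abs, Real.sq_sqrt (hK0 j), hK]
    ring
  have e2 : ∑ j, |dG j| ^ 2 = ∑ j, dG j ^ 2 := Finset.sum_congr rfl fun j _ => sq_abs _
  rw [e1, e2] at h2
  have h3 : (∑ j, c j * dP j) ^ 2 ≤ (∑ j, (|c j| * Real.sqrt (K j)) * |dG j|) ^ 2 := by
    rw [← sq_abs]
    gcongr
  refine h3.trans (h2.trans ?_)
  refine mul_le_mul_of_nonneg_left (S.G_lip_sum g g') ?_
  refine add_nonneg ?_ ?_ <;>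
  exact Finset.sum_nonneg fun j _ => mul_nonneg (sq_nonneg _) (S.kap_nonneg _ j)

end Sys

end Pool.Agent.Helper62.Disc
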