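import Pool.Agent.Helper62.Disc.Prox

/-!
# The profile function
-/

open MeasureTheory intervalIntegral

namespace Pool.Agent.Helper62.Disc

/-- clamp of `|x|` to `[1,2]` -/
noncomputable def clm (x : ℝ) : ℝ := max 1 (min |x| 2)

/-- the profile -/
noncomputable def qf (θ d x : ℝ) : ℝ := θ * (1 / (2 + d - clm x) ^ 3 - 1 / (1 + d) ^ 3)

lemma clm_ge (x : ℝ) : 1 ≤ clm x := le_max_left _ _

lemma clm_le (x : ℝ) : clm x ≤ 2 := max_le (by norm_num) (min_le_right _ _)

lemma clm_mono {x y : ℝ} (h : |x| ≤ |y|) : clm x ≤ clm y :=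
  max_le_max le_rfl (min_le_min h le_rfl)

lemma clm_neg (x : ℝ) : clm (-x) = clm x := by unfold clm; rw [abs_neg]

section

variable {θ d : ℝ} (hθ : 0 < θ) (hd : 0 < d)

include hθ hd

lemma qf_nonneg (x : ℝ) : 0 ≤ qf θ d x := by
  unfold qf
  have h1 := clm_ge x
  have h2 := clm_le x
  apply mul_nonneg hθ.le
  rw [sub_nonneg]
  have h3 : 0 < 2 + d - clm x := by linarith
  apply one_div_le_one_div_of_le (by positivity)
  gcongr
  linarith

lemma qf_mono {x y : ℝ} (h : |x| ≤ |y|) : qf θ d x ≤ qf θ d y := by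
  unfold qf
  have h1 := clm_le y
  have h2 := clm_mono h
  have h3 : 0 < 2 + d - clm y := by linarith
  gcongr

lemma qf_le (x : ℝ) : qf θ d x ≤ θ / d ^ 3 := by
  unfold qf
  have h1 := clm_le x
  have h3 : 0 < 2 + d - clm x := by linarith
  have h4 : 1 / (2 + d - clm x) ^ 3 ≤ 1 / d ^ 3 := by
    apply one_div_le_one_div_of_le (by positivity)
    gcongr
    linarith
  have h5 : 0 < 1 / (1 + d) ^ 3 := by positivity
  calc θ * (1 / (2 + d - clm x) ^ 3 - 1 / (1 + d) ^ 3) ≤ θ * (1 / d ^ 3) := by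
        gcongr; linarith
    _ = _ := by ring

lemma qf_le' (x : ℝ) : qf θ d x ≤ θ / (2 + d - clm x) ^ 3 := by
  unfold qf
  have h5 : 0 < 1 / (1 + d) ^ 3 := by positivity
  calc θ * (1 / (2 + d - clm x) ^ 3 - 1 / (1 + d) ^ 3) ≤ θ * (1 / (2 + d - clm x) ^ 3) := by
        gcongr; linarith
    _ = _ := by ring

omit hθ in
lemma qf_continuous : Continuous (qf θ d) := by
  unfold qf clm
  have : ∀ x : ℝ, (2 + d - max 1 (min |x| 2)) ^ 3 ≠ 0 := by
    intro x
    have h1 := clm_le x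
    unfold clm at h1
    have : 0 < 2 + d - max 1 (min |x| 2) := by linarith
    positivity
  fun_prop (disch := assumption)

end

lemma qf_neg (θ d x : ℝ) : qf θ d (-x) = qf θ d x := by unfold qf; rw [clm_neg]

lemma qf_zero (θ d : ℝ) {x : ℝ} (hx : |x| ≤ 1) : qf θ d x = 0 := by
  unfold qf
  have : clm x = 1 := by
    unfold clm
    exact max_eq_left ((min_le_left _ _).trans hx)
  rw [this]
  ring_nf

/-- `G` -/
noncomputable def Gf (θ d x : ℝ) : ℝ := ∫ t in (0 : ℝ)..x, qf θ d t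

/-- `Φ` -/
noncomputable def Pf (θ d x : ℝ) : ℝ := ∫ t in (0 : ℝ)..x, (qf θ d t) ^ 2

lemma Gf_odd (θ d x : ℝ) : Gf θ d (-x) = - Gf θ d x := by
  unfold Gf
  have h := integral_comp_neg (a := 0) (b := x) (fun t => qf θ d t)
  simp only [qf_neg, neg_zero] at h
  rw [h, integral_symm]

lemma Pf_odd (θ d x : ℝ) : Pf θ d (-x) = - Pf θ d x := by
  unfold Pf
  have h := integral_comp_neg (a := 0) (b := x) (fun t => (qf θ d t) ^ 2)
  simp only [qf_neg, neg_zero] at h
  rw [h, integral_symm]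

lemma Gf_zero (θ d : ℝ) {x : ℝ} (hx : |x| ≤ 1) : Gf θ d x = 0 := by
  unfold Gf
  rw [integral_congr (g := fun _ => (0 : ℝ))]
  · simp
  · intro t ht
    apply qf_zero
    have := abs_le.1 hx
    rw [Set.mem_uIcc] at ht
    rw [abs_le]
    rcases ht with h | h <;> constructor <;> linarith [h.1, h.2]

section

variable {θ d : ℝ} (hθ : 0 < θ) (hd : 0 < d)

include hd

lemma qf_int (a b : ℝ) : IntervalIntegrable (qf θ d) volume a b :=
  (qf_continuous hd).intervalIntegrable a b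

lemma qf2_int (a b : ℝ) : IntervalIntegrable (fun t => (qf θ d t) ^ 2) volume a b := by
  have := qf_continuous (θ := θ) hd
  exact (this.pow 2).intervalIntegrable a b

lemma Gf_sub (x x' : ℝ) : Gf θ d x - Gf θ d x' = ∫ t in x'..x, qf θ d t := by
  unfold Gf
  rw [integral_interval_sub_left (qf_int hd _ _) (qf_int hd _ _)]

lemma Pf_sub (x x' : ℝ) : Pf θ d x - Pf θ d x' = ∫ t in x'..x, (qf θ d t) ^ 2 := by
  unfold Pf
  rw [integral_interval_sub_left (qf2_int hd _ _) (qf2_int hd _ _)]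

/-- Cauchy-Schwarz -/
lemma cs_aux {x x' : ℝ} (h : x' ≤ x) :
    (Gf θ d x - Gf θ d x') ^ 2 ≤ (x - x') * (Pf θ d x - Pf θ d x') := by
  rcases eq_or_lt_of_le h with rfl | h
  · simp
  rw [Gf_sub hd, Pf_sub hd]
  set I1 := ∫ t in x'..x, qf θ d t with hI1
  set I2 := ∫ t in x'..x, (qf θ d t) ^ 2 with hI2
  have hlen : 0 < x - x' := by linarith
  set c := I1 / (x - x') with hc
  have h1 : 0 ≤ ∫ t in x'..x, (qf θ d t - c) ^ 2 :=
    integral_nonneg h.le fun t _ => sq_nonneg _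
  have h2 : ∫ t in x'..x, (qf θ d t - c) ^ 2 = I2 - 2 * c * I1 + c ^ 2 * (x - x') := by
    have e : ∀ t, (qf θ d t - c) ^ 2 = ((qf θ d t) ^ 2 - 2 * c * qf θ d t) + c ^ 2 := fun t => by
      ring
    simp_rw [e]
    rw [intervalIntegral.integral_add ((qf2_int hd _ _).sub ((qf_int hd _ _).const_mul _))
      (intervalIntegrable_const), intervalIntegral.integral_sub (qf2_int hd _ _)
      ((qf_int hd _ _).const_mul _), intervalIntegral.integral_const_mul,
      intervalIntegral.integral_const, smul_eq_mul]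
    ring
  rw [h2] at h1
  have h3 : c * (x - x') = I1 := by rw [hc]; field_simp
  have h4 : I2 - 2 * c * I1 + c ^ 2 * (x - x') = I2 - c * I1 := by
    have : c ^ 2 * (x - x') = c * (c * (x - x')) := by ring
    rw [this, h3]; ring
  rw [h4] at h1
  have h5 : 0 ≤ (x - x') * (I2 - c * I1) := mul_nonneg hlen.le h1
  have h6 : (x - x') * (I2 - c * I1) = (x - x') * I2 - I1 ^ 2 := by
    have : (x - x') * (I2 - c * I1) = (x - x') * I2 - (c * (x - x')) * I1 := by ring
    rw [this, h3]; ring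
  rw [h6] at h5
  linarith

include hθ

omit hθ in
lemma Pf_mono {x x' : ℝ} (h : x' ≤ x) : Pf θ d x' ≤ Pf θ d x := by
  have h1 : 0 ≤ Pf θ d x - Pf θ d x' := by
    rw [Pf_sub hd]
    exact integral_nonneg h fun t _ => sq_nonneg _
  linarith

lemma Gf_mono {x x' : ℝ} (h : x' ≤ x) : Gf θ d x' ≤ Gf θ d x := by
  have h1 : 0 ≤ Gf θ d x - Gf θ d x' := by
    rw [Gf_sub hd]
    exact integral_nonneg h fun t _ => qf_nonneg hθ hd t
  linarith

/-- comparison of increments -/
lemma Pf_le_Gf {x x' : ℝ} (h : x' ≤ x) :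
    Pf θ d x - Pf θ d x' ≤ max (qf θ d x) (qf θ d x') * (Gf θ d x - Gf θ d x') := by
  rw [Gf_sub hd, Pf_sub hd, ← intervalIntegral.integral_const_mul]
  refine integral_mono_on h (qf2_int hd _ _) ((qf_int hd _ _).const_mul _) ?_
  intro t ht
  have h0 := qf_nonneg hθ hd t
  have h1 : qf θ d t ≤ max (qf θ d x) (qf θ d x') := by
    by_cases hc : |x'| ≤ |x|
    · refine (qf_mono hθ hd ?_).trans (le_max_left _ _)
      rw [abs_le]
      have := abs_le.1 hc
      constructor <;> linarith [ht.1, ht.2, le_abs_self x]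
    · refine (qf_mono hθ hd ?_).trans (le_max_right _ _)
      push Not at hc
      rw [abs_le]
      constructor
      · linarith [ht.1, neg_abs_le x']
      · linarith [ht.2, le_abs_self x]
  rw [pow_two]
  gcongr

lemma Pf_lip {x x' : ℝ} (h : x' ≤ x) :
    Pf θ d x - Pf θ d x' ≤ θ ^ 2 / d ^ 6 * (x - x') := by
  rw [Pf_sub hd]
  have h1 : ∫ t in x'..x, (qf θ d t) ^ 2 ≤ ∫ _t in x'..x, θ ^ 2 / d ^ 6 := by
    refine integral_mono_on h (qf2_int hd _ _) intervalIntegrable_const ?_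
    intro t _
    have h0 := qf_nonneg hθ hd t
    have h2 := qf_le hθ hd t
    calc (qf θ d t) ^ 2 ≤ (θ / d ^ 3) ^ 2 := by gcongr
      _ = _ := by rw [div_pow]; ring
  rw [intervalIntegral.integral_const, smul_eq_mul] at h1
  linarith

/-- lower bound for `G` on `[1,2]` -/
lemma Gf_lower {x : ℝ} (h1 : 1 ≤ x) (h2 : x ≤ 2) :
    θ / 2 / (2 + d - x) ^ 2 - 3 * θ / 2 ≤ Gf θ d x := by
  have e0 : Gf θ d 1 = 0 := Gf_zero θ d (by simp)
  have e1 : Gf θ d x = ∫ t in (1 : ℝ)..x, qf θ d t := by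
    rw [← Gf_sub hd, e0, sub_zero]
  have e2 : ∫ t in (1 : ℝ)..x, qf θ d t =
      (θ / 2 / (2 + d - x) ^ 2 - θ * x / (1 + d) ^ 3) -
      (θ / 2 / (2 + d - 1) ^ 2 - θ * 1 / (1 + d) ^ 3) := by
    refine integral_eq_sub_of_hasDerivAt (f := fun s => θ / 2 / (2 + d - s) ^ 2 -
      θ * s / (1 + d) ^ 3) ?_ (qf_int hd _ _)
    intro s hs
    rw [Set.uIcc_of_le h1] at hs
    have hs0 : 0 < 2 + d - s := by linarith [hs.2]
    have hc : clm s = s := by
      unfold clm
      rw [abs_of_pos (by linarith [hs.1]), min_eq_left (by linarith [hs.2]),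
        max_eq_right hs.1]
    have d1 : HasDerivAt (fun s : ℝ => (2 + d - s)) (-1) s := by
      simpa using (hasDerivAt_id s).const_sub (2 + d)
    have d2 := (d1.pow 2).fun_inv (by
      simp only [Pi.pow_apply]
      exact (pow_pos hs0 2).ne')
    have d3 := (d2.const_mul (θ / 2)).sub (((hasDerivAt_id s).const_mul θ).div_const ((1 + d) ^ 3))
    have hfun : (fun s => θ / 2 / (2 + d - s) ^ 2 - θ * s / (1 + d) ^ 3) =
        ((fun y => θ / 2 * (((fun s => 2 + d - s) ^ 2) y)⁻¹) - fun x => θ * id x / (1 + d) ^ 3) := by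
      funext s
      simp [div_eq_mul_inv]
    rw [hfun]
    refine d3.congr_deriv ?_
    unfold qf
    rw [hc]
    simp only [Pi.pow_apply]
    field_simp
    ring
  rw [e1, e2]
  have c1 : θ / 2 / (2 + d - 1) ^ 2 ≤ θ / 2 := by
    apply div_le_self (by positivity)
    nlinarith
  have c2 : θ * x / (1 + d) ^ 3 - θ * 1 / (1 + d) ^ 3 ≤ θ := by
    rw [← sub_div]
    have c3 : θ * x - θ * 1 ≤ θ := by nlinarith
    refine (div_le_div_of_nonneg_right c3 (by positivity)).trans ?_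
    apply div_le_self hθ.le
    have : 1 ≤ (1 + d) := by linarith
    exact one_le_pow₀ this
  linarith

lemma qf_sq_le_aux {x : ℝ} (hx : 0 ≤ x) :
    (qf θ d x) ^ 2 ≤ 32 / θ * |Gf θ d x| ^ 3 + 108 * θ ^ 2 := by
  rcases le_total x 1 with h1 | h1
  · rw [qf_zero θ d (by rw [abs_of_nonneg hx]; exact h1)]
    have : 0 ≤ 32 / θ * |Gf θ d x| ^ 3 + 108 * θ ^ 2 := by positivity
    simpa using this
  -- `G x ≥ θ/2/(2+d-m)^2 - 3θ/2`
  have hm : θ / 2 / (2 + d - clm x) ^ 2 - 3 * θ / 2 ≤ Gf θ d x := by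
    rcases le_total x 2 with h2 | h2
    · have hc : clm x = x := by
        unfold clm
        rw [abs_of_nonneg hx, min_eq_left h2, max_eq_right h1]
      rw [hc]
      exact Gf_lower hθ hd h1 h2
    · have hc : clm x = 2 := by
        unfold clm
        rw [abs_of_nonneg hx, min_eq_right h2, max_eq_right (by norm_num)]
      rw [hc]
      exact (Gf_lower hθ hd (by norm_num) le_rfl).trans (Gf_mono hθ hd h2)
  have hG0 : 0 ≤ Gf θ d x := by
    have := Gf_mono hθ hd hx
    rwa [Gf_zero θ d (x := 0) (by simp)] at this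
  rw [abs_of_nonneg hG0]
  set G := Gf θ d x with hG
  have h2 := clm_le x
  set w := 2 + d - clm x with hw
  have hw0 : 0 < w := by rw [hw]; linarith
  have hq := qf_le' hθ hd x
  have hq0 := qf_nonneg hθ hd x
  rw [← hw] at hq
  -- 1/w^2 ≤ (2/θ)(G+3θ/2)
  have h3 : 1 / w ^ 2 ≤ 2 / θ * (G + 3 * θ / 2) := by
    have : 1 / w ^ 2 = 2 / θ * (θ / 2 / w ^ 2) := by field_simp
    rw [this]
    gcongr
    linarith
  have h4 : (1 / w ^ 2) ^ 3 ≤ (2 / θ * (G + 3 * θ / 2)) ^ 3 := by gcongr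
  calc (qf θ d x) ^ 2 ≤ (θ / w ^ 3) ^ 2 := by gcongr
    _ = θ ^ 2 * (1 / w ^ 2) ^ 3 := by field_simp
    _ ≤ θ ^ 2 * (2 / θ * (G + 3 * θ / 2)) ^ 3 := by gcongr
    _ = 8 / θ * (G + 3 * θ / 2) ^ 3 := by field_simp; ring
    _ ≤ 8 / θ * (4 * (G ^ 3 + (3 * θ / 2) ^ 3)) := by
        gcongr
        have ha := hG0
        have hb : 0 ≤ 3 * θ / 2 := by positivity
        nlinarith [mul_nonneg (add_nonneg ha hb) (sq_nonneg (G - 3 * θ / 2))]
    _ = 32 / θ * G ^ 3 + 108 * θ ^ 2 := by field_simp; ring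

lemma qf_sq_le (x : ℝ) :
    (qf θ d x) ^ 2 ≤ 32 / θ * |Gf θ d x| ^ 3 + 108 * θ ^ 2 := by
  rcases le_total 0 x with h | h
  · exact qf_sq_le_aux hθ hd h
  · have := qf_sq_le_aux hθ hd (x := -x) (by linarith)
    rwa [qf_neg, Gf_odd, abs_neg] at this

/-- The profile as a structure. -/
noncomputable def prof : Prof where
  G := Gf θ d
  Phi := Pf θ d
  k1 := 32 / θ
  k0 := 108 * θ ^ 2
  Q := θ ^ 2 / d ^ 6
  k1_nonneg := by positivity
  k0_nonneg := by positivity
  Q_nonneg := by positivity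
  G_sq := by
    intro x x'
    rcases le_total x' x with h | h
    · exact cs_aux hd h
    · have := cs_aux (θ := θ) hd h
      nlinarith
  Phi_sq := by
    have key : ∀ x x', x' ≤ x → (Pf θ d x - Pf θ d x') ^ 2 ≤
        ((32 / θ * |Gf θ d x| ^ 3 + 108 * θ ^ 2) + (32 / θ * |Gf θ d x'| ^ 3 + 108 * θ ^ 2)) *
          (Gf θ d x - Gf θ d x') ^ 2 := by
      intro x x' h
      have h1 := Pf_le_Gf hθ hd h
      have h2 := Pf_mono (θ := θ) hd h
      have h3 := qf_sq_le hθ hd x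
      have h4 := qf_sq_le hθ hd x'
      have q1 := qf_nonneg hθ hd x
      have q2 := qf_nonneg hθ hd x'
      have h5 : (max (qf θ d x) (qf θ d x')) ^ 2 ≤ (qf θ d x) ^ 2 + (qf θ d x') ^ 2 := by
        rcases max_choice (qf θ d x) (qf θ d x') with h | h <;> rw [h] <;> nlinarith
      calc (Pf θ d x - Pf θ d x') ^ 2
          ≤ (max (qf θ d x) (qf θ d x') * (Gf θ d x - Gf θ d x')) ^ 2 := by
            have : 0 ≤ Pf θ d x - Pf θ d x' := by linarith
            gcongr
        _ = (max (qf θ d x) (qf θ d x')) ^ 2 * (Gf θ d x - Gf θ d x') ^ 2 := by ring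
        _ ≤ _ := by
            refine mul_le_mul_of_nonneg_right ?_ (sq_nonneg _)
            linarith
    intro x x'
    rcases le_total x' x with h | h
    · exact key x x' h
    · have := key x' x h
      calc (Pf θ d x - Pf θ d x') ^ 2 = (Pf θ d x' - Pf θ d x) ^ 2 := by ring
        _ ≤ _ := this
        _ = _ := by ring
  Phi_lip := by
    have key : ∀ x x', x' ≤ x → (Pf θ d x - Pf θ d x') ^ 2 ≤
        θ ^ 2 / d ^ 6 * ((x - x') * (Pf θ d x - Pf θ d x')) := by
      intro x x' h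
      have h1 := Pf_lip hθ hd h
      have h2 := Pf_mono (θ := θ) hd h
      have h3 : 0 ≤ Pf θ d x - Pf θ d x' := by linarith
      have := mul_le_mul_of_nonneg_right h1 h3
      nlinarith
    intro x x'
    rcases le_total x' x with h | h
    · exact key x x' h
    · have := key x' x h
      calc (Pf θ d x - Pf θ d x') ^ 2 = (Pf θ d x' - Pf θ d x) ^ 2 := by ring
        _ ≤ _ := this
        _ = _ := by ring
  G_odd := Gf_odd θ d
  Phi_odd := Pf_odd θ d
  G_zero := fun x hx => Gf_zero θ d hx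

lemma Pf_two (hd4 : d ≤ 1 / 4) : θ ^ 2 / (256 * d ^ 5) ≤ Pf θ d 2 := by
  have h0 : Pf θ d (2 - d) = Pf θ d (2 - d) := rfl
  have h1 : 0 ≤ Pf θ d (2 - d) := by
    have := Pf_mono (θ := θ) hd (x' := 0) (x := 2 - d) (by linarith)
    have e : Pf θ d 0 = 0 := by unfold Pf; simp
    rwa [e] at this
  have h2 : Pf θ d 2 - Pf θ d (2 - d) = ∫ t in (2 - d)..2, (qf θ d t) ^ 2 := Pf_sub hd _ _
  have h3 : ∫ _t in (2 - d)..2, (θ / (16 * d ^ 3)) ^ 2 ≤ ∫ t in (2 - d)..2, (qf θ d t) ^ 2 := by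
    refine integral_mono_on (by linarith) intervalIntegrable_const (qf2_int hd _ _) ?_
    intro t ht
    have hc : clm t = t := by
      unfold clm
      rw [abs_of_nonneg (by linarith [ht.1]), min_eq_left ht.2, max_eq_right (by linarith [ht.1])]
    have h4 : θ / (16 * d ^ 3) ≤ qf θ d t := by
      unfold qf
      rw [hc]
      have h5 : 0 < 2 + d - t := by linarith [ht.2]
      have h6 : 1 / (2 * d) ^ 3 ≤ 1 / (2 + d - t) ^ 3 := by
        apply one_div_le_one_div_of_le (by positivity)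
        gcongr
        linarith [ht.1]
      have h7 : 1 / (1 + d) ^ 3 ≤ 1 := by
        rw [div_le_one (by positivity)]
        exact one_le_pow₀ (by linarith)
      have h8 : 1 ≤ 1 / (16 * d ^ 3) := by
        rw [le_div_iff₀ (by positivity)]
        have : d ^ 3 ≤ (1 / 4) ^ 3 := by gcongr
        linarith
      have h9 : 1 / (2 * d) ^ 3 = 1 / (16 * d ^ 3) + 1 / (16 * d ^ 3) := by
        field_simp
        ring
      calc θ / (16 * d ^ 3) = θ * (1 / (16 * d ^ 3)) := by ring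
        _ ≤ _ := by gcongr; linarith
    have h10 : 0 ≤ θ / (16 * d ^ 3) := by positivity
    gcongr
  rw [intervalIntegral.integral_const, smul_eq_mul] at h3
  have h11 : (2 - (2 - d)) * (θ / (16 * d ^ 3)) ^ 2 = θ ^ 2 / (256 * d ^ 5) := by
    field_simp
    ring
  rw [h11] at h3
  linarith

end

end Pool.Agent.Helper62.Disc
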