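import Pool.Agent.Helper62.Disc.Stage
import Pool.Agent.Helper62.Disc.Profile

/-!
# One stage, with concrete parameters
-/

open Finset MeasureTheory ProbabilityTheory

namespace Pool.Agent.Helper62.Disc

lemma cmp_pow {s : ℝ} (hs : 10 ^ 16 ≤ s) {K : ℝ} (hK : K ≤ 10 ^ 16) {a b : ℕ} (hab : a < b) :
    K * s ^ a ≤ s ^ b := by
  have hs1 : 1 ≤ s := le_trans (by norm_num) hs
  calc K * s ^ a ≤ s * s ^ a := by gcongr; linarith
    _ = s ^ (a + 1) := by ring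
    _ ≤ s ^ b := pow_le_pow_right₀ hs1 hab

/-- `(1 + s^{-193})^r` is large for a moderate `r`. -/
lemma exists_r {s : ℝ} (hs : 10 ^ 16 ≤ s) : ∃ r : ℕ, 40 * (s ^ 200) ^ 3 ≤ (1 + 1 / s ^ 193) ^ r ∧
    (r : ℝ) ≤ 2400 * s ^ 194 := by
  have hs1 : 1 ≤ s := le_trans (by norm_num) hs
  have hs0 : 0 < s := by linarith
  set k := ⌈s ^ 193⌉₊ with hk
  set l := 6 + 600 * ⌈s⌉₊ with hl
  have hk1 : s ^ 193 ≤ k := Nat.le_ceil _
  have hk2 : (k : ℝ) ≤ 2 * s ^ 193 := by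
    have := (Nat.ceil_lt_add_one (by positivity : (0 : ℝ) ≤ s ^ 193)).le
    have h1 : 1 ≤ s ^ 193 := one_le_pow₀ hs1
    rw [← hk] at this
    linarith
  have hc1 : s ≤ (⌈s⌉₊ : ℝ) := Nat.le_ceil _
  have hc2 : (⌈s⌉₊ : ℝ) ≤ s + 1 := (Nat.ceil_lt_add_one hs0.le).le
  have hl2 : (l : ℝ) ≤ 1200 * s := by
    rw [hl]
    push_cast
    have : (10 : ℝ) ^ 16 ≤ s := hs
    norm_num at this
    linarith
  refine ⟨k * l, ?_, ?_⟩
  · rw [pow_mul]
    have h1 : 2 ≤ (1 + 1 / s ^ 193) ^ k := by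
      have h2 := one_add_mul_le_pow (a := 1 / s ^ 193) (le_trans (by norm_num : (-2 : ℝ) ≤ 0)
        (by positivity)) k
      have h3 : 1 ≤ (k : ℝ) * (1 / s ^ 193) := by
        rw [mul_one_div, le_div_iff₀ (by positivity)]
        linarith
      linarith
    have h4 : s ≤ 2 ^ ⌈s⌉₊ := by
      refine hc1.trans ?_
      exact_mod_cast (Nat.lt_two_pow_self (n := ⌈s⌉₊)).le
    calc 40 * (s ^ 200) ^ 3 = 40 * s ^ 600 := by ring
      _ ≤ 2 ^ 6 * (2 ^ ⌈s⌉₊) ^ 600 := by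
          gcongr
          norm_num
      _ = 2 ^ l := by rw [hl, pow_add, ← pow_mul, Nat.mul_comm 600]
      _ ≤ _ := by gcongr
  · push_cast
    calc (k : ℝ) * l ≤ (2 * s ^ 193) * (1200 * s) := by gcongr
      _ = _ := by ring

section

variable {s M T : ℝ}

lemma par_B (hM : 0 < M) (hMT : M ≤ T) :
    (10 ^ 4 * Real.sqrt (Real.sqrt (T * M))) ^ 2 = 10 ^ 8 * Real.sqrt (T * M) ∧
    Real.sqrt (M / T) * (10 ^ 4 * Real.sqrt (Real.sqrt (T * M))) ^ 2 = 10 ^ 8 * M ∧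
    10 ^ 8 * M ≤ (10 ^ 4 * Real.sqrt (Real.sqrt (T * M))) ^ 2 := by
  have hT : 0 < T := by linarith
  have h1 : (10 ^ 4 * Real.sqrt (Real.sqrt (T * M))) ^ 2 = 10 ^ 8 * Real.sqrt (T * M) := by
    rw [mul_pow, Real.sq_sqrt (Real.sqrt_nonneg _)]
    norm_num
  have h2 : Real.sqrt (M / T) * Real.sqrt (T * M) = M := by
    rw [← Real.sqrt_mul (by positivity)]
    have : M / T * (T * M) = M ^ 2 := by field_simp
    rw [this, Real.sqrt_sq hM.le]
  have h3 : M ≤ Real.sqrt (T * M) := by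
    apply Real.le_sqrt_of_sq_le
    nlinarith
  refine ⟨h1, ?_, ?_⟩
  · rw [h1]
    calc Real.sqrt (M / T) * (10 ^ 8 * Real.sqrt (T * M)) =
        10 ^ 8 * (Real.sqrt (M / T) * Real.sqrt (T * M)) := by ring
      _ = _ := by rw [h2]
  · rw [h1]
    gcongr

lemma par_hpar {θ B : ℝ} (hM : 0 < M) (hMT : M ≤ T) (hθ : 0 < θ) (hB : 0 < B)
    (hθ2 : θ ^ 2 = M / T) (hθB : θ * B ^ 2 = 10 ^ 8 * M) (hB4 : B ^ 4 = 10 ^ 16 * (T * M))
    (hMB : 10 ^ 8 * M ≤ B ^ 2) :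
    T * (32 / θ * Sys.e3 B M + 108 * θ ^ 2) / B ^ 2 ≤ 1 / 160000 := by
  have hT : 0 < T := by linarith
  set w := B ^ 2 / (10 * M) with hw
  have hw0 : 0 < w := by positivity
  have he : Sys.e3 B M ≤ 300 / w ^ 2 := by
    unfold Sys.e3
    have h1 : -B ^ 2 / (10 * M) = -w := by rw [hw, neg_div]
    rw [h1, Real.exp_neg]
    have h2 : w ^ 2 / 4 ≤ Real.exp w := by
      have h3 := Real.add_one_le_exp (w / 2)
      have h4 : Real.exp w = Real.exp (w / 2) ^ 2 := by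
        rw [← Real.exp_nat_mul]
        congr 1
        push_cast
        ring
      rw [h4]
      calc w ^ 2 / 4 = (w / 2) ^ 2 := by ring
        _ ≤ _ := by gcongr; linarith
    have h5 : (Real.exp w)⁻¹ ≤ (w ^ 2 / 4)⁻¹ := inv_anti₀ (by positivity) h2
    calc 75 * (Real.exp w)⁻¹ ≤ 75 * (w ^ 2 / 4)⁻¹ := by gcongr
      _ = _ := by field_simp; norm_num
  have h1 : T * (32 / θ * Sys.e3 B M) / B ^ 2 ≤ 1 / 10 ^ 6 := by
    calc T * (32 / θ * Sys.e3 B M) / B ^ 2 ≤ T * (32 / θ * (300 / w ^ 2)) / B ^ 2 := by gcongr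
      _ = 960000 * T * M ^ 2 / ((θ * B ^ 2) * B ^ 4) := by
          rw [hw]
          field_simp
          norm_num
      _ = 960000 / 10 ^ 24 := by
          rw [hθB, hB4]
          field_simp
      _ ≤ 1 / 10 ^ 6 := by norm_num
  have h2 : T * (108 * θ ^ 2) / B ^ 2 ≤ 108 / 10 ^ 8 := by
    rw [hθ2]
    have : T * (108 * (M / T)) = 108 * M := by field_simp
    rw [this, div_le_div_iff₀ (by positivity) (by norm_num)]
    nlinarith
  have h3 : T * (32 / θ * Sys.e3 B M + 108 * θ ^ 2) / B ^ 2 =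
      T * (32 / θ * Sys.e3 B M) / B ^ 2 + T * (108 * θ ^ 2) / B ^ 2 := by ring
  rw [h3]
  refine (add_le_add h1 h2).trans ?_
  norm_num

lemma par_p {s M T : ℝ} (hs : 10 ^ 16 ≤ s) (hT : T = s ^ 200) (hM1 : s ^ 198 ≤ M) :
    Real.exp (-(s ^ 98) ^ 2 / 5) + Real.exp (-T / 3) +
      Real.exp (-(1 / 8192 * M) ^ 2 / T) + 2 * T * Real.exp (-2 * T) ≤
      4 * Real.exp (-(s ^ 196 / 10 ^ 8)) := by
  have hs1 : 1 ≤ s := le_trans (by norm_num) hs
  have hs0 : 0 < s := by linarith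
  have hT0 : 0 < T := by rw [hT]; positivity
  have hz : s ^ 196 / 10 ^ 8 ≤ T / 3 := by
    rw [hT]
    have h1 := cmp_pow hs (K := 1) (by norm_num) (a := 196) (b := 200) (by norm_num)
    have h2 : 0 < s ^ 200 := by positivity
    have h3 : s ^ 196 / 10 ^ 8 ≤ s ^ 196 / 3 := by
      gcongr
      norm_num
    linarith
  have p1 : Real.exp (-(s ^ 98) ^ 2 / 5) ≤ Real.exp (-(s ^ 196 / 10 ^ 8)) := by
    apply Real.exp_le_exp.2
    have h0 : 0 < s ^ 196 := by positivity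
    have e : (s ^ 98) ^ 2 = s ^ 196 := by rw [← pow_mul]
    rw [e, neg_div]
    apply neg_le_neg
    gcongr
    norm_num
  have p2 : Real.exp (-T / 3) ≤ Real.exp (-(s ^ 196 / 10 ^ 8)) := by
    apply Real.exp_le_exp.2
    linarith
  have p3 : Real.exp (-(1 / 8192 * M) ^ 2 / T) ≤ Real.exp (-(s ^ 196 / 10 ^ 8)) := by
    apply Real.exp_le_exp.2
    rw [neg_div]
    apply neg_le_neg
    rw [hT, div_le_div_iff₀ (by positivity) (by positivity)]
    have h0 : 0 < s ^ 198 := by positivity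
    calc s ^ 196 * s ^ 200 = (s ^ 198) ^ 2 := by ring
      _ ≤ M ^ 2 := by gcongr
      _ ≤ (1 / 8192 * M) ^ 2 * 10 ^ 8 := by nlinarith [sq_nonneg M]
  have p4 : 2 * T * Real.exp (-2 * T) ≤ Real.exp (-(s ^ 196 / 10 ^ 8)) := by
    have h1 : 2 * T ≤ Real.exp T := by
      have := Real.quadratic_le_exp_of_nonneg hT0.le
      nlinarith [sq_nonneg (T - 1)]
    calc 2 * T * Real.exp (-2 * T) ≤ Real.exp T * Real.exp (-2 * T) := by gcongr
      _ = Real.exp (-T) := by rw [← Real.exp_add]; congr 1; ring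
      _ ≤ _ := by
        apply Real.exp_le_exp.2
        linarith
  linarith

lemma par_L {s T : ℝ} (hs : 10 ^ 16 ≤ s) (hT : T = s ^ 200) {r : ℕ}
    (hr : (r : ℝ) ≤ 2400 * s ^ 194) :
    4 * (4 * Real.exp (-(s ^ 196 / 10 ^ 8))) * T ^ (4 * r + 2) ≤ 1 := by
  have hs1 : 1 ≤ s := le_trans (by norm_num) hs
  have hs0 : 0 < s := by linarith
  have h1 : T ^ (4 * r + 2) ≤ Real.exp (200 * (4 * r + 2) * s) := by
    rw [hT, ← pow_mul]
    have h2 : s ≤ Real.exp s := by linarith [Real.add_one_le_exp s]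
    calc s ^ (200 * (4 * r + 2)) ≤ (Real.exp s) ^ (200 * (4 * r + 2)) := by gcongr
      _ = Real.exp (200 * (4 * r + 2) * s) := by
          rw [← Real.exp_nat_mul]
          congr 1
          push_cast
          ring
  have h3 : (16 : ℝ) ≤ Real.exp 4 := by
    have h4 := Real.pow_div_factorial_le_exp (4 : ℝ) (by norm_num) 3
    have h5 := Real.add_one_le_exp (1 : ℝ)
    have h6 : Real.exp 4 = Real.exp 1 ^ 4 := by
      rw [← Real.exp_nat_mul]
      norm_num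
    rw [h6]
    calc (16 : ℝ) = 2 ^ 4 := by norm_num
      _ ≤ _ := by gcongr; linarith
  have h7 : 4 + 200 * (4 * r + 2) * s ≤ s ^ 196 / 10 ^ 8 := by
    have c1 : 200 * (4 * (r : ℝ) + 2) * s ≤ 200 * (4 * (2400 * s ^ 194) + 2) * s := by gcongr
    have c2 : 200 * (4 * (2400 * s ^ 194) + 2) * s = 1920000 * s ^ 195 + 400 * s := by ring
    have c3 : s ≤ s ^ 195 := by
      calc s = s ^ 1 := (pow_one s).symm
        _ ≤ _ := pow_le_pow_right₀ hs1 (by norm_num)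
    have c4 : 1 ≤ s ^ 195 := one_le_pow₀ hs1
    have c5 : 3 * 10 ^ 14 * s ^ 195 ≤ s ^ 196 :=
      cmp_pow hs (by norm_num) (by norm_num)
    rw [le_div_iff₀ (by norm_num)]
    rw [c2] at c1
    nlinarith
  calc 4 * (4 * Real.exp (-(s ^ 196 / 10 ^ 8))) * T ^ (4 * r + 2)
      ≤ 4 * (4 * Real.exp (-(s ^ 196 / 10 ^ 8))) * Real.exp (200 * (4 * r + 2) * s) := by gcongr
    _ = 16 * (Real.exp (-(s ^ 196 / 10 ^ 8)) * Real.exp (200 * (4 * r + 2) * s)) := by ring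
    _ ≤ Real.exp 4 * (Real.exp (-(s ^ 196 / 10 ^ 8)) * Real.exp (200 * (4 * r + 2) * s)) := by
        gcongr
    _ = Real.exp (4 + (-(s ^ 196 / 10 ^ 8) + 200 * (4 * r + 2) * s)) := by
        rw [Real.exp_add, Real.exp_add]
    _ ≤ 1 := by
        rw [Real.exp_le_one_iff]
        linarith

end

section main

variable {ι κ : Type*} [Fintype ι] [DecidableEq ι] [Fintype κ] [DecidableEq κ]
  (A : κ → Finset ι)

theorem stage_concrete {t : ℕ} {s M : ℝ} (hs : 10 ^ 16 ≤ s) (hst : s ^ 200 = t)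
    (hM1 : s ^ 198 ≤ M) (hM2 : M ≤ t)
    (hcard : ∀ j, (A j).card ≤ t)
    (hdeg : ∀ i, (Finset.univ.filter fun j => i ∈ A j).card ≤ t)
    (hlin : ∀ j j', j ≠ j' → (A j ∩ A j').card ≤ 1)
    (x : ι → ℝ) (hx : ∀ i, |x i| < 1) (hmass : ∀ j, ∑ i ∈ A j, uf (x i) ≤ M) :
    ∃ x' : ι → ℝ, (∀ i, |x' i| < 1) ∧
      (∀ j, ∑ i ∈ A j, uf (x' i) ≤ (1 - 1 / 4096) * M) ∧
      (∀ j, |∑ i ∈ A j, (x' i - x i)| ≤ 10 ^ 4 * Real.sqrt (Real.sqrt (t * M))) := by
  have hs1 : 1 ≤ s := le_trans (by norm_num) hs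
  have hs0 : 0 < s := by linarith
  have hT0 : (0 : ℝ) < t := by rw [← hst]; positivity
  have hM0 : 0 < M := lt_of_lt_of_le (by positivity) hM1
  set B := 10 ^ 4 * Real.sqrt (Real.sqrt (t * M)) with hBdef
  have hB0 : 0 < B := by positivity
  obtain ⟨b1, b2, b3⟩ := par_B hM0 hM2
  rw [← hBdef] at b1 b2 b3
  set θ := Real.sqrt (M / t) with hθdef
  have hθ0 : 0 < θ := Real.sqrt_pos.2 (by positivity)
  have hθ2 : θ ^ 2 = M / t := Real.sq_sqrt (by positivity)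
  have hB4 : B ^ 4 = 10 ^ 16 * (t * M) := by
    have : B ^ 4 = (B ^ 2) ^ 2 := by ring
    rw [this, b1, mul_pow, Real.sq_sqrt (by positivity)]
    norm_num
  have hθlow : 1 / s ^ 2 ≤ θ ^ 2 := by
    rw [hθ2, ← hst, div_le_div_iff₀ (by positivity) (by positivity)]
    calc 1 * s ^ 200 = s ^ 198 * s ^ 2 := by ring
      _ ≤ M * s ^ 2 := by gcongr
  have hθ1 : θ ^ 2 ≤ 1 := by
    rw [hθ2, div_le_one hT0]
    exact hM2
  have hBlow : 10 ^ 4 * s ^ 99 ≤ B := by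
    refine le_of_pow_le_pow_left₀ two_ne_zero hB0.le ?_
    calc (10 ^ 4 * s ^ 99) ^ 2 = 10 ^ 8 * s ^ 198 := by ring
      _ ≤ 10 ^ 8 * M := by gcongr
      _ ≤ _ := b3
  have hBhigh : B ≤ 10 ^ 4 * s ^ 100 := by
    refine le_of_pow_le_pow_left₀ four_ne_zero (by positivity) ?_
    rw [hB4]
    calc 10 ^ 16 * (t * M) ≤ 10 ^ 16 * (t * t) := by gcongr
      _ = (10 ^ 4 * s ^ 100) ^ 4 := by rw [← hst]; ring
  set d := 1 / s ^ 31 with hd
  have hd0 : 0 < d := by positivity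
  have hd4 : d ≤ 1 / 4 := by
    rw [hd]
    apply one_div_le_one_div_of_le (by norm_num)
    have := cmp_pow hs (K := 4) (by norm_num) (a := 0) (b := 31) (by norm_num)
    simpa using this
  obtain ⟨r, hr1, hr2⟩ := exists_r hs
  -- the system
  let S : Sys ι κ :=
    { A := A
      a := fun i => 1 - x i ^ 2
      a_pos := fun i => by
        have := (sq_lt_one_iff_abs_lt_one (x i)).2 (hx i)
        linarith
      a_le := fun i => by nlinarith [sq_nonneg (x i)]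
      B := B
      B_pos := hB0
      p := prof hθ0 hd0 }
  have hk1 : S.p.k1 = 32 / θ := rfl
  have hk0 : S.p.k0 = 108 * θ ^ 2 := rfl
  have hQ' : S.p.Q = θ ^ 2 / d ^ 6 := rfl
  have hPhi : S.p.Phi 2 = Pf θ d 2 := rfl
  have hSB : S.B = B := rfl
  -- profile value
  have hP2 : 2 * s ^ 52 ≤ Pf θ d 2 / B := by
    have h1 := Pf_two hθ0 hd0 hd4
    have h2 : s ^ 153 / 256 ≤ θ ^ 2 / (256 * d ^ 5) := by
      have e : θ ^ 2 / (256 * d ^ 5) = θ ^ 2 * s ^ 155 / 256 := by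
        rw [hd]
        field_simp
      rw [e]
      have : s ^ 153 ≤ θ ^ 2 * s ^ 155 := by
        calc s ^ 153 = 1 / s ^ 2 * s ^ 155 := by field_simp
          _ ≤ _ := by gcongr
      gcongr
    rw [le_div_iff₀ hB0]
    calc 2 * s ^ 52 * B ≤ 2 * s ^ 52 * (10 ^ 4 * s ^ 100) := by gcongr
      _ = 20000 * s ^ 152 := by ring
      _ ≤ s ^ 153 / 256 := by
          have := cmp_pow hs (K := 20000 * 256) (by norm_num) (a := 152) (b := 153) (by norm_num)
          linarith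
      _ ≤ _ := h2.trans h1
  have hs52 : 1 ≤ s ^ 52 := one_le_pow₀ hs1
  have ht1 : 1 ≤ t := by exact_mod_cast hT0
  obtain ⟨x', h1, h2, h3⟩ := S.stage x (fun i => rfl) (M := M) (t := t) (r := r)
    (ε := 1 / s ^ 193) (η := 1 / 8192) (ρ0 := s ^ 98)
    (p := 4 * Real.exp (-(s ^ 196 / 10 ^ 8)))
    ht1 hM0 hmass hcard hdeg hlin
    (by rw [hSB]; nlinarith) (by rw [hk1]; positivity)
    (by
      rw [hk1, hk0, hSB]
      exact par_hpar hM0 hM2 hθ0 hB0 hθ2 b2 hB4 b3)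
    (by positivity)
    (by
      rw [hk1, hSB, div_div_eq_mul_div, le_div_iff₀ (by norm_num)]
      have e : B ^ 3 * θ = B * (θ * B ^ 2) := by ring
      rw [e, b2]
      calc (s ^ 98) ^ 3 * 32 = 32 * s ^ 294 := by ring
        _ ≤ s ^ 297 := cmp_pow hs (by norm_num) (by norm_num)
        _ ≤ 10 ^ 4 * s ^ 99 * (10 ^ 8 * s ^ 198) := by
            have : 0 ≤ s ^ 297 := by positivity
            calc s ^ 297 ≤ 10 ^ 12 * s ^ 297 := by nlinarith
              _ = _ := by ring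
        _ ≤ B * (10 ^ 8 * M) := by gcongr)
    (by rw [hPhi, hSB]; linarith)
    (by
      rw [hPhi, hSB]
      have c1 : s ^ 52 ≤ Pf θ d 2 / B - 1 := by linarith
      calc 40 * (t : ℝ) = 40 * s ^ 200 := by rw [hst]
        _ ≤ s ^ 203 := cmp_pow hs (by norm_num) (by norm_num)
        _ = s ^ 99 * (s ^ 52) ^ 2 := by ring
        _ ≤ B * (Pf θ d 2 / B - 1) ^ 2 := by
            gcongr
            have : 0 ≤ s ^ 99 := by positivity
            linarith)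
    (by positivity)
    (by
      rw [hQ', ← hst]
      have e : θ ^ 2 / d ^ 6 * (1 / s ^ 193) ^ 2 * s ^ 200 = θ ^ 2 := by
        rw [hd]
        field_simp
      rw [e]
      linarith)
    (by rw [← hst]; exact hr1)
    (by norm_num)
    (par_p hs hst.symm hM1)
    (par_L hs hst.symm hr2)
  refine ⟨x', h1, fun j => ?_, fun j => ?_⟩
  · refine (h2 j).trans ?_
    have hMbig : 8192 * s ^ 0 ≤ M :=
      (cmp_pow hs (by norm_num) (by norm_num : 0 < 198)).trans hM1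
    rw [pow_zero, mul_one] at hMbig
    linarith
  · refine (h3 j).trans ?_
    rw [hSB]
    have : 1 ≤ B := by
      refine le_trans ?_ hBlow
      have : 1 ≤ s ^ 99 := one_le_pow₀ hs1
      linarith
    linarith

end main

end Pool.Agent.Helper62.Disc
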