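import Mathlib

/-!
# The proximal map

`y(g)` minimises `∑ a_i (y_i^2/2 - g_i y_i) + ∑_j Ψ(s_j / B)` on the cube.
-/

open Finset

namespace Pool.Agent.Helper62.Disc

/-- The profile functions. -/
structure Prof where
  G : ℝ → ℝ
  Phi : ℝ → ℝ
  k1 : ℝ
  k0 : ℝ
  Q : ℝ
  k1_nonneg : 0 ≤ k1
  k0_nonneg : 0 ≤ k0
  Q_nonneg : 0 ≤ Q
  G_sq : ∀ x x', (G x - G x') ^ 2 ≤ (x - x') * (Phi x - Phi x')
  Phi_sq : ∀ x x', (Phi x - Phi x') ^ 2 ≤
    ((k1 * |G x| ^ 3 + k0) + (k1 * |G x'| ^ 3 + k0)) * (G x - G x') ^ 2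
  Phi_lip : ∀ x x', (Phi x - Phi x') ^ 2 ≤ Q * ((x - x') * (Phi x - Phi x'))
  G_odd : ∀ x, G (-x) = - G x
  Phi_odd : ∀ x, Phi (-x) = - Phi x
  G_zero : ∀ x, |x| ≤ 1 → G x = 0

namespace Prof

variable (p : Prof)

lemma mono (x x' : ℝ) : 0 ≤ (x - x') * (p.Phi x - p.Phi x') :=
  (sq_nonneg _).trans (p.G_sq x x')

lemma Phi_monotone : Monotone p.Phi := by
  intro x x' h
  rcases eq_or_lt_of_le h with rfl | h
  · exact le_rfl
  · have := p.mono x' x
    have h2 : 0 < x' - x := by linarith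
    have := nonneg_of_mul_nonneg_right this h2
    linarith

lemma Phi_lip_abs (x x' : ℝ) : |p.Phi x - p.Phi x'| ≤ p.Q * |x - x'| := by
  have h := p.Phi_lip x x'
  have h1 : (x - x') * (p.Phi x - p.Phi x') ≤ |x - x'| * |p.Phi x - p.Phi x'| := by
    rw [← abs_mul]; exact le_abs_self _
  have h2 : |p.Phi x - p.Phi x'| ^ 2 ≤ p.Q * |x - x'| * |p.Phi x - p.Phi x'| := by
    rw [sq_abs]
    refine h.trans ?_
    rw [mul_assoc]
    exact mul_le_mul_of_nonneg_left h1 p.Q_nonneg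
  rcases eq_or_lt_of_le (abs_nonneg (p.Phi x - p.Phi x')) with h0 | h0
  · rw [← h0]
    exact mul_nonneg p.Q_nonneg (abs_nonneg _)
  · nlinarith

lemma Phi_continuous : Continuous p.Phi := by
  have : LipschitzWith (Real.toNNReal p.Q) p.Phi := by
    refine LipschitzWith.of_dist_le_mul fun x y => ?_
    rw [Real.coe_toNNReal _ p.Q_nonneg, Real.dist_eq, Real.dist_eq]
    exact p.Phi_lip_abs x y
  exact this.continuous

lemma G_lip_sq (x x' : ℝ) : (p.G x - p.G x') ^ 2 ≤ p.Q * (x - x') ^ 2 := by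
  refine (p.G_sq x x').trans ?_
  calc (x - x') * (p.Phi x - p.Phi x') ≤ |x - x'| * |p.Phi x - p.Phi x'| := by
        rw [← abs_mul]; exact le_abs_self _
    _ ≤ |x - x'| * (p.Q * |x - x'|) := by
        have := p.Phi_lip_abs x x'
        gcongr
    _ = p.Q * (|x - x'| ^ 2) := by ring
    _ = _ := by rw [sq_abs]

lemma G_continuous : Continuous p.G := by
  have : LipschitzWith (Real.toNNReal (Real.sqrt p.Q)) p.G := by
    refine LipschitzWith.of_dist_le_mul fun x y => ?_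
    rw [Real.coe_toNNReal _ (Real.sqrt_nonneg _), Real.dist_eq, Real.dist_eq]
    have := Real.sqrt_le_sqrt (p.G_lip_sq x y)
    rwa [Real.sqrt_sq_eq_abs, Real.sqrt_mul p.Q_nonneg, Real.sqrt_sq_eq_abs] at this
  exact this.continuous

/-- The potential. -/
noncomputable def Psi (x : ℝ) : ℝ := ∫ t in (0 : ℝ)..x, p.Phi t

lemma Psi_hasDerivAt (x : ℝ) : HasDerivAt p.Psi (p.Phi x) x :=
  (p.Phi_continuous.integral_hasStrictDerivAt 0 x).hasDerivAt

lemma Psi_continuous : Continuous p.Psi :=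
  continuous_iff_continuousAt.2 fun x => (p.Psi_hasDerivAt x).continuousAt

end Prof

/-- The data of one stage. -/
structure Sys (ι κ : Type*) [Fintype ι] [DecidableEq ι] [Fintype κ] [DecidableEq κ] where
  A : κ → Finset ι
  a : ι → ℝ
  a_pos : ∀ i, 0 < a i
  a_le : ∀ i, a i ≤ 1
  B : ℝ
  B_pos : 0 < B
  p : Prof

namespace Sys

variable {ι κ : Type*} [Fintype ι] [DecidableEq ι] [Fintype κ] [DecidableEq κ] (S : Sys ι κ)

/-- row sum -/
noncomputable def s (y : ι → ℝ) (j : κ) : ℝ := ∑ i ∈ S.A j, S.a i * y i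

/-- normalised row sum -/
noncomputable def xi (y : ι → ℝ) (j : κ) : ℝ := S.s y j / S.B

/-- total weight of a row -/
noncomputable def n (j : κ) : ℝ := ∑ i ∈ S.A j, S.a i

/-- the drift at an element -/
noncomputable def Y (y : ι → ℝ) (i : ι) : ℝ :=
  (∑ j, if i ∈ S.A j then S.p.Phi (S.xi y j) else 0) / S.B

/-- the optimality condition -/
def IsOpt (g y : ι → ℝ) : Prop :=
  (∀ i, |y i| ≤ 1) ∧ ∀ i, ∀ s : ℝ, |s| ≤ 1 → 0 ≤ (s - y i) * (y i - g i + S.Y y i)

/-- the objective -/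
noncomputable def obj (g y : ι → ℝ) : ℝ :=
  ∑ i, S.a i * (y i ^ 2 / 2 - g i * y i) + ∑ j, S.p.Psi (S.xi y j)

lemma n_nonneg (j : κ) : 0 ≤ S.n j := Finset.sum_nonneg fun i _ => (S.a_pos i).le

lemma continuous_s (j : κ) : Continuous (fun y : ι → ℝ => S.s y j) := by
  unfold s; fun_prop

lemma continuous_xi (j : κ) : Continuous (fun y : ι → ℝ => S.xi y j) := by
  unfold xi
  have := S.continuous_s j
  fun_prop

lemma continuous_obj (g : ι → ℝ) : Continuous (fun y : ι → ℝ => S.obj g y) := by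
  unfold obj
  have h : ∀ j, Continuous (fun y : ι → ℝ => S.p.Psi (S.xi y j)) := fun j =>
    S.p.Psi_continuous.comp (S.continuous_xi j)
  fun_prop

lemma s_line (y v : ι → ℝ) (τ : ℝ) (j : κ) :
    S.s (fun k => y k + τ * v k) j = S.s y j + τ * S.s v j := by
  unfold s
  rw [Finset.mul_sum, ← Finset.sum_add_distrib]
  exact Finset.sum_congr rfl fun i _ => by ring

lemma hasDerivAt_obj (g y v : ι → ℝ) :
    HasDerivAt (fun τ : ℝ => S.obj g (fun k => y k + τ * v k))
      (∑ i, S.a i * ((y i - g i) * v i) + ∑ j, S.p.Phi (S.xi y j) * (S.s v j / S.B)) 0 := by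
  unfold obj
  refine HasDerivAt.add ?_ ?_
  · refine HasDerivAt.fun_sum fun i _ => ?_
    have h1 : HasDerivAt (fun τ : ℝ => y i + τ * v i) (v i) 0 := by
      simpa using ((hasDerivAt_id (0 : ℝ)).mul_const (v i)).const_add (y i)
    have h2 := ((h1.pow 2).div_const 2).sub (h1.const_mul (g i))
    have h3 := h2.const_mul (S.a i)
    refine h3.congr_deriv ?_
    rw [zero_mul, add_zero]
    norm_num
    ring_nf
    simp
  · refine HasDerivAt.fun_sum fun j _ => ?_
    have h1 : HasDerivAt (fun τ : ℝ => S.xi (fun k => y k + τ * v k) j) (S.s v j / S.B) 0 := by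
      have h2 : (fun τ : ℝ => S.xi (fun k => y k + τ * v k) j) =
          fun τ : ℝ => (S.s y j + τ * S.s v j) / S.B := by
        funext τ
        rw [xi, s_line]
      rw [h2]
      have := (((hasDerivAt_id (0 : ℝ)).mul_const (S.s v j)).const_add (S.s y j)).div_const S.B
      simpa using this
    have h4 : HasDerivAt S.p.Psi (S.p.Phi (S.xi y j)) (S.xi (fun k => y k + 0 * v k) j) := by
      have : (fun k => y k + 0 * v k) = y := by funext k; ring
      rw [this]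
      exact S.p.Psi_hasDerivAt _
    exact h4.comp 0 h1

lemma deriv_nonneg_of_min {f : ℝ → ℝ} {f' : ℝ} (hf : HasDerivAt f f' 0)
    (hmin : ∀ τ ∈ Set.Icc (0 : ℝ) 1, f 0 ≤ f τ) : 0 ≤ f' := by
  have h1 := hf.hasDerivWithinAt (s := Set.Ioi 0)
  rw [hasDerivWithinAt_iff_tendsto_slope' (by simp)] at h1
  refine ge_of_tendsto h1 ?_
  have h2 : Set.Ioc (0 : ℝ) 1 ∈ nhdsWithin (0 : ℝ) (Set.Ioi 0) :=
    Ioc_mem_nhdsGT (by norm_num)
  filter_upwards [h2] with τ hτ
  rw [slope_def_field]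
  have := hmin τ ⟨hτ.1.le, hτ.2⟩
  exact div_nonneg (by linarith) (by linarith [hτ.1])

lemma exists_opt (g : ι → ℝ) : ∃ y, S.IsOpt g y := by
  have hK : IsCompact (Set.univ.pi (fun _ : ι => Set.Icc (-1 : ℝ) 1)) :=
    isCompact_univ_pi fun _ => isCompact_Icc
  obtain ⟨y, hyK, hmin⟩ := hK.exists_isMinOn ⟨fun _ => 0, fun i _ => by simp⟩
    (S.continuous_obj g).continuousOn
  have hy : ∀ i, -1 ≤ y i ∧ y i ≤ 1 := fun i => by
    have := hyK i (Set.mem_univ _)
    exact this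
  refine ⟨y, fun i => abs_le.2 (hy i), fun i s hs => ?_⟩
  set v : ι → ℝ := Pi.single i (s - y i) with hv
  have hd := S.hasDerivAt_obj g y v
  have hnn := deriv_nonneg_of_min hd (by
    intro τ hτ
    have h0 : (fun k => y k + 0 * v k) = y := by funext k; ring
    rw [h0]
    apply hmin
    intro k _
    by_cases hk : k = i
    · subst hk
      have h1 := hy k
      have h2 := abs_le.1 hs
      simp only [hv, Pi.single_eq_same]
      rw [Set.mem_Icc]
      constructor <;> nlinarith [hτ.1, hτ.2, h1.1, h1.2, h2.1, h2.2]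
    · simp only [hv, Pi.single_eq_of_ne hk, mul_zero, add_zero]
      exact hy k)
  have e1 : ∑ k, S.a k * ((y k - g k) * v k) = S.a i * ((y i - g i) * (s - y i)) := by
    rw [Finset.sum_eq_single i]
    · simp [hv]
    · intro k _ hk
      simp [hv, Pi.single_eq_of_ne hk]
    · simp
  have e2 : ∀ j, S.s v j = if i ∈ S.A j then S.a i * (s - y i) else 0 := by
    intro j
    unfold Sys.s
    split_ifs with hi
    · rw [Finset.sum_eq_single_of_mem i hi]
      · simp [hv]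
      · intro k _ hk
        simp [hv, Pi.single_eq_of_ne hk]
    · refine Finset.sum_eq_zero fun k hk => ?_
      have : k ≠ i := fun h => hi (h ▸ hk)
      simp [hv, Pi.single_eq_of_ne this]
  have e3 : ∑ j, S.p.Phi (S.xi y j) * (S.s v j / S.B) = S.a i * (s - y i) * S.Y y i := by
    unfold Y
    rw [Finset.sum_div, Finset.mul_sum]
    refine Finset.sum_congr rfl fun j _ => ?_
    rw [e2]
    split_ifs
    · ring
    · simp
  rw [e1, e3] at hnn
  have h4 : S.a i * ((y i - g i) * (s - y i)) + S.a i * (s - y i) * S.Y y i =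
      S.a i * ((s - y i) * (y i - g i + S.Y y i)) := by ring
  rw [h4] at hnn
  exact nonneg_of_mul_nonneg_right hnn (S.a_pos i)

variable {S}

lemma IsOpt.neg {g y : ι → ℝ} (h : S.IsOpt g y) : S.IsOpt (-g) (-y) := by
  have hs : ∀ j, S.xi (-y) j = - S.xi y j := by
    intro j
    unfold xi Sys.s
    simp only [Pi.neg_apply, mul_neg, Finset.sum_neg_distrib, neg_div]
  have hY : ∀ i, S.Y (-y) i = - S.Y y i := by
    intro i
    unfold Y
    rw [← neg_div, ← Finset.sum_neg_distrib]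
    congr 1
    refine Finset.sum_congr rfl fun j _ => ?_
    rw [hs, S.p.Phi_odd]
    split_ifs <;> simp
  refine ⟨fun i => by simpa using h.1 i, fun i s hs' => ?_⟩
  have := h.2 i (-s) (by simpa using hs')
  rw [hY]
  simp only [Pi.neg_apply]
  calc (0 : ℝ) ≤ (-s - y i) * (y i - g i + S.Y y i) := this
    _ = _ := by ring

/-- coordinatewise inequality for two inputs -/
lemma IsOpt.coord {g y g' y' : ι → ℝ} (h : S.IsOpt g y) (h' : S.IsOpt g' y') (i : ι) :
    (y i - y' i) ^ 2 + (S.Y y i - S.Y y' i) * (y i - y' i) ≤ (g i - g' i) * (y i - y' i) := by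
  have h1 := h.2 i (y' i) (h'.1 i)
  have h2 := h'.2 i (y i) (h.1 i)
  nlinarith

lemma Y_sub (y y' : ι → ℝ) (i : ι) : S.Y y i - S.Y y' i =
    (∑ j, if i ∈ S.A j then (S.p.Phi (S.xi y j) - S.p.Phi (S.xi y' j)) else 0) / S.B := by
  unfold Y
  rw [← sub_div, ← Finset.sum_sub_distrib]
  congr 1
  refine Finset.sum_congr rfl fun j _ => ?_
  split_ifs <;> simp

/-- the weighted inequality -/
lemma IsOpt.weighted {g y g' y' : ι → ℝ} (h : S.IsOpt g y) (h' : S.IsOpt g' y')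
    (w : ι → ℝ) (hw : ∀ i, 0 ≤ w i) :
    ∑ i, w i * (S.a i * (y i - y' i) ^ 2) +
      ∑ j, (S.p.Phi (S.xi y j) - S.p.Phi (S.xi y' j)) *
        ((∑ i ∈ S.A j, w i * (S.a i * (y i - y' i))) / S.B) ≤
      ∑ i, w i * (S.a i * ((g i - g' i) * (y i - y' i))) := by
  have e : ∑ j, (S.p.Phi (S.xi y j) - S.p.Phi (S.xi y' j)) *
        ((∑ i ∈ S.A j, w i * (S.a i * (y i - y' i))) / S.B) =
      ∑ i, w i * (S.a i * ((S.Y y i - S.Y y' i) * (y i - y' i))) := by
    have e1 : ∀ j, (S.p.Phi (S.xi y j) - S.p.Phi (S.xi y' j)) *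
        ((∑ i ∈ S.A j, w i * (S.a i * (y i - y' i))) / S.B) =
        ∑ i, (if i ∈ S.A j then (S.p.Phi (S.xi y j) - S.p.Phi (S.xi y' j)) else 0) *
          (w i * (S.a i * (y i - y' i)) / S.B) := by
      intro j
      rw [Finset.sum_div, Finset.mul_sum, ← Finset.sum_filter_add_sum_filter_not Finset.univ
        (fun i => i ∈ S.A j)]
      rw [show (Finset.univ.filter fun i => i ∈ S.A j) = S.A j by ext; simp]
      rw [Finset.sum_congr rfl (g := fun i => (S.p.Phi (S.xi y j) - S.p.Phi (S.xi y' j)) *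
          (w i * (S.a i * (y i - y' i)) / S.B)) (fun i hi => by simp [hi])]
      rw [Finset.sum_eq_zero (s := Finset.univ.filter fun i => i ∉ S.A j) (fun i hi => by
        simp [(Finset.mem_filter.1 hi).2])]
      rw [add_zero]
      rw [Finset.sum_congr rfl]
      intro i hi
      simp [hi]
    rw [Finset.sum_congr rfl fun j _ => e1 j, Finset.sum_comm]
    refine Finset.sum_congr rfl fun i _ => ?_
    rw [← Finset.sum_mul, Y_sub]
    ring
  rw [e, ← Finset.sum_add_distrib]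
  refine Finset.sum_le_sum fun i _ => ?_
  have hc := h.coord h' i
  have h0 : 0 ≤ w i * S.a i := mul_nonneg (hw i) (S.a_pos i).le
  have := mul_le_mul_of_nonneg_left hc h0
  nlinarith

lemma s_sub (y y' : ι → ℝ) (j : κ) : S.s y j - S.s y' j = ∑ i ∈ S.A j, S.a i * (y i - y' i) := by
  unfold Sys.s
  rw [← Finset.sum_sub_distrib]
  exact Finset.sum_congr rfl fun i _ => by ring

lemma xi_sub (y y' : ι → ℝ) (j : κ) :
    S.xi y j - S.xi y' j = (∑ i ∈ S.A j, S.a i * (y i - y' i)) / S.B := by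
  unfold xi
  rw [← sub_div, s_sub]

/-- the energy inequality -/
lemma IsOpt.energy {g y g' y' : ι → ℝ} (h : S.IsOpt g y) (h' : S.IsOpt g' y') :
    ∑ i, S.a i * (y i - y' i) ^ 2 + ∑ j, (S.xi y j - S.xi y' j) *
      (S.p.Phi (S.xi y j) - S.p.Phi (S.xi y' j)) ≤
      ∑ i, S.a i * ((g i - g' i) * (y i - y' i)) := by
  have := h.weighted h' (fun _ => 1) (fun _ => zero_le_one)
  simp only [one_mul] at this
  refine le_trans (le_of_eq ?_) this
  congr 1
  refine Finset.sum_congr rfl fun j _ => ?_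
  rw [← xi_sub, mul_comm]

lemma IsOpt.y_lip {g y g' y' : ι → ℝ} (h : S.IsOpt g y) (h' : S.IsOpt g' y') :
    ∑ i, S.a i * (y i - y' i) ^ 2 ≤ ∑ i, (g i - g' i) ^ 2 := by
  have h1 := h.energy h'
  have h2 : 0 ≤ ∑ j, (S.xi y j - S.xi y' j) *
      (S.p.Phi (S.xi y j) - S.p.Phi (S.xi y' j)) :=
    Finset.sum_nonneg fun j _ => S.p.mono _ _
  have h3 : ∑ i, S.a i * ((g i - g' i) * (y i - y' i)) ≤
      ∑ i, ((g i - g' i) ^ 2 / 2 + S.a i * (y i - y' i) ^ 2 / 2) := by
    refine Finset.sum_le_sum fun i _ => ?_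
    have ha := S.a_pos i
    have ha1 := S.a_le i
    have := mul_nonneg ha.le (sq_nonneg ((g i - g' i) - (y i - y' i)))
    nlinarith [sq_nonneg (g i - g' i), mul_nonneg (sub_nonneg.2 ha1) (sq_nonneg (g i - g' i))]
  rw [Finset.sum_add_distrib, ← Finset.sum_div, ← Finset.sum_div] at h3
  linarith

lemma IsOpt.G_lip {g y g' y' : ι → ℝ} (h : S.IsOpt g y) (h' : S.IsOpt g' y') :
    ∑ j, (S.p.G (S.xi y j) - S.p.G (S.xi y' j)) ^ 2 ≤ 1 / 4 * ∑ i, (g i - g' i) ^ 2 := by
  have h1 := h.energy h'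
  have h2 : ∑ j, (S.p.G (S.xi y j) - S.p.G (S.xi y' j)) ^ 2 ≤ ∑ j, (S.xi y j - S.xi y' j) *
      (S.p.Phi (S.xi y j) - S.p.Phi (S.xi y' j)) :=
    Finset.sum_le_sum fun j _ => S.p.G_sq _ _
  have h3 : ∑ i, S.a i * ((g i - g' i) * (y i - y' i)) ≤
      ∑ i, (1 / 4 * (g i - g' i) ^ 2 + S.a i * (y i - y' i) ^ 2) := by
    refine Finset.sum_le_sum fun i _ => ?_
    have ha := S.a_pos i
    have ha1 := S.a_le i
    have := mul_nonneg ha.le (sq_nonneg ((g i - g' i) / 2 - (y i - y' i)))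
    nlinarith [sq_nonneg (g i - g' i), mul_nonneg (sub_nonneg.2 ha1) (sq_nonneg (g i - g' i))]
  rw [Finset.sum_add_distrib, ← Finset.mul_sum] at h3
  linarith

lemma IsOpt.s_lip {g y g' y' : ι → ℝ} (h : S.IsOpt g y) (h' : S.IsOpt g' y') (j : κ) :
    (S.s y j - S.s y' j) ^ 2 ≤ S.n j * ∑ i, (g i - g' i) ^ 2 := by
  rw [s_sub]
  have h1 : (∑ i ∈ S.A j, S.a i * (y i - y' i)) ^ 2 ≤
      (∑ i ∈ S.A j, S.a i) * ∑ i ∈ S.A j, S.a i * (y i - y' i) ^ 2 := by
    have hcs := Finset.sum_mul_sq_le_sq_mul_sq (S.A j) (fun i => Real.sqrt (S.a i))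
      (fun i => Real.sqrt (S.a i) * (y i - y' i))
    have e1 : ∀ i, Real.sqrt (S.a i) * (Real.sqrt (S.a i) * (y i - y' i)) =
        S.a i * (y i - y' i) := fun i => by
      rw [← mul_assoc, Real.mul_self_sqrt (S.a_pos i).le]
    have e2 : ∀ i, Real.sqrt (S.a i) ^ 2 = S.a i := fun i => Real.sq_sqrt (S.a_pos i).le
    have e3 : ∀ i, (Real.sqrt (S.a i) * (y i - y' i)) ^ 2 = S.a i * (y i - y' i) ^ 2 := fun i => by
      rw [mul_pow, e2]
    simp only [e1, e2, e3] at hcs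
    exact hcs
  refine h1.trans ?_
  have h2 : ∑ i ∈ S.A j, S.a i * (y i - y' i) ^ 2 ≤ ∑ i, S.a i * (y i - y' i) ^ 2 :=
    Finset.sum_le_sum_of_subset_of_nonneg (Finset.subset_univ _)
      fun i _ _ => mul_nonneg (S.a_pos i).le (sq_nonneg _)
  have h3 := h2.trans (h.y_lip h')
  exact mul_le_mul_of_nonneg_left h3 (S.n_nonneg j)

lemma IsOpt.unique {g y y' : ι → ℝ} (h : S.IsOpt g y) (h' : S.IsOpt g y') : y = y' := by
  have h1 := h.y_lip h'
  simp only [sub_self, ne_eq, OfNat.ofNat_ne_zero, not_false_eq_true, zero_pow,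
    Finset.sum_const_zero] at h1
  have h2 : ∀ i ∈ Finset.univ, 0 ≤ S.a i * (y i - y' i) ^ 2 :=
    fun i _ => mul_nonneg (S.a_pos i).le (sq_nonneg _)
  have h3 := (Finset.sum_eq_zero_iff_of_nonneg h2).1 (le_antisymm h1 (Finset.sum_nonneg h2))
  funext i
  have h4 := h3 i (Finset.mem_univ i)
  have h5 : (y i - y' i) ^ 2 = 0 := by
    rcases mul_eq_zero.1 h4 with h | h
    · exact absurd h (S.a_pos i).ne'
    · exact h
  have := pow_eq_zero_iff (two_ne_zero) |>.1 h5
  linarith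

/-- Combes-Thomas estimate. -/
lemma IsOpt.combes_thomas {g y g' y' : ι → ℝ} (h : S.IsOpt g y) (h' : S.IsOpt g' y')
    (w : ι → ℝ) (m : κ → ℝ) (ε t : ℝ) (hε : 0 ≤ ε) (hm : ∀ j, 0 ≤ m j) (hw : ∀ i, 0 ≤ w i)
    (hmw : ∀ j, ∀ i ∈ S.A j, m j ≤ w i) (hwm : ∀ j, ∀ i ∈ S.A j, w i ≤ (1 + ε) * m j)
    (hn : ∀ j, S.n j ≤ S.B ^ 2)
    (hdeg : ∀ i, ((Finset.univ.filter fun j => i ∈ S.A j).card : ℝ) ≤ t)
    (hQ : S.p.Q * ε ^ 2 * t ≤ 2) :
    ∑ i, w i * (S.a i * (y i - y' i) ^ 2) ≤ 4 * ∑ i, w i * (S.a i * (g i - g' i) ^ 2) := by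
  have h1 := h.weighted h' w hw
  set dy : ι → ℝ := fun i => y i - y' i with hdy
  set dP : κ → ℝ := fun j => S.p.Phi (S.xi y j) - S.p.Phi (S.xi y' j) with hdP
  have hB := S.B_pos
  -- per row lower bound
  have hrow : ∀ j, - (S.p.Q * ε ^ 2 / 4) * (∑ i ∈ S.A j, w i * (S.a i * dy i ^ 2)) ≤
      dP j * ((∑ i ∈ S.A j, w i * (S.a i * dy i)) / S.B) := by
    intro j
    set x := S.xi y j - S.xi y' j with hx
    set T := ∑ i ∈ S.A j, S.a i * dy i ^ 2 with hT
    have hT0 : 0 ≤ T := Finset.sum_nonneg fun i _ => mul_nonneg (S.a_pos i).le (sq_nonneg _)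
    have hxe : x = (∑ i ∈ S.A j, S.a i * dy i) / S.B := xi_sub y y' j
    have hP : 0 ≤ x * dP j := S.p.mono _ _
    have hL : dP j ^ 2 ≤ S.p.Q * (x * dP j) := S.p.Phi_lip _ _
    -- split
    set R := ∑ i ∈ S.A j, (w i - m j) * (S.a i * dy i) with hR
    have hsplit : (∑ i ∈ S.A j, w i * (S.a i * dy i)) / S.B = m j * x + R / S.B := by
      rw [hxe, hR]
      rw [mul_div_assoc', ← add_div, Finset.mul_sum, ← Finset.sum_add_distrib]
      congr 1
      exact Finset.sum_congr rfl fun i _ => by ring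
    -- bound for R
    have hR2 : R ^ 2 ≤ (ε * m j) ^ 2 * (S.n j * T) := by
      have hcs := Finset.sum_mul_sq_le_sq_mul_sq (S.A j)
        (fun i => (w i - m j) * Real.sqrt (S.a i)) (fun i => Real.sqrt (S.a i) * dy i)
      have e1 : ∀ i, (w i - m j) * Real.sqrt (S.a i) * (Real.sqrt (S.a i) * dy i) =
          (w i - m j) * (S.a i * dy i) := fun i => by
        have := Real.mul_self_sqrt (S.a_pos i).le
        calc (w i - m j) * Real.sqrt (S.a i) * (Real.sqrt (S.a i) * dy i) =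
            (w i - m j) * ((Real.sqrt (S.a i) * Real.sqrt (S.a i)) * dy i) := by ring
          _ = _ := by rw [this]
      have e3 : ∀ i, (Real.sqrt (S.a i) * dy i) ^ 2 = S.a i * dy i ^ 2 := fun i => by
        rw [mul_pow, Real.sq_sqrt (S.a_pos i).le]
      simp only [e1, e3] at hcs
      rw [← hR, ← hT] at hcs
      refine hcs.trans ?_
      rw [← mul_assoc]
      refine mul_le_mul_of_nonneg_right ?_ hT0
      unfold n
      rw [Finset.mul_sum]
      refine Finset.sum_le_sum fun i hi => ?_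
      rw [mul_pow, Real.sq_sqrt (S.a_pos i).le]
      refine mul_le_mul_of_nonneg_right ?_ (S.a_pos i).le
      have c1 := hmw j i hi
      have c2 := hwm j i hi
      have c3 : 0 ≤ w i - m j := by linarith
      have c4 : w i - m j ≤ ε * m j := by linarith
      gcongr
    -- conclude
    have hmj := hm j
    have hkey : dP j * (R / S.B) ≥ - (m j * (x * dP j) + S.p.Q * ε ^ 2 / 4 * m j * T) := by
      -- |dP R/B| ≤ sqrt(Q x dP) * ε m sqrt(T)
      have hb1 : (dP j * (R / S.B)) ^ 2 ≤ (S.p.Q * (x * dP j)) * ((ε * m j) ^ 2 * T) := by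
        have hb2 : (R / S.B) ^ 2 ≤ (ε * m j) ^ 2 * T := by
          rw [div_pow, div_le_iff₀ (by positivity)]
          refine hR2.trans ?_
          have := hn j
          have hn0 := S.n_nonneg j
          calc (ε * m j) ^ 2 * (S.n j * T) ≤ (ε * m j) ^ 2 * (S.B ^ 2 * T) := by gcongr
            _ = _ := by ring
        rw [mul_pow]
        have : 0 ≤ (R / S.B) ^ 2 := sq_nonneg _
        have h00 : 0 ≤ S.p.Q * (x * dP j) := mul_nonneg S.p.Q_nonneg hP
        exact mul_le_mul hL hb2 this h00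
      -- AM-GM
      have hb3 : (S.p.Q * (x * dP j)) * ((ε * m j) ^ 2 * T) ≤
          (m j * (x * dP j) + S.p.Q * ε ^ 2 / 4 * m j * T) ^ 2 := by
        have := sq_nonneg (m j * (x * dP j) - S.p.Q * ε ^ 2 / 4 * m j * T)
        nlinarith
      have hb4 : 0 ≤ m j * (x * dP j) + S.p.Q * ε ^ 2 / 4 * m j * T := by
        have := S.p.Q_nonneg
        positivity
      have := abs_le_of_sq_le_sq (hb1.trans hb3) hb4
      exact (abs_le.1 this).1
    have hmT : m j * T ≤ ∑ i ∈ S.A j, w i * (S.a i * dy i ^ 2) := by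
      rw [hT, Finset.mul_sum]
      refine Finset.sum_le_sum fun i hi => ?_
      exact mul_le_mul_of_nonneg_right (hmw j i hi) (mul_nonneg (S.a_pos i).le (sq_nonneg _))
    rw [hsplit]
    have hQe : 0 ≤ S.p.Q * ε ^ 2 / 4 := by
      have := S.p.Q_nonneg
      positivity
    have := mul_le_mul_of_nonneg_left hmT hQe
    nlinarith
  -- sum over rows
  have hsum : - (S.p.Q * ε ^ 2 / 4) * (t * ∑ i, w i * (S.a i * dy i ^ 2)) ≤
      ∑ j, dP j * ((∑ i ∈ S.A j, w i * (S.a i * dy i)) / S.B) := by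
    refine le_trans ?_ (Finset.sum_le_sum fun j _ => hrow j)
    rw [← Finset.mul_sum]
    have hQe : 0 ≤ S.p.Q * ε ^ 2 / 4 := by
      have := S.p.Q_nonneg
      positivity
    have hdc : ∑ j, ∑ i ∈ S.A j, w i * (S.a i * dy i ^ 2) ≤
        t * ∑ i, w i * (S.a i * dy i ^ 2) := by
      have e1 : ∀ j, ∑ i ∈ S.A j, w i * (S.a i * dy i ^ 2) =
          ∑ i, if i ∈ S.A j then w i * (S.a i * dy i ^ 2) else 0 := by
        intro j
        rw [← Finset.sum_filter]
        congr 1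
        ext; simp
      rw [Finset.sum_congr rfl fun j _ => e1 j, Finset.sum_comm, Finset.mul_sum]
      refine Finset.sum_le_sum fun i _ => ?_
      rw [← Finset.sum_filter, Finset.sum_const, nsmul_eq_mul]
      exact mul_le_mul_of_nonneg_right (hdeg i)
        (mul_nonneg (hw i) (mul_nonneg (S.a_pos i).le (sq_nonneg _)))
    nlinarith
  have hE0 : 0 ≤ ∑ i, w i * (S.a i * dy i ^ 2) :=
    Finset.sum_nonneg fun i _ => mul_nonneg (hw i) (mul_nonneg (S.a_pos i).le (sq_nonneg _))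
  have h5 : - (1 / 2) * ∑ i, w i * (S.a i * dy i ^ 2) ≤
      ∑ j, dP j * ((∑ i ∈ S.A j, w i * (S.a i * dy i)) / S.B) := by
    refine le_trans ?_ hsum
    have := mul_le_mul_of_nonneg_right hQ hE0
    nlinarith
  -- right side
  have h6 : ∑ i, w i * (S.a i * ((g i - g' i) * dy i)) ≤
      1 / 4 * ∑ i, w i * (S.a i * dy i ^ 2) + ∑ i, w i * (S.a i * (g i - g' i) ^ 2) := by
    rw [Finset.mul_sum, ← Finset.sum_add_distrib]
    refine Finset.sum_le_sum fun i _ => ?_
    have h0 := mul_nonneg (hw i) (S.a_pos i).le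
    have := mul_nonneg h0 (sq_nonneg ((g i - g' i) - dy i / 2))
    nlinarith
  linarith

end Sys

end Pool.Agent.Helper62.Disc
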