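import Pool.Agent.Helper62.Disc.Hi

/-!
# Row sums are bounded with very high probability
-/

open Finset MeasureTheory ProbabilityTheory

namespace Pool.Agent.Helper62.Disc

namespace Sys

variable {ι κ : Type*} [Fintype ι] [DecidableEq ι] [Fintype κ] [DecidableEq κ] (S : Sys ι κ)

/-- overlap weights -/
noncomputable def cc (j j' : κ) : ℝ := if j' = j then 0 else ∑ i ∈ S.A j ∩ S.A j', S.a i ^ 2

lemma cc_nonneg (j j' : κ) : 0 ≤ S.cc j j' := by
  unfold cc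
  split_ifs
  · exact le_rfl
  · exact Finset.sum_nonneg fun i _ => sq_nonneg _

section lin

variable (hlin : ∀ j j', j ≠ j' → (S.A j ∩ S.A j').card ≤ 1)

include hlin

lemma cc_le_one (j j' : κ) : S.cc j j' ≤ 1 := by
  unfold cc
  split_ifs with h
  · exact zero_le_one
  · calc ∑ i ∈ S.A j ∩ S.A j', S.a i ^ 2 ≤ ∑ _i ∈ S.A j ∩ S.A j', (1 : ℝ) := by
          refine Finset.sum_le_sum fun i _ => ?_
          exact pow_le_one₀ (S.a_pos i).le (S.a_le i)
      _ = ((S.A j ∩ S.A j').card : ℝ) := by simp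
      _ ≤ 1 := by exact_mod_cast hlin j j' (Ne.symm h)

end lin

lemma cc_sum {t : ℝ} (hdeg : ∀ i, ((Finset.univ.filter fun j => i ∈ S.A j).card : ℝ) ≤ t)
    (j : κ) : ∑ j', S.cc j j' ≤ t * S.n j := by
  have h1 : ∀ j', S.cc j j' ≤ ∑ i ∈ S.A j, if i ∈ S.A j' then S.a i else 0 := by
    intro j'
    unfold cc
    split_ifs with h
    · exact Finset.sum_nonneg fun i _ => by
        split_ifs
        · exact (S.a_pos i).le
        · exact le_rfl
    · rw [← Finset.sum_filter, Finset.filter_mem_eq_inter]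
      refine Finset.sum_le_sum fun i _ => ?_
      have := S.a_pos i
      have := S.a_le i
      nlinarith
  refine (Finset.sum_le_sum fun j' _ => h1 j').trans ?_
  rw [Finset.sum_comm]
  unfold n
  rw [Finset.mul_sum]
  refine Finset.sum_le_sum fun i _ => ?_
  rw [← Finset.sum_filter, Finset.sum_const, nsmul_eq_mul]
  exact mul_le_mul_of_nonneg_right (hdeg i) (S.a_pos i).le

/-- the cubic energy seen by a row -/
noncomputable def N3 (j : κ) (g : ι → ℝ) : ℝ :=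
  ∑ j', S.cc j j' * |S.p.G (S.xi (S.yy g) j')| ^ 3

lemma N3_nonneg (j : κ) (g : ι → ℝ) : 0 ≤ S.N3 j g :=
  Finset.sum_nonneg fun j' _ => mul_nonneg (S.cc_nonneg j j') (by positivity)

/-- its cube root -/
noncomputable def NN (j : κ) (g : ι → ℝ) : ℝ := (S.N3 j g) ^ ((1 : ℝ) / 3)

lemma NN_nonneg (j : κ) (g : ι → ℝ) : 0 ≤ S.NN j g := Real.rpow_nonneg (S.N3_nonneg j g) _

lemma NN_cube (j : κ) (g : ι → ℝ) : S.NN j g ^ 3 = S.N3 j g := by
  unfold NN
  rw [← Real.rpow_natCast, ← Real.rpow_mul (S.N3_nonneg j g)]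
  norm_num

/-- `ℓ³ ≤ ℓ²` -/
lemma l3_le_l2 {κ : Type*} (T : Finset κ) (v : κ → ℝ) :
    (∑ j ∈ T, |v j| ^ (3 : ℝ)) ^ ((1 : ℝ) / 3) ≤ Real.sqrt (∑ j ∈ T, v j ^ 2) := by
  set Q := ∑ j ∈ T, v j ^ 2 with hQ
  have hQ0 : 0 ≤ Q := Finset.sum_nonneg fun j _ => sq_nonneg _
  have h1 : ∑ j ∈ T, |v j| ^ (3 : ℝ) ≤ (Real.sqrt Q) ^ 3 := by
    have h2 : ∀ j ∈ T, |v j| ^ (3 : ℝ) ≤ Real.sqrt Q * v j ^ 2 := by
      intro j hj
      have h3 : |v j| ≤ Real.sqrt Q := by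
        apply Real.abs_le_sqrt
        exact Finset.single_le_sum (f := fun j => v j ^ 2) (fun k _ => sq_nonneg _) hj
      have e : |v j| ^ (3 : ℝ) = |v j| * v j ^ 2 := by
        rw [show (3 : ℝ) = ((3 : ℕ) : ℝ) by norm_num, Real.rpow_natCast, ← sq_abs (v j)]
        ring
      rw [e]
      gcongr
    refine (Finset.sum_le_sum h2).trans ?_
    rw [← Finset.mul_sum, ← hQ]
    have := Real.mul_self_sqrt hQ0
    have e : (Real.sqrt Q) ^ 3 = Real.sqrt Q * (Real.sqrt Q * Real.sqrt Q) := by ring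
    rw [e, this]
  have h0 : 0 ≤ ∑ j ∈ T, |v j| ^ (3 : ℝ) :=
    Finset.sum_nonneg fun j _ => Real.rpow_nonneg (abs_nonneg _) _
  calc (∑ j ∈ T, |v j| ^ (3 : ℝ)) ^ ((1 : ℝ) / 3) ≤ ((Real.sqrt Q) ^ 3) ^ ((1 : ℝ) / 3) :=
        Real.rpow_le_rpow h0 h1 (by norm_num)
    _ = Real.sqrt Q := by
        rw [← Real.rpow_natCast, ← Real.rpow_mul (Real.sqrt_nonneg _)]
        norm_num

lemma NN_lip_aux (hlin : ∀ j j', j ≠ j' → (S.A j ∩ S.A j').card ≤ 1) (j : κ) (g g' : ι → ℝ) :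
    S.NN j g - S.NN j g' ≤ Real.sqrt (1 / 4 * ∑ i, (g i - g' i) ^ 2) := by
  set w : κ → ℝ := fun j' => S.cc j j' ^ ((1 : ℝ) / 3) with hw
  have hw0 : ∀ j', 0 ≤ w j' := fun j' => Real.rpow_nonneg (S.cc_nonneg j j') _
  have hw1 : ∀ j', w j' ≤ 1 := fun j' =>
    Real.rpow_le_one (S.cc_nonneg j j') (S.cc_le_one hlin j j') (by norm_num)
  have hw3 : ∀ j', w j' ^ (3 : ℝ) = S.cc j j' := fun j' => by
    rw [hw]
    simp only
    rw [← Real.rpow_mul (S.cc_nonneg j j')]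
    norm_num
  have hN : ∀ h : ι → ℝ, S.NN j h =
      (∑ j', |w j' * S.p.G (S.xi (S.yy h) j')| ^ (3 : ℝ)) ^ ((1 : ℝ) / 3) := by
    intro h
    unfold NN N3
    congr 1
    refine Finset.sum_congr rfl fun j' _ => ?_
    rw [abs_mul, abs_of_nonneg (hw0 j'), Real.mul_rpow (hw0 j') (abs_nonneg _), hw3]
    congr 1
    rw [show (3 : ℝ) = ((3 : ℕ) : ℝ) by norm_num, Real.rpow_natCast]
  set u : κ → ℝ := fun j' => w j' * S.p.G (S.xi (S.yy g') j') with hu
  set v : κ → ℝ := fun j' => w j' * (S.p.G (S.xi (S.yy g) j') - S.p.G (S.xi (S.yy g') j')) with hv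
  have hadd := Real.Lp_add_le Finset.univ u v (p := 3) (by norm_num)
  have e1 : ∀ j', u j' + v j' = w j' * S.p.G (S.xi (S.yy g) j') := fun j' => by
    simp only [hu, hv]; ring
  simp only [e1] at hadd
  rw [hN g, hN g']
  have h3 := l3_le_l2 Finset.univ v
  have h4 : ∑ j', v j' ^ 2 ≤ 1 / 4 * ∑ i, (g i - g' i) ^ 2 := by
    refine le_trans (Finset.sum_le_sum fun j' _ => ?_) (S.G_lip_sum g g')
    simp only [hv]
    rw [mul_pow]
    have : w j' ^ 2 ≤ 1 := pow_le_one₀ (hw0 j') (hw1 j')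
    exact mul_le_of_le_one_left (sq_nonneg _) this
  have h5 := Real.sqrt_le_sqrt h4
  linarith

lemma NN_lip (hlin : ∀ j j', j ≠ j' → (S.A j ∩ S.A j').card ≤ 1) (j : κ) :
    LipOn (1 / 4) (S.NN j) Set.univ := by
  intro g _ g' _
  have h1 := S.NN_lip_aux hlin j g g'
  have h2 := S.NN_lip_aux hlin j g' g
  have e : ∑ i, (g' i - g i) ^ 2 = ∑ i, (g i - g' i) ^ 2 :=
    Finset.sum_congr rfl fun i _ => by ring
  rw [e] at h2
  have h3 : |S.NN j g - S.NN j g'| ≤ Real.sqrt (1 / 4 * ∑ i, (g i - g' i) ^ 2) := by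
    rw [abs_le]
    constructor <;> linarith
  have h0 : 0 ≤ 1 / 4 * ∑ i, (g i - g' i) ^ 2 :=
    mul_nonneg (by norm_num) (Finset.sum_nonneg fun i _ => sq_nonneg _)
  calc (S.NN j g - S.NN j g') ^ 2 = |S.NN j g - S.NN j g'| ^ 2 := (sq_abs _).symm
    _ ≤ (Real.sqrt (1 / 4 * ∑ i, (g i - g' i) ^ 2)) ^ 2 := by gcongr
    _ = _ := Real.sq_sqrt h0

/-- the energy seen by a row -/
noncomputable def RR (j : κ) (g : ι → ℝ) : ℝ :=
  ∑ j', S.cc j j' / S.B ^ 2 * S.kap (S.yy g) j'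

lemma RR_le {t : ℝ} (hdeg : ∀ i, ((Finset.univ.filter fun j => i ∈ S.A j).card : ℝ) ≤ t)
    (j : κ) (g : ι → ℝ) :
    S.RR j g ≤ S.p.k1 / S.B ^ 2 * S.N3 j g + S.p.k0 / S.B ^ 2 * (t * S.n j) := by
  have h1 : S.RR j g = S.p.k1 / S.B ^ 2 * S.N3 j g + S.p.k0 / S.B ^ 2 * ∑ j', S.cc j j' := by
    unfold RR N3 kap
    rw [Finset.mul_sum, Finset.mul_sum, ← Finset.sum_add_distrib]
    exact Finset.sum_congr rfl fun j' _ => by ring
  rw [h1]
  have h2 := S.cc_sum hdeg j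
  have h3 : 0 ≤ S.p.k0 / S.B ^ 2 := by
    have := S.p.k0_nonneg
    positivity
  gcongr

lemma RR_neg (j : κ) (g : ι → ℝ) : S.RR j (-g) = S.RR j g := by
  unfold RR
  exact Finset.sum_congr rfl fun j' _ => by rw [kap_neg]

section tailN

variable {M t : ℝ} (hM : 0 < M) (hn : ∀ j, S.n j ≤ M)
  (hdeg : ∀ i, ((Finset.univ.filter fun j => i ∈ S.A j).card : ℝ) ≤ t)
  (hlin : ∀ j j', j ≠ j' → (S.A j ∩ S.A j').card ≤ 1)

include hM hn hdeg

lemma N3_int (j : κ) : Integrable (S.N3 j) (gam ι) ∧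
    ∫ g, S.N3 j g ∂(gam ι) ≤ t * S.n j * e3 S.B M := by
  have hi : ∀ j' ∈ (Finset.univ : Finset κ),
      Integrable (fun g => S.cc j j' * |S.p.G (S.xi (S.yy g) j')| ^ 3) (gam ι) :=
    fun j' _ => (S.G_third hM hn j').1.const_mul _
  refine ⟨integrable_finsetSum _ hi, ?_⟩
  unfold N3
  rw [integral_finsetSum _ hi]
  have h1 : ∀ j' ∈ (Finset.univ : Finset κ),
      ∫ g, S.cc j j' * |S.p.G (S.xi (S.yy g) j')| ^ 3 ∂(gam ι) ≤ S.cc j j' * e3 S.B M := by
    intro j' _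
    rw [integral_const_mul]
    exact mul_le_mul_of_nonneg_left (S.G_third hM hn j').2 (S.cc_nonneg j j')
  refine (Finset.sum_le_sum h1).trans ?_
  rw [← Finset.sum_mul]
  have h2 := S.cc_sum hdeg j
  have h3 : 0 ≤ e3 S.B M := by unfold e3; positivity
  gcongr

include hlin

/-- the energy seen by a row is at most `n j` with very high probability -/
lemma RR_tail (hk1 : 0 < S.p.k1)
    (hpar : t * (S.p.k1 * e3 S.B M + S.p.k0) / S.B ^ 2 ≤ 1 / 160000)
    {ρ0 : ℝ} (hρ : 0 ≤ ρ0) (hρ3 : ρ0 ^ 3 ≤ S.B ^ 3 / S.p.k1) (j : κ) (hj : 2 * S.B ≤ S.n j) :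
    (gam ι).real {g | S.n j < S.RR j g} ≤ Real.exp (-ρ0 ^ 2 / 5) := by
  have hB := S.B_pos
  have hnj : 0 < S.n j := by linarith
  have he3 : 0 < e3 S.B M := by unfold e3; positivity
  -- split parameter condition
  have ht0 : 0 ≤ t := by
    have h1 : (0 : ℝ) ≤ t * S.n j :=
      le_trans (Finset.sum_nonneg fun j' _ => S.cc_nonneg j j') (S.cc_sum hdeg j)
    exact nonneg_of_mul_nonneg_left h1 hnj
  have hp1 : t * S.p.k1 * e3 S.B M ≤ S.B ^ 2 / 160000 := by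
    have h1 : t * (S.p.k1 * e3 S.B M + S.p.k0) ≤ 1 / 160000 * S.B ^ 2 := by
      rwa [div_le_iff₀ (by positivity)] at hpar
    have h2 : 0 ≤ t * S.p.k0 := mul_nonneg ht0 S.p.k0_nonneg
    nlinarith
  have hp2 : t * S.p.k0 ≤ S.B ^ 2 / 160000 := by
    have h1 : t * (S.p.k1 * e3 S.B M + S.p.k0) ≤ 1 / 160000 * S.B ^ 2 := by
      rwa [div_le_iff₀ (by positivity)] at hpar
    have h2 : 0 ≤ t * (S.p.k1 * e3 S.B M) := by positivity
    nlinarith
  set V := S.B ^ 2 * S.n j / (2 * S.p.k1) with hV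
  have hV0 : 0 < V := by positivity
  set ρ := V ^ ((1 : ℝ) / 3) with hρdef
  have hρ0 : 0 < ρ := Real.rpow_pos_of_pos hV0 _
  have hρcube : ρ ^ 3 = V := by
    rw [hρdef, ← Real.rpow_natCast, ← Real.rpow_mul hV0.le]
    norm_num
  have hρle : ρ0 ≤ ρ := by
    refine le_of_pow_le_pow_left₀ (three_ne_zero) hρ0.le ?_
    rw [hρcube]
    refine hρ3.trans ?_
    rw [hV, div_le_div_iff₀ hk1 (by positivity)]
    have : S.B ^ 2 * (2 * S.B) ≤ S.B ^ 2 * S.n j := by gcongr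
    nlinarith
  -- event inclusion
  have hsub : {g : ι → ℝ | S.n j < S.RR j g} ⊆ {g | ρ ≤ S.NN j g} := by
    intro g hg
    simp only [Set.mem_ofPred_eq] at hg ⊢
    by_contra hcon
    push Not at hcon
    have h1 : S.N3 j g ≤ V := by
      rw [← S.NN_cube, ← hρcube]
      have := S.NN_nonneg j g
      gcongr
    have h2 := S.RR_le hdeg j g
    have h3 : S.p.k1 / S.B ^ 2 * S.N3 j g ≤ S.n j / 2 := by
      calc S.p.k1 / S.B ^ 2 * S.N3 j g ≤ S.p.k1 / S.B ^ 2 * V := by gcongr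
        _ = S.n j / 2 := by rw [hV]; field_simp
    have h4 : S.p.k0 / S.B ^ 2 * (t * S.n j) ≤ S.n j / 160000 := by
      have e : S.p.k0 / S.B ^ 2 * (t * S.n j) = (t * S.p.k0) * (S.n j / S.B ^ 2) := by
        field_simp
      rw [e]
      calc (t * S.p.k0) * (S.n j / S.B ^ 2) ≤ (S.B ^ 2 / 160000) * (S.n j / S.B ^ 2) := by gcongr
        _ = _ := by field_simp
    linarith
  -- mean of NN
  obtain ⟨iN3, hN3⟩ := S.N3_int hM hn hdeg j
  have hmean : ∫ g, S.NN j g ∂(gam ι) ≤ ρ / 2 := by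
    have hpt : ∀ g, S.NN j g ≤ (S.N3 j g + 2 * (ρ / 2) ^ 3) / (3 * (ρ / 2) ^ 2) := by
      intro g
      rw [le_div_iff₀ (by positivity), ← S.NN_cube]
      have h0 := S.NN_nonneg j g
      nlinarith [mul_nonneg (sq_nonneg (S.NN j g - ρ / 2)) (by positivity : 0 ≤ S.NN j g + ρ)]
    have i2 : Integrable (fun g => (S.N3 j g + 2 * (ρ / 2) ^ 3) / (3 * (ρ / 2) ^ 2)) (gam ι) :=
      (iN3.add (integrable_const _)).div_const _
    have h1 := integral_mono (integrable_lip (by norm_num) (S.NN_lip hlin j)) i2 hpt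
    refine h1.trans ?_
    rw [integral_div, integral_add iN3 (integrable_const _)]
    simp only [integral_const, probReal_univ, smul_eq_mul, one_mul]
    rw [div_le_iff₀ (by positivity)]
    have h2 : t * S.n j * e3 S.B M ≤ (ρ / 2) ^ 3 := by
      have : (ρ / 2) ^ 3 = V / 8 := by rw [div_pow, hρcube]; norm_num
      rw [this, hV]
      rw [div_div, le_div_iff₀ (by positivity)]
      calc t * S.n j * e3 S.B M * (2 * S.p.k1 * 8) = (t * S.p.k1 * e3 S.B M) * (16 * S.n j) := by ring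
        _ ≤ (S.B ^ 2 / 160000) * (16 * S.n j) := by gcongr
        _ ≤ S.B ^ 2 * S.n j := by
            have : 0 ≤ S.B ^ 2 * S.n j := by positivity
            nlinarith
    have h3 : ρ / 2 * (3 * (ρ / 2) ^ 2) = 3 * (ρ / 2) ^ 3 := by ring
    rw [h3]
    linarith
  have htail := tail (by norm_num) (S.NN_lip hlin j) (u := ρ / 2) (by positivity)
  have hsub2 : {g : ι → ℝ | ρ ≤ S.NN j g} ⊆ {g | ρ / 2 ≤ S.NN j g - ∫ g', S.NN j g' ∂(gam ι)} := by
    intro g hg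
    simp only [Set.mem_ofPred_eq] at hg ⊢
    linarith
  refine ((measureReal_mono hsub).trans (measureReal_mono hsub2)).trans (htail.trans ?_)
  apply Real.exp_le_exp.2
  have : ρ0 ^ 2 ≤ ρ ^ 2 := by gcongr
  rw [div_le_div_iff₀ (by norm_num) (by norm_num)]
  nlinarith

end tailN

end Sys

end Pool.Agent.Helper62.Disc
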