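import Pool.Agent.Helper62.Disc.Row

/-!
# Row sums are bounded with very high probability, part 2
-/

open Finset MeasureTheory ProbabilityTheory

namespace Pool.Agent.Helper62.Disc

namespace Sys

variable {ι κ : Type*} [Fintype ι] [DecidableEq ι] [Fintype κ] [DecidableEq κ] (S : Sys ι κ)

/-- coefficients of the drift caused by the other rows -/
noncomputable def cO (j : κ) (i : ι) (j' : κ) : ℝ := if j' = j then 0 else S.cY i j'

/-- the drift at `i` caused by the rows other than `j` -/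
noncomputable def YO (j : κ) (y : ι → ℝ) (i : ι) : ℝ := ∑ j', S.cO j i j' * S.p.Phi (S.xi y j')

lemma Y_eq_YO (j : κ) (y : ι → ℝ) (i : ι) (hi : i ∈ S.A j) :
    S.Y y i = S.p.Phi (S.xi y j) / S.B + S.YO j y i := by
  rw [Y_eq]
  unfold YO
  have h1 : ∀ j', S.cY i j' * S.p.Phi (S.xi y j') =
      (if j' = j then S.p.Phi (S.xi y j) / S.B else 0) + S.cO j i j' * S.p.Phi (S.xi y j') := by
    intro j'
    unfold cO
    split_ifs with h
    · subst h
      unfold cY
      rw [if_pos hi]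
      ring
    · ring
  rw [Finset.sum_congr rfl fun j' _ => h1 j', Finset.sum_add_distrib]
  simp

lemma YO_neg (j : κ) (g : ι → ℝ) (i : ι) : S.YO j (S.yy (-g)) i = - S.YO j (S.yy g) i := by
  unfold YO
  rw [← Finset.sum_neg_distrib]
  refine Finset.sum_congr rfl fun j' _ => ?_
  rw [Phi_yy_neg]
  ring

/-- deterministic row bound -/
lemma row_det {g y : ι → ℝ} (h : S.IsOpt g y) (j : κ) {U : ℝ}
    (hF : 1 < S.p.Phi 2 / S.B)
    (hU : ∑ i ∈ S.A j, S.a i * |g i - S.YO j y i| ≤ U)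
    (hUn : 2 * U ≤ S.n j * (S.p.Phi 2 / S.B - 1)) : S.s y j ≤ 2 * S.B := by
  by_contra hcon
  push Not at hcon
  have hB := S.B_pos
  have hxi : 2 ≤ S.xi y j := by
    unfold xi
    rw [le_div_iff₀ hB]
    exact hcon.le
  set F := S.p.Phi 2 / S.B with hFdef
  have hPhi : F ≤ S.p.Phi (S.xi y j) / S.B := by
    rw [hFdef]
    have := S.p.Phi_monotone hxi
    gcongr
  have hF1 : 0 < F - 1 := by linarith
  have hy : ∀ i ∈ S.A j, y i ≤ -1 + 2 * |g i - S.YO j y i| / (F - 1) := by
    intro i hi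
    have hb := abs_le.1 (h.1 i)
    have hz : 0 ≤ 2 * |g i - S.YO j y i| / (F - 1) := by positivity
    rcases eq_or_lt_of_le hb.1 with h2 | h2
    · rw [← h2]; linarith
    · have h3 := h.2 i (-1) (by simp)
      have h4 : y i - g i + S.Y y i ≤ 0 := by
        by_contra hc
        push Not at hc
        have : (-1 - y i) * (y i - g i + S.Y y i) < 0 := mul_neg_of_neg_of_pos (by linarith) hc
        linarith
      rw [S.Y_eq_YO j y i hi] at h4
      have h5 : F - 1 ≤ |g i - S.YO j y i| := by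
        refine le_trans ?_ (le_abs_self _)
        linarith
      have h6 : 2 ≤ 2 * |g i - S.YO j y i| / (F - 1) := by
        rw [le_div_iff₀ hF1]
        linarith
      linarith [hb.2]
  have hs : S.s y j ≤ - S.n j + 2 / (F - 1) * ∑ i ∈ S.A j, S.a i * |g i - S.YO j y i| := by
    unfold Sys.s n
    rw [Finset.mul_sum, ← Finset.sum_neg_distrib, ← Finset.sum_add_distrib]
    refine Finset.sum_le_sum fun i hi => ?_
    have h1 := mul_le_mul_of_nonneg_left (hy i hi) (S.a_pos i).le
    calc S.a i * y i ≤ _ := h1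
      _ = _ := by ring
  have h7 : 2 / (F - 1) * ∑ i ∈ S.A j, S.a i * |g i - S.YO j y i| ≤ S.n j := by
    calc 2 / (F - 1) * ∑ i ∈ S.A j, S.a i * |g i - S.YO j y i| ≤ 2 / (F - 1) * U := by gcongr
      _ = 2 * U / (F - 1) := by ring
      _ ≤ S.n j := by
        rw [div_le_iff₀ hF1]
        exact hUn
  linarith

/-- sign vector of a set -/
noncomputable def sg (P : Finset ι) (i : ι) : ℝ := if i ∈ P then 1 else -1

omit [Fintype ι] in
lemma sg_sq (P : Finset ι) (i : ι) : sg P i ^ 2 = 1 := by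
  unfold sg
  split_ifs <;> norm_num

/-- signed sums of the forces on a row -/
noncomputable def FP (j : κ) (P : Finset ι) (g : ι → ℝ) : ℝ :=
  ∑ i ∈ S.A j, sg P i * S.a i * (g i - S.YO j (S.yy g) i)

lemma FP_neg (j : κ) (P : Finset ι) (g : ι → ℝ) : S.FP j P (-g) = - S.FP j P g := by
  unfold FP
  rw [← Finset.sum_neg_distrib]
  refine Finset.sum_congr rfl fun i _ => ?_
  rw [YO_neg]
  simp only [Pi.neg_apply]
  ring

lemma FP_lip (hlin : ∀ j j', j ≠ j' → (S.A j ∩ S.A j').card ≤ 1) (j : κ) (P : Finset ι) :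
    LipOn (3 * S.n j) (S.FP j P) {g | S.RR j g ≤ S.n j} := by
  intro g hg g' hg'
  set D := ∑ i, (g i - g' i) ^ 2 with hD
  have hD0 : 0 ≤ D := Finset.sum_nonneg fun i _ => sq_nonneg _
  -- first part
  set E1 := ∑ i ∈ S.A j, sg P i * S.a i * (g i - g' i) with hE1
  have h1 : E1 ^ 2 ≤ S.n j * D := by
    have hcs := Finset.sum_mul_sq_le_sq_mul_sq (S.A j) (fun i => sg P i * S.a i)
      (fun i => g i - g' i)
    rw [← hE1] at hcs
    refine hcs.trans ?_
    have c1 : ∑ i ∈ S.A j, (sg P i * S.a i) ^ 2 ≤ S.n j := by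
      unfold n
      refine Finset.sum_le_sum fun i _ => ?_
      rw [mul_pow, sg_sq, one_mul]
      have := S.a_pos i
      have := S.a_le i
      nlinarith
    have c2 : ∑ i ∈ S.A j, (g i - g' i) ^ 2 ≤ D :=
      Finset.sum_le_sum_of_subset_of_nonneg (Finset.subset_univ _) fun i _ _ => sq_nonneg _
    have c3 : 0 ≤ ∑ i ∈ S.A j, (g i - g' i) ^ 2 := Finset.sum_nonneg fun i _ => sq_nonneg _
    have c4 := S.n_nonneg j
    gcongr
  -- second part
  set C : κ → ℝ := fun j' => ∑ i ∈ S.A j, sg P i * S.a i * S.cO j i j' with hC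
  set E2 := ∑ j', C j' * (S.p.Phi (S.xi (S.yy g) j') - S.p.Phi (S.xi (S.yy g') j')) with hE2
  have hC2 : ∀ j', C j' ^ 2 ≤ S.cc j j' / S.B ^ 2 := by
    intro j'
    simp only [hC]
    unfold cO cc
    by_cases hj : j' = j
    · simp [hj]
    · simp only [if_neg hj]
      unfold cY
      have e1 : ∑ i ∈ S.A j, sg P i * S.a i * (if i ∈ S.A j' then 1 / S.B else 0) =
          ∑ i ∈ S.A j ∩ S.A j', sg P i * S.a i / S.B := by
        rw [← Finset.filter_mem_eq_inter, Finset.sum_filter]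
        refine Finset.sum_congr rfl fun i _ => ?_
        split_ifs
        · ring
        · ring
      rw [e1]
      have h2 := sq_sum_le_card_mul_sum_sq (s := S.A j ∩ S.A j')
        (f := fun i => sg P i * S.a i / S.B)
      refine h2.trans ?_
      have h3 : ((S.A j ∩ S.A j').card : ℝ) ≤ 1 := by exact_mod_cast hlin j j' (Ne.symm hj)
      have h4 : ∑ i ∈ S.A j ∩ S.A j', (sg P i * S.a i / S.B) ^ 2 =
          (∑ i ∈ S.A j ∩ S.A j', S.a i ^ 2) / S.B ^ 2 := by
        rw [Finset.sum_div]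
        refine Finset.sum_congr rfl fun i _ => ?_
        rw [div_pow, mul_pow, sg_sq, one_mul]
      rw [h4]
      have h5 : 0 ≤ (∑ i ∈ S.A j ∩ S.A j', S.a i ^ 2) / S.B ^ 2 := by positivity
      exact mul_le_of_le_one_left h5 h3
  have h2 : E2 ^ 2 ≤ S.n j / 2 * D := by
    refine (S.lin_Phi_lip C g g').trans ?_
    have c1 : ∀ h : ι → ℝ, ∑ j', C j' ^ 2 * S.kap (S.yy h) j' ≤ S.RR j h := by
      intro h
      unfold RR
      refine Finset.sum_le_sum fun j' _ => ?_
      exact mul_le_mul_of_nonneg_right (hC2 j') (S.kap_nonneg _ _)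
    have c2 : S.RR j g ≤ S.n j := hg
    have c3 : S.RR j g' ≤ S.n j := hg'
    have c4 := c1 g
    have c5 := c1 g'
    calc _ ≤ (S.n j + S.n j) * (1 / 4 * D) := by
          gcongr
          · exact c4.trans c2
          · exact c5.trans c3
      _ = _ := by ring
  have hdiff : S.FP j P g - S.FP j P g' = E1 - E2 := by
    have e2 : E2 = ∑ i ∈ S.A j, sg P i * S.a i * (S.YO j (S.yy g) i - S.YO j (S.yy g') i) := by
      simp only [hE2, hC]
      have e3 : ∀ i, S.YO j (S.yy g) i - S.YO j (S.yy g') i =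
          ∑ j', S.cO j i j' * (S.p.Phi (S.xi (S.yy g) j') - S.p.Phi (S.xi (S.yy g') j')) := by
        intro i
        unfold YO
        rw [← Finset.sum_sub_distrib]
        exact Finset.sum_congr rfl fun j' _ => by ring
      simp only [e3, Finset.mul_sum, Finset.sum_mul]
      rw [Finset.sum_comm]
      refine Finset.sum_congr rfl fun i _ => Finset.sum_congr rfl fun j' _ => by ring
    rw [e2, hE1]
    unfold FP
    rw [← Finset.sum_sub_distrib, ← Finset.sum_sub_distrib]
    exact Finset.sum_congr rfl fun i _ => by ring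
  rw [hdiff]
  nlinarith [sq_nonneg (E1 + E2), mul_nonneg (S.n_nonneg j) hD0]

lemma abs_sum_eq_FP (j : κ) (g : ι → ℝ) : ∃ P ∈ (S.A j).powerset,
    ∑ i ∈ S.A j, S.a i * |g i - S.YO j (S.yy g) i| = S.FP j P g := by
  refine ⟨(S.A j).filter (fun i => 0 ≤ g i - S.YO j (S.yy g) i),
    Finset.mem_powerset.2 (Finset.filter_subset _ _), ?_⟩
  unfold FP
  refine Finset.sum_congr rfl fun i hi => ?_
  unfold sg
  by_cases h : 0 ≤ g i - S.YO j (S.yy g) i
  · rw [if_pos (by simp only [Finset.mem_filter]; exact ⟨hi, h⟩), abs_of_nonneg h]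
    ring
  · rw [if_neg (by simp only [Finset.mem_filter]; exact fun hc => h hc.2),
      abs_of_neg (not_le.1 h)]
    ring

section final

variable {M : ℝ} {t : ℕ} (hM : 0 < M) (hn : ∀ j, S.n j ≤ M)
  (hcard : ∀ j, (S.A j).card ≤ t)
  (hdeg : ∀ i, ((Finset.univ.filter fun j => i ∈ S.A j).card : ℝ) ≤ t)
  (hlin : ∀ j j', j ≠ j' → (S.A j ∩ S.A j').card ≤ 1)

include hM hn hcard hdeg hlin

/-- Row sums are bounded off a very small event. -/
theorem row_tail (hk1 : 0 < S.p.k1)
    (hpar : (t : ℝ) * (S.p.k1 * e3 S.B M + S.p.k0) / S.B ^ 2 ≤ 1 / 160000)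
    {ρ0 : ℝ} (hρ : 0 ≤ ρ0) (hρ3 : ρ0 ^ 3 ≤ S.B ^ 3 / S.p.k1)
    (hF : 1 < S.p.Phi 2 / S.B)
    (hF2 : 40 * (t : ℝ) ≤ S.B * (S.p.Phi 2 / S.B - 1) ^ 2) (j : κ) :
    (gam ι).real {g | 2 * S.B < |S.s (S.yy g) j|} ≤
      Real.exp (-ρ0 ^ 2 / 5) + Real.exp (-(t : ℝ) / 3) := by
  have hB := S.B_pos
  by_cases hj : S.n j ≤ 2 * S.B
  · -- trivial row
    have hempty : {g : ι → ℝ | 2 * S.B < |S.s (S.yy g) j|} = ∅ := by
      ext g
      simp only [Set.mem_ofPred_eq, Set.mem_empty_iff_false, iff_false, not_lt]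
      refine le_trans ?_ hj
      unfold Sys.s n
      refine (Finset.abs_sum_le_sum_abs _ _).trans (Finset.sum_le_sum fun i _ => ?_)
      rw [abs_mul, abs_of_pos (S.a_pos i)]
      exact mul_le_of_le_one_right (S.a_pos i).le (S.yy_abs_le g i)
    rw [hempty]
    simp only [measureReal_empty]
    positivity
  push Not at hj
  have hnj : 0 < S.n j := by linarith
  set U := Real.sqrt (20 * S.n j * t) with hU
  have hU2 : U ^ 2 = 20 * S.n j * t := Real.sq_sqrt (by positivity)
  have hU0 : 0 ≤ U := Real.sqrt_nonneg _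
  have h1 := S.RR_tail hM hn hdeg hlin hk1 hpar hρ hρ3 j hj.le
  have hsub : {g : ι → ℝ | 2 * S.B < |S.s (S.yy g) j|} ⊆ {g | S.n j < S.RR j g} ∪
      ⋃ P ∈ (S.A j).powerset, {g | g ∈ {g | S.RR j g ≤ S.n j} ∧ U ≤ S.FP j P g} := by
    intro g hg
    by_cases hc : S.n j < S.RR j g
    · exact Or.inl hc
    right
    push Not at hc
    obtain ⟨P, hP, hPe⟩ := S.abs_sum_eq_FP j g
    simp only [Set.mem_iUnion]
    refine ⟨P, hP, hc, ?_⟩
    by_contra hcon
    push Not at hcon
    rw [← hPe] at hcon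
    have hUn : 2 * U ≤ S.n j * (S.p.Phi 2 / S.B - 1) := by
      have hF1 : 0 < S.p.Phi 2 / S.B - 1 := by linarith
      refine le_of_pow_le_pow_left₀ two_ne_zero (by positivity) ?_
      rw [mul_pow, hU2, mul_pow]
      have : 80 * (t : ℝ) ≤ S.n j * (S.p.Phi 2 / S.B - 1) ^ 2 := by
        calc 80 * (t : ℝ) ≤ 2 * (S.B * (S.p.Phi 2 / S.B - 1) ^ 2) := by linarith
          _ = (2 * S.B) * (S.p.Phi 2 / S.B - 1) ^ 2 := by ring
          _ ≤ _ := by gcongr
      have := mul_le_mul_of_nonneg_left this hnj.le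
      nlinarith
    have d1 := S.row_det (S.yy_opt g) j hF hcon.le hUn
    have d2 := S.row_det (S.yy_opt g).neg j (U := U) hF (by
      have e : ∀ i, S.YO j (-S.yy g) i = - S.YO j (S.yy g) i := fun i => by
        rw [← S.yy_neg, YO_neg]
      simp only [e, Pi.neg_apply]
      refine le_trans (le_of_eq ?_) hcon.le
      refine Finset.sum_congr rfl fun i _ => ?_
      rw [← abs_neg]
      congr 2
      ring) hUn
    rw [s_neg] at d2
    have : |S.s (S.yy g) j| ≤ 2 * S.B := by
      rw [abs_le]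
      constructor <;> linarith
    exact absurd hg (not_lt.2 this)
  have h2 : (gam ι).real (⋃ P ∈ (S.A j).powerset,
      {g | g ∈ {g | S.RR j g ≤ S.n j} ∧ U ≤ S.FP j P g}) ≤ Real.exp (-(t : ℝ) / 3) := by
    refine (measureReal_biUnion_finset_le _ _).trans ?_
    have h3 : ∀ P ∈ (S.A j).powerset,
        (gam ι).real {g | g ∈ {g | S.RR j g ≤ S.n j} ∧ U ≤ S.FP j P g} ≤
          Real.exp (-(4 / 3) * t) := by
      intro P _
      refine (tail_odd_on (L := 3 * S.n j) (by positivity) (S.FP_lip hlin j P)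
        (fun g => S.FP_neg j P g) (fun g hg => by
          simp only [Set.mem_ofPred_eq] at hg ⊢
          rwa [RR_neg]) hU0).trans (le_of_eq ?_)
      congr 1
      rw [hU2]
      field_simp
      ring
    refine (Finset.sum_le_sum h3).trans ?_
    rw [Finset.sum_const, nsmul_eq_mul, Finset.card_powerset]
    have h4 : ((2 ^ (S.A j).card : ℕ) : ℝ) ≤ Real.exp t := by
      push_cast
      calc (2 : ℝ) ^ (S.A j).card ≤ 2 ^ t := by
            apply pow_le_pow_right₀ (by norm_num) (hcard j)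
        _ ≤ (Real.exp 1) ^ t := by
            gcongr
            have := Real.add_one_le_exp (1 : ℝ)
            linarith
        _ = Real.exp t := by rw [← Real.exp_nat_mul, mul_one]
    calc ((2 ^ (S.A j).card : ℕ) : ℝ) * Real.exp (-(4 / 3) * t)
        ≤ Real.exp t * Real.exp (-(4 / 3) * t) := by gcongr
      _ = Real.exp (-(t : ℝ) / 3) := by
        rw [← Real.exp_add]
        congr 1
        ring
  have h5 := (measureReal_mono hsub (μ := gam ι)).trans (measureReal_union_le _ _)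
  linarith

end final

end Sys

end Pool.Agent.Helper62.Disc
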