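import Pool.Agent.Helper62.Disc.Ball
import Pool.Agent.Helper62.Disc.LLL

/-!
# Truncation by conditional expectation
-/

open Finset MeasureTheory ProbabilityTheory
open scoped ENNReal

namespace Pool.Agent.Helper62.Disc

section general

variable {ι : Type*} [Fintype ι] [DecidableEq ι]

/-- conditional expectation of `F` given the coordinates in `W` -/
noncomputable def ce (W : Finset ι) (F : (ι → ℝ) → ℝ) (g : ι → ℝ) : ℝ :=
  ∫ g', F (W.piecewise g g') ∂(gam ι)

lemma ce_dep (W : Finset ι) (F : (ι → ℝ) → ℝ) (g h : ι → ℝ) (hgh : ∀ i ∈ W, g i = h i) :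
    ce W F g = ce W F h := by
  unfold ce
  congr 1
  funext g'
  congr 1
  funext i
  by_cases hi : i ∈ W
  · simp [hi, hgh i hi]
  · simp [hi]

omit [Fintype ι] in
lemma continuous_piecewise_right (W : Finset ι) (g : ι → ℝ) :
    Continuous (fun g' : ι → ℝ => W.piecewise g g') := by
  refine continuous_pi fun i => ?_
  by_cases hi : i ∈ W
  · simp only [hi, Finset.piecewise_eq_of_mem]; fun_prop
  · simp only [hi, not_false_eq_true, Finset.piecewise_eq_of_notMem]; fun_prop

lemma ce_lip {L : ℝ} (hL : 0 ≤ L) {F : (ι → ℝ) → ℝ} (hF : LipOn L F Set.univ)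
    (hb : ∀ g, |F g| ≤ 1) (W : Finset ι) : LipOn L (ce W F) Set.univ := by
  intro g _ h _
  have hFc := hF.continuous hL
  have hint : ∀ g : ι → ℝ, Integrable (fun g' => F (W.piecewise g g')) (gam ι) := by
    intro g
    refine (integrable_const (1 : ℝ)).mono'
      (hFc.comp (continuous_piecewise_right W g)).aestronglyMeasurable ?_
    exact Filter.Eventually.of_forall fun g' => hb _
  unfold ce
  rw [← integral_sub (hint g) (hint h)]
  set R := L * ∑ i, (g i - h i) ^ 2 with hR
  have hR0 : 0 ≤ R := mul_nonneg hL (Finset.sum_nonneg fun i _ => sq_nonneg _)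
  have h1 : ∀ g', |F (W.piecewise g g') - F (W.piecewise h g')| ≤ Real.sqrt R := by
    intro g'
    apply Real.abs_le_sqrt
    refine (hF _ (Set.mem_univ _) _ (Set.mem_univ _)).trans ?_
    rw [hR]
    refine mul_le_mul_of_nonneg_left ?_ hL
    refine Finset.sum_le_sum fun i _ => ?_
    by_cases hi : i ∈ W
    · simp [hi]
    · simp [hi, sq_nonneg]
  have h2 : |∫ g', (F (W.piecewise g g') - F (W.piecewise h g')) ∂(gam ι)| ≤ Real.sqrt R := by
    rw [← Real.norm_eq_abs]
    refine (norm_integral_le_integral_norm _).trans ?_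
    calc ∫ g', ‖F (W.piecewise g g') - F (W.piecewise h g')‖ ∂(gam ι)
        ≤ ∫ _g', Real.sqrt R ∂(gam ι) := by
          refine integral_mono ((hint g).sub (hint h)).norm (integrable_const _) fun g' => ?_
          exact h1 g'
      _ = Real.sqrt R := by simp
  calc (∫ g', (F (W.piecewise g g') - F (W.piecewise h g')) ∂(gam ι)) ^ 2
      = |∫ g', (F (W.piecewise g g') - F (W.piecewise h g')) ∂(gam ι)| ^ 2 := (sq_abs _).symm
    _ ≤ (Real.sqrt R) ^ 2 := by gcongr
    _ = R := Real.sq_sqrt hR0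

lemma ce_abs_le {F : (ι → ℝ) → ℝ} (hb : ∀ g, |F g| ≤ 1) (W : Finset ι) (g : ι → ℝ) :
    |ce W F g| ≤ 1 := by
  unfold ce
  rw [← Real.norm_eq_abs]
  have := norm_integral_le_of_norm_le_const (μ := gam ι) (C := 1)
    (f := fun g' => F (W.piecewise g g')) (Filter.Eventually.of_forall fun g' => hb _)
  simpa using this

/-- If `F` hardly depends on the coordinates outside `W` then it is close to its conditional
expectation with very high probability. -/
theorem ce_tail {L β : ℝ} (hL : 0 ≤ L) (hβ : 0 < β) {F : (ι → ℝ) → ℝ} (hF : LipOn L F Set.univ)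
    (hb : ∀ g, |F g| ≤ 1) (W : Finset ι)
    (hW : ∀ g h : ι → ℝ, (∀ i ∈ W, g i = h i) → (F g - F h) ^ 2 ≤ β * ∑ i, (g i - h i) ^ 2)
    {u : ℝ} (hu : 0 ≤ u) :
    (gam ι).real {g | u ≤ |F g - ce W F g|} ≤ 2 * Real.exp (-u ^ 2 / (5 * β)) := by
  have hFc := hF.continuous hL
  have hcc := (ce_lip hL hF hb W).continuous hL
  set E : Set (ι → ℝ) := {g | u ≤ |F g - ce W F g|} with hE
  have hEm : MeasurableSet E := measurableSet_le measurable_const (hFc.sub hcc).abs.measurable
  set b := 2 * Real.exp (-u ^ 2 / (5 * β)) with hb'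
  have hsec : ∀ g : ι → ℝ, (gam ι) {g' | u ≤ |F (W.piecewise g g') - ce W F g|} ≤
      ENNReal.ofReal b := by
    intro g
    have hlip : LipOn β (fun g' => F (W.piecewise g g')) Set.univ := by
      intro g1 _ g2 _
      refine (hW _ _ fun i hi => by simp [hi]).trans ?_
      refine mul_le_mul_of_nonneg_left ?_ hβ.le
      refine Finset.sum_le_sum fun i _ => ?_
      by_cases hi : i ∈ W
      · simp [hi, sq_nonneg]
      · simp [hi]
    have t1 := tail hβ hlip hu
    have t2 := tail hβ hlip.neg hu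
    have hsub : {g' : ι → ℝ | u ≤ |F (W.piecewise g g') - ce W F g|} ⊆
        {g' | u ≤ F (W.piecewise g g') - ∫ g'', F (W.piecewise g g'') ∂(gam ι)} ∪
        {g' | u ≤ -F (W.piecewise g g') - ∫ g'', -F (W.piecewise g g'') ∂(gam ι)} := by
      intro g' hg'
      simp only [Set.mem_ofPred_eq] at hg'
      rw [integral_neg]
      unfold ce at hg'
      rcases le_abs.1 hg' with h | h
      · exact Or.inl h
      · right
        simp only [Set.mem_ofPred_eq]
        linarith
    have t3 := (measureReal_mono hsub (μ := gam ι)).trans (measureReal_union_le _ _)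
    have t4 : (gam ι).real {g' | u ≤ |F (W.piecewise g g') - ce W F g|} ≤ b := by
      rw [hb']
      linarith
    rw [measureReal_def] at t4
    exact (ENNReal.le_ofReal_iff_toReal_le (measure_ne_top _ _) (by positivity)).2 t4
  have hmain : (gam ι) E ≤ ENNReal.ofReal b := by
    have hmap : ((gam ι).prod (gam ι)).map (fun p => W.piecewise p.1 p.2) = gam ι :=
      map_comb (fun _ : ι => gaussianReal 0 1) W
    conv_lhs => rw [← hmap]
    rw [Measure.map_apply (measurable_comb W) hEm,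
      Measure.prod_apply ((measurable_comb W) hEm)]
    calc ∫⁻ g, (gam ι) (Prod.mk g ⁻¹' ((fun p : (ι → ℝ) × (ι → ℝ) => W.piecewise p.1 p.2) ⁻¹' E))
          ∂(gam ι) ≤ ∫⁻ _g : ι → ℝ, ENNReal.ofReal b ∂(gam ι) := by
          apply lintegral_mono
          intro g
          refine le_trans (le_of_eq (congrArg (⇑(gam ι)) ?_)) (hsec g)
          ext g'
          simp only [Set.mem_preimage, hE, Set.mem_ofPred_eq]
          rw [ce_dep W F (W.piecewise g g') g fun i hi => by simp [hi]]
      _ = ENNReal.ofReal b := by simp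
  rw [measureReal_def]
  calc ((gam ι) E).toReal ≤ (ENNReal.ofReal b).toReal :=
        ENNReal.toReal_mono ENNReal.ofReal_ne_top hmain
    _ = b := ENNReal.toReal_ofReal (by positivity)

end general

namespace Sys

variable {ι κ : Type*} [Fintype ι] [DecidableEq ι] [Fintype κ] [DecidableEq κ] (S : Sys ι κ)

/-- local version of the proximal map -/
noncomputable def mm (r : ℕ) (g : ι → ℝ) (i : ι) : ℝ :=
  ce (ball S.A i r) (fun g => S.yy g i) g

lemma mm_abs_le (r : ℕ) (g : ι → ℝ) (i : ι) : |S.mm r g i| ≤ 1 :=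
  ce_abs_le (fun g => S.yy_abs_le g i) _ _

lemma mm_dep (r : ℕ) (i : ι) (g h : ι → ℝ) (hgh : ∀ k ∈ ball S.A i r, g k = h k) :
    S.mm r g i = S.mm r h i := ce_dep _ _ g h hgh

lemma mm_continuous (r : ℕ) (i : ι) : Continuous (fun g => S.mm r g i) := by
  have h0 : (0 : ℝ) ≤ 1 / S.a i := by have := S.a_pos i; positivity
  exact (ce_lip h0 (S.yy_lip i) (fun g => S.yy_abs_le g i) _).continuous h0

theorem mm_tail {ε t : ℝ} (ht : 0 < t) (hε : 0 ≤ ε) (hn : ∀ j, S.n j ≤ S.B ^ 2)
    (hdeg : ∀ i, ((Finset.univ.filter fun j => i ∈ S.A j).card : ℝ) ≤ t)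
    (hQ : S.p.Q * ε ^ 2 * t ≤ 2) {r : ℕ} (hr : 40 * t ^ 3 ≤ (1 + ε) ^ r) (i : ι) :
    (gam ι).real {g | 1 / t ≤ Real.sqrt (S.a i) * |S.yy g i - S.mm r g i|} ≤
      2 * Real.exp (-2 * t) := by
  have ha := S.a_pos i
  have hsa : 0 < Real.sqrt (S.a i) := Real.sqrt_pos.2 ha
  have h1e : 0 < (1 + ε) ^ r := by positivity
  set β := 4 / (1 + ε) ^ r / S.a i with hβ
  have hβ0 : 0 < β := by positivity
  set u := 1 / (t * Real.sqrt (S.a i)) with hu
  have hu0 : 0 ≤ u := by positivity
  have h := ce_tail (L := 1 / S.a i) (by positivity) hβ0 (S.yy_lip i)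
    (fun g => S.yy_abs_le g i) (ball S.A i r) (by
      intro g h hgh
      have := S.local_lip ε t hε hn hdeg hQ i r g h hgh
      rw [hβ, div_mul_eq_mul_div, le_div_iff₀ ha]
      linarith) hu0
  have hset : {g : ι → ℝ | 1 / t ≤ Real.sqrt (S.a i) * |S.yy g i - S.mm r g i|} =
      {g | u ≤ |S.yy g i - ce (ball S.A i r) (fun g => S.yy g i) g|} := by
    ext g
    simp only [Set.mem_ofPred_eq]
    rw [hu]
    unfold mm
    rw [div_le_iff₀ ht, div_le_iff₀ (by positivity)]
    constructor <;> intro h <;> linarith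
  rw [hset]
  refine h.trans ?_
  gcongr
  rw [hu, hβ, neg_div, neg_mul, neg_le_neg_iff]
  have e : (1 / (t * Real.sqrt (S.a i))) ^ 2 = 1 / (t ^ 2 * S.a i) := by
    rw [div_pow, mul_pow, Real.sq_sqrt ha.le, one_pow]
  rw [e]
  have e2 : 1 / (t ^ 2 * S.a i) / (5 * (4 / (1 + ε) ^ r / S.a i)) = (1 + ε) ^ r / (20 * t ^ 2) := by
    field_simp
    ring
  rw [e2, le_div_iff₀ (by positivity)]
  calc 2 * t * (20 * t ^ 2) = 40 * t ^ 3 := by ring
    _ ≤ _ := hr

end Sys

end Pool.Agent.Helper62.Disc
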