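import Pool.Agent.Helper62.Disc.Row2
import Pool.Agent.Helper62.Disc.Mass
import Pool.Agent.Helper62.Disc.Trunc

/-!
# One stage, with abstract parameters
-/

open Finset MeasureTheory ProbabilityTheory

namespace Pool.Agent.Helper62.Disc

namespace Sys

variable {ι κ : Type*} [Fintype ι] [DecidableEq ι] [Fintype κ] [DecidableEq κ] (S : Sys ι κ)

theorem stage (x : ι → ℝ) (hx : ∀ i, S.a i = 1 - x i ^ 2) {M : ℝ} {t r : ℕ} {ε η ρ0 p : ℝ}
    (ht : 1 ≤ t) (hM : 0 < M) (hmass : ∀ j, ∑ i ∈ S.A j, uf (x i) ≤ M)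
    (hcard : ∀ j, (S.A j).card ≤ t)
    (hdeg : ∀ i, (Finset.univ.filter fun j => i ∈ S.A j).card ≤ t)
    (hlin : ∀ j j', j ≠ j' → (S.A j ∩ S.A j').card ≤ 1)
    (hMB : M ≤ S.B ^ 2) (hk1 : 0 < S.p.k1)
    (hpar : (t : ℝ) * (S.p.k1 * e3 S.B M + S.p.k0) / S.B ^ 2 ≤ 1 / 160000)
    (hρ : 0 ≤ ρ0) (hρ3 : ρ0 ^ 3 ≤ S.B ^ 3 / S.p.k1)
    (hF : 1 < S.p.Phi 2 / S.B)
    (hF2 : 40 * (t : ℝ) ≤ S.B * (S.p.Phi 2 / S.B - 1) ^ 2)
    (hε : 0 ≤ ε) (hQ : S.p.Q * ε ^ 2 * t ≤ 2) (hr : 40 * (t : ℝ) ^ 3 ≤ (1 + ε) ^ r)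
    (hη : 0 ≤ η)
    (hp : Real.exp (-ρ0 ^ 2 / 5) + Real.exp (-(t : ℝ) / 3) + Real.exp (-(η * M) ^ 2 / t) +
      2 * t * Real.exp (-2 * t) ≤ p)
    (hL : 4 * p * (t : ℝ) ^ (4 * r + 2) ≤ 1) :
    ∃ x' : ι → ℝ, (∀ i, |x' i| < 1) ∧
      (∀ j, ∑ i ∈ S.A j, uf (x' i) ≤ (1 - 1 / 2048) * M + η * M + 2 / 5) ∧
      (∀ j, |∑ i ∈ S.A j, (x' i - x i)| ≤ (2 * S.B + 1) / 4) := by
  have ht' : (0 : ℝ) < t := by exact_mod_cast ht
  have ht1 : (1 : ℝ) ≤ t := by exact_mod_cast ht
  have hau : ∀ i, S.a i ≤ uf (x i) := by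
    intro i
    unfold uf
    rw [← hx i]
    apply Real.le_sqrt_of_sq_le
    have := S.a_pos i
    have := S.a_le i
    nlinarith
  have hn : ∀ j, S.n j ≤ M := fun j =>
    (Finset.sum_le_sum fun i _ => hau i).trans (hmass j)
  have hdegR : ∀ i, ((Finset.univ.filter fun j => i ∈ S.A j).card : ℝ) ≤ t := fun i => by
    exact_mod_cast hdeg i
  have hnB : ∀ j, S.n j ≤ S.B ^ 2 := fun j => (hn j).trans hMB
  set T := (1 - 1 / 2048) * M + η * M with hT
  -- the bad events
  let E : κ → Set (ι → ℝ) := fun j =>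
    {g | 2 * S.B + 1 < |S.s (S.mm r g) j|} ∪ {g | T + 2 / 5 < S.ZZ x j (S.mm r g)}
  have hmmc : Continuous (fun g => S.mm r g) := continuous_pi fun i => S.mm_continuous r i
  have hmeas : ∀ j, MeasurableSet (E j) := by
    intro j
    refine MeasurableSet.union ?_ ?_
    · have : Continuous (fun g => |S.s (S.mm r g) j|) := ((S.continuous_s j).comp hmmc).abs
      exact measurableSet_lt measurable_const this.measurable
    · have : Continuous (fun g => S.ZZ x j (S.mm r g)) := by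
        unfold ZZ
        refine continuous_finsetSum _ fun i _ => ?_
        have := S.mm_continuous r i
        exact uf_continuous.comp (by fun_prop)
      exact measurableSet_lt measurable_const this.measurable
  have hdep : ∀ j, ∀ g g' : ι → ℝ, (∀ i ∈ reg S.A r j, g i = g' i) → (g ∈ E j ↔ g' ∈ E j) := by
    intro j g g' hgg
    have h1 : ∀ i ∈ S.A j, S.mm r g i = S.mm r g' i := by
      intro i hi
      apply S.mm_dep
      intro k hk
      exact hgg k (Finset.mem_biUnion.2 ⟨i, hi, hk⟩)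
    have h2 : S.s (S.mm r g) j = S.s (S.mm r g') j := by
      unfold Sys.s
      exact Finset.sum_congr rfl fun i hi => by rw [h1 i hi]
    have h3 : S.ZZ x j (S.mm r g) = S.ZZ x j (S.mm r g') := by
      unfold ZZ
      exact Finset.sum_congr rfl fun i hi => by rw [h1 i hi]
    simp only [E, Set.mem_union, Set.mem_ofPred_eq, h2, h3]
  have hprob : ∀ j, (Measure.pi fun _ : ι => gaussianReal 0 1).real (E j) ≤ p := by
    intro j
    have hsub : E j ⊆ ({g | 2 * S.B < |S.s (S.yy g) j|} ∪ {g | T ≤ S.ZZ x j (S.yy g)}) ∪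
        ⋃ i ∈ S.A j, {g | 1 / (t : ℝ) ≤ Real.sqrt (S.a i) * |S.yy g i - S.mm r g i|} := by
      intro g hg
      by_contra hcon
      simp only [Set.mem_union, Set.mem_iUnion, Set.mem_ofPred_eq, not_or, not_exists,
        not_le, not_lt] at hcon
      obtain ⟨⟨c1, c2⟩, c3⟩ := hcon
      have hsum : ∑ i ∈ S.A j, Real.sqrt (S.a i) * |S.yy g i - S.mm r g i| ≤ 1 := by
        calc _ ≤ ∑ _i ∈ S.A j, 1 / (t : ℝ) := Finset.sum_le_sum fun i hi => (c3 i hi).le
          _ = ((S.A j).card : ℝ) * (1 / t) := by rw [Finset.sum_const, nsmul_eq_mul]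
          _ ≤ (t : ℝ) * (1 / t) := by
              have : ((S.A j).card : ℝ) ≤ t := by exact_mod_cast hcard j
              gcongr
          _ = 1 := by field_simp
      have hs : |S.s (S.mm r g) j| ≤ 2 * S.B + 1 := by
        have h1 : S.s (S.mm r g) j = S.s (S.yy g) j - ∑ i ∈ S.A j,
            S.a i * (S.yy g i - S.mm r g i) := by
          unfold Sys.s
          rw [← Finset.sum_sub_distrib]
          exact Finset.sum_congr rfl fun i _ => by ring
        have h2 : |∑ i ∈ S.A j, S.a i * (S.yy g i - S.mm r g i)| ≤ 1 := by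
          refine (Finset.abs_sum_le_sum_abs _ _).trans (le_trans ?_ hsum)
          refine Finset.sum_le_sum fun i _ => ?_
          rw [abs_mul, abs_of_pos (S.a_pos i)]
          refine mul_le_mul_of_nonneg_right ?_ (abs_nonneg _)
          apply Real.le_sqrt_of_sq_le
          have := S.a_pos i
          have := S.a_le i
          nlinarith
        rw [h1]
        calc _ ≤ |S.s (S.yy g) j| + |∑ i ∈ S.A j, S.a i * (S.yy g i - S.mm r g i)| :=
              abs_sub _ _
          _ ≤ _ := by linarith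
      have hz : S.ZZ x j (S.mm r g) ≤ T + 2 / 5 := by
        have h1 := S.ZZ_diff hx j (S.yy_abs_le g) (fun i => S.mm_abs_le r g i)
        rw [← Finset.mul_sum] at h1
        have h2 := (abs_le.1 h1).1
        linarith
      rcases hg with h | h
      · exact absurd h (not_lt.2 hs)
      · exact absurd h (not_lt.2 hz)
    have p1 := S.row_tail hM hn hcard hdegR hlin hk1 hpar hρ hρ3 hF hF2 j
    have p2 := S.mass_tail hx (by omega) hM hn hcard hdegR hpar hmass hη j
    rw [← hT] at p2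
    have p3 : (gam ι).real (⋃ i ∈ S.A j,
        {g | 1 / (t : ℝ) ≤ Real.sqrt (S.a i) * |S.yy g i - S.mm r g i|}) ≤
        2 * t * Real.exp (-2 * t) := by
      refine (measureReal_biUnion_finset_le _ _).trans ?_
      calc _ ≤ ∑ _i ∈ S.A j, 2 * Real.exp (-2 * (t : ℝ)) := by
            refine Finset.sum_le_sum fun i _ => ?_
            exact S.mm_tail ht' hε hnB hdegR hQ hr i
        _ = ((S.A j).card : ℝ) * (2 * Real.exp (-2 * t)) := by
            rw [Finset.sum_const, nsmul_eq_mul]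
        _ ≤ (t : ℝ) * (2 * Real.exp (-2 * t)) := by
            have : ((S.A j).card : ℝ) ≤ t := by exact_mod_cast hcard j
            gcongr
        _ = _ := by ring
    have h1 := (measureReal_mono hsub (μ := gam ι)).trans ((measureReal_union_le _ _).trans
      (add_le_add (measureReal_union_le _ _) le_rfl))
    have h2 : (gam ι).real (E j) ≤ p := by linarith
    exact h2
  have hp0 : 0 ≤ p := by
    refine le_trans ?_ hp
    positivity
  obtain ⟨g, hg⟩ := local_lemma_pi (fun _ : ι => gaussianReal 0 1) E hmeas (reg S.A r) hdep p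
    ((t : ℝ) ^ (4 * r + 2)) hprob hp0 (one_le_pow₀ ht1) (by
      intro j
      exact_mod_cast reg_count S.A ht hcard hdeg r j) hL
  refine ⟨fun i => x i + 1 / 4 * (S.a i * S.mm r g i), fun i => ?_, fun j => ?_, fun j => ?_⟩
  · exact shift_abs_lt (hx i) (S.a_pos i) (S.mm_abs_le r g i)
  · have h1 := hg j
    simp only [E, Set.mem_union, Set.mem_ofPred_eq, not_or, not_lt] at h1
    exact h1.2
  · have h1 := hg j
    simp only [E, Set.mem_union, Set.mem_ofPred_eq, not_or, not_lt] at h1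
    have h2 : ∑ i ∈ S.A j, (x i + 1 / 4 * (S.a i * S.mm r g i) - x i) =
        1 / 4 * S.s (S.mm r g) j := by
      unfold Sys.s
      rw [Finset.mul_sum]
      exact Finset.sum_congr rfl fun i _ => by ring
    rw [h2, abs_mul]
    have h3 : |(1 : ℝ) / 4| = 1 / 4 := by norm_num
    rw [h3]
    linarith [h1.1]

end Sys

end Pool.Agent.Helper62.Disc
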